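import Mathlib

/-!
# Complete umbilic-free surfaces (MP_7d7bd6_gt): definitions

Surfaces are given as maps `f : E2 → E3` from the plane (here only the topological plane matters:
all metric notions come from the induced metric).
-/

set_option autoImplicit false

open Set Filter Topology
open scoped ContDiff

namespace Pool.Agent.Helper41.MU

/-- the plane `ℝ²` -/
abbrev E2 := EuclideanSpace ℝ (Fin 2)

/-- Euclidean space `ℝ³` -/
abbrev E3 := EuclideanSpace ℝ (Fin 3)

/-- `f` is a smooth immersion of the plane into `ℝ³`. -/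
def IsImmersion (f : E2 → E3) : Prop :=
  ContDiff ℝ ∞ f ∧ ∀ p, Function.Injective (fderiv ℝ f p)

/-- The length, for the metric induced by `f`, of the curve `c` restricted to `[0, 1]`. -/
noncomputable def curveLength (f : E2 → E3) (c : ℝ → E2) : ℝ :=
  ∫ t in (0 : ℝ)..1, ‖deriv (fun s => f (c s)) t‖

/-- The distance of the metric induced by `f`: the infimum of the lengths of `C¹` curves. -/
noncomputable def inducedDist (f : E2 → E3) (x y : E2) : ℝ :=
  sInf {L : ℝ | ∃ c : ℝ → E2, ContDiff ℝ 1 c ∧ c 0 = x ∧ c 1 = y ∧ L = curveLength f c}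

/-- The metric induced by `f` is complete: sequences which are Cauchy for it converge. -/
def IsCompleteSurface (f : E2 → E3) : Prop :=
  ∀ x : ℕ → E2,
    (∀ ε : ℝ, 0 < ε → ∃ N : ℕ, ∀ i j : ℕ, N ≤ i → N ≤ j → inducedDist f (x i) (x j) < ε) →
    ∃ a : E2, Tendsto x atTop (𝓝 a) ∧ Tendsto (fun i => inducedDist f (x i) a) atTop (𝓝 0)

/-- `ν` is a unit normal vector of the surface at the point `f p`. -/
def IsUnitNormal (f : E2 → E3) (p : E2) (ν : E3) : Prop :=
  ‖ν‖ = 1 ∧ ∀ u : E2, inner ℝ ν (fderiv ℝ f p u) = 0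

/-- The second fundamental form at `p` with respect to the unit normal vector `ν`. -/
noncomputable def secondForm (f : E2 → E3) (p : E2) (ν : E3) (u v : E2) : ℝ :=
  inner ℝ (fderiv ℝ (fun q => fderiv ℝ f q v) p u) ν

/-- `k₁, k₂` are the principal curvatures at `p` with respect to `ν`: there is a basis `e₁, e₂`,
orthonormal for the induced metric, in which the second fundamental form is diagonal with
entries `k₁, k₂`. -/
def ArePrincipal (f : E2 → E3) (p : E2) (ν : E3) (k₁ k₂ : ℝ) : Prop :=
  ∃ e₁ e₂ : E2,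
    inner ℝ (fderiv ℝ f p e₁) (fderiv ℝ f p e₁) = 1 ∧
    inner ℝ (fderiv ℝ f p e₂) (fderiv ℝ f p e₂) = 1 ∧
    inner ℝ (fderiv ℝ f p e₁) (fderiv ℝ f p e₂) = 0 ∧
    secondForm f p ν e₁ e₁ = k₁ ∧ secondForm f p ν e₂ e₂ = k₂ ∧ secondForm f p ν e₁ e₂ = 0

/-- the unit vector with angle `θ` -/
noncomputable def cv (θ : ℝ) : E2 := !₂[Real.cos θ, Real.sin θ]

/-- the derivative of `cv` -/
noncomputable def cw (θ : ℝ) : E2 := !₂[-Real.sin θ, Real.cos θ]

/-- the second derivative of `F` at `p` -/
noncomputable def H (F : E2 → ℝ) (p u v : E2) : ℝ := fderiv ℝ (fderiv ℝ F) p u v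

/-- first and second partial derivatives of a function of two real variables:
`g1, g2` are the derivatives of `g` in the first and in the second variable, `g11, g12` the
derivatives of `g1, g2` in the first variable, `g22` the derivative of `g2` in the second one -/
structure IsJet (g g1 g2 g11 g12 g22 : ℝ → ℝ → ℝ) : Prop where
  d1 : ∀ θ t, HasDerivAt (fun x => g x t) (g1 θ t) θ
  d2 : ∀ θ t, HasDerivAt (fun x => g θ x) (g2 θ t) t
  d11 : ∀ θ t, HasDerivAt (fun x => g1 x t) (g11 θ t) θ
  d12 : ∀ θ t, HasDerivAt (fun x => g2 x t) (g12 θ t) θ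
  d22 : ∀ θ t, HasDerivAt (fun x => g2 θ x) (g22 θ t) t

end Pool.Agent.Helper41.MU
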