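import Mathlib
import Pool.Agent.Helper41.MU.Defs

/-!
# MU-1 GEO (project MU, MP_7d7bd6_gt): the surface given by a convex function
-/

set_option autoImplicit false

open Set Filter Topology
open scoped ContDiff

namespace Pool.Agent.Helper41.MU

namespace Geo

/-! ### pure algebra -/

/-- rows orthonormal, then columns orthonormal -/
theorem cols {p1 q1 p2 q2 : ℝ} (h1 : p1 ^ 2 + q1 ^ 2 = 1) (h2 : p2 ^ 2 + q2 ^ 2 = 1)
    (h3 : p1 * p2 + q1 * q2 = 0) :
    p1 ^ 2 + p2 ^ 2 = 1 ∧ q1 ^ 2 + q2 ^ 2 = 1 ∧ p1 * q1 + p2 * q2 = 0 := by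
  have hd : (p1 * q2 - p2 * q1) ^ 2 = 1 := by
    have : (p1 * q2 - p2 * q1) ^ 2 =
        (p1 ^ 2 + q1 ^ 2) * (p2 ^ 2 + q2 ^ 2) - (p1 * p2 + q1 * q2) ^ 2 := by ring
    rw [this, h1, h2, h3]; ring
  have e1 : p2 = -q1 * (p1 * q2 - p2 * q1) := by
    have : p2 = p2 * (p1 ^ 2 + q1 ^ 2) := by rw [h1, mul_one]
    linear_combination (-p2) * h1 + p1 * h3
  have e2 : q2 = p1 * (p1 * q2 - p2 * q1) := by
    linear_combination (-q2) * h1 + q1 * h3
  set d := p1 * q2 - p2 * q1 with hdd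
  refine ⟨?_, ?_, ?_⟩
  · rw [e1]
    linear_combination h1 + q1 ^ 2 * hd
  · rw [e2]
    linear_combination h1 + p1 ^ 2 * hd
  · rw [e1, e2]
    linear_combination (-(p1 * q1)) * hd

theorem posdef {α β γ : ℝ} (hα : 0 < α) (hΔ : β ^ 2 < α * γ) {x y : ℝ} (h : x ≠ 0 ∨ y ≠ 0) :
    0 < α * x ^ 2 + 2 * β * x * y + γ * y ^ 2 := by
  have e : α * (α * x ^ 2 + 2 * β * x * y + γ * y ^ 2) =
      (α * x + β * y) ^ 2 + (α * γ - β ^ 2) * y ^ 2 := by ring
  by_contra hc
  push Not at hc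
  have h1 : α * (α * x ^ 2 + 2 * β * x * y + γ * y ^ 2) ≤ 0 := by nlinarith
  rw [e] at h1
  have hy : y = 0 := by
    by_contra hy
    have : 0 < y ^ 2 := by positivity
    nlinarith [sq_nonneg (α * x + β * y), mul_pos (sub_pos.2 hΔ) this]
  have hx : x = 0 := by
    rw [hy] at h1
    have : (α * x) ^ 2 ≤ 0 := by nlinarith
    have h2 : α * x = 0 := by nlinarith [sq_nonneg (α * x)]
    rcases mul_eq_zero.1 h2 with h | h
    · linarith
    · exact h
  rcases h with h | h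
  · exact h hx
  · exact h hy

/-- the principal curvatures, in orthonormal coordinates -/
theorem principal_aux {α β γ W n Δ P1 Q1 P2 Q2 k1 k2 : ℝ} (hα : 0 < α)
    (hΔd : Δ = α * γ - β ^ 2) (hΔ0 : 0 < Δ)
    (hW : 0 < W) (hn : n ^ 2 * W ^ 2 = 1)
    (h11 : W ^ 2 * P1 ^ 2 + Q1 ^ 2 = 1) (h22 : W ^ 2 * P2 ^ 2 + Q2 ^ 2 = 1)
    (h12 : W ^ 2 * (P1 * P2) + Q1 * Q2 = 0)
    (f1 : Δ * k1 = n * (γ * P1 ^ 2 - 2 * β * P1 * Q1 + α * Q1 ^ 2))
    (f2 : Δ * k2 = n * (γ * P2 ^ 2 - 2 * β * P2 * Q2 + α * Q2 ^ 2))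
    (f12 : 0 = n * (γ * P1 * P2 - β * (P1 * Q2 + P2 * Q1) + α * Q1 * Q2))
    (hγ : W * γ ≤ 2) (hne : γ ≠ W ^ 2 * α ∨ β ≠ 0) :
    k1 ≠ k2 ∧ 1 / 4 ≤ k1 ^ 2 + k2 ^ 2 := by
  have hn0 : n ≠ 0 := by
    rintro rfl
    simp at hn
  obtain ⟨c1, c2, c3⟩ := cols (p1 := W * P1) (q1 := Q1) (p2 := W * P2) (q2 := Q2)
    (by linear_combination h11) (by linear_combination h22) (by linear_combination h12)
  have A' : P1 * Q1 + P2 * Q2 = 0 := by
    have : W * (P1 * Q1 + P2 * Q2) = 0 := by linear_combination c3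
    exact (mul_eq_zero.1 this).resolve_left hW.ne'
  have B' : W ^ 2 * (P1 ^ 2 + P2 ^ 2) = 1 := by linear_combination c1
  have m22 : Δ * (k1 * Q1 ^ 2 + k2 * Q2 ^ 2) = n * α := by
    have e : Δ * (k1 * Q1 ^ 2 + k2 * Q2 ^ 2) =
        n * (γ * (P1 * Q1 + P2 * Q2) ^ 2 - 2 * β * (P1 * Q1 + P2 * Q2) * (Q1 ^ 2 + Q2 ^ 2) +
          α * (Q1 ^ 2 + Q2 ^ 2) ^ 2) := by
      linear_combination Q1 ^ 2 * f1 + Q2 ^ 2 * f2 + 2 * Q1 * Q2 * f12
    rw [e, A', c2]
    ring
  have hQ : (k1 * Q1 ^ 2 + k2 * Q2 ^ 2) ^ 2 ≤ k1 ^ 2 + k2 ^ 2 := by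
    have a1 : 0 ≤ Q1 ^ 2 := sq_nonneg _
    have a2 : 0 ≤ Q2 ^ 2 := sq_nonneg _
    have a3 : Q2 ^ 2 = 1 - Q1 ^ 2 := by linarith
    rw [a3] at a2 ⊢
    generalize Q1 ^ 2 = q at a1 a2 ⊢
    have e : k1 ^ 2 + k2 ^ 2 - (k1 * q + k2 * (1 - q)) ^ 2 =
        (k1 * (1 - q) - k2 * q) ^ 2 + 2 * (q * (1 - q)) * (k1 ^ 2 + k2 ^ 2) +
        0 := by ring_nf
    nlinarith [sq_nonneg (k1 * (1 - q) - k2 * q), mul_nonneg (mul_nonneg a1 a2)
      (add_nonneg (sq_nonneg k1) (sq_nonneg k2))]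
  refine ⟨?_, ?_⟩
  · intro hkk
    rw [← hkk] at f2 m22
    have m22' : Δ * k1 = n * α := by
      linear_combination m22 - Δ * k1 * c2
    have m12 : n * β = 0 := by
      have e : W ^ 2 * (Δ * k1 * (P1 * Q1 + P2 * Q2)) = W ^ 2 * (n * (γ * (P1 ^ 2 + P2 ^ 2) *
          (P1 * Q1 + P2 * Q2) - β * ((P1 ^ 2 + P2 ^ 2) * (Q1 ^ 2 + Q2 ^ 2) + (P1 * Q1 + P2 * Q2) ^ 2)
          + α * (Q1 ^ 2 + Q2 ^ 2) * (P1 * Q1 + P2 * Q2))) := by
        linear_combination W ^ 2 * P1 * Q1 * f1 + W ^ 2 * P2 * Q2 * f2 +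
          W ^ 2 * (P1 * Q2 + P2 * Q1) * f12
      rw [A', c2] at e
      linear_combination e - n * β * B'
    have hβ : β = 0 := (mul_eq_zero.1 m12).resolve_left hn0
    have m11 : Δ * k1 = n * γ * (P1 ^ 2 + P2 ^ 2) := by
      have e : W ^ 2 * (Δ * k1 * (P1 ^ 2 + P2 ^ 2)) = W ^ 2 * (n * (γ * (P1 ^ 2 + P2 ^ 2) ^ 2
          - 2 * β * (P1 ^ 2 + P2 ^ 2) * (P1 * Q1 + P2 * Q2) + α * (P1 * Q1 + P2 * Q2) ^ 2)) := by
        linear_combination W ^ 2 * P1 ^ 2 * f1 + W ^ 2 * P2 ^ 2 * f2 +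
          2 * W ^ 2 * P1 * P2 * f12
      rw [A', hβ] at e
      linear_combination e - (Δ * k1 - n * γ * (P1 ^ 2 + P2 ^ 2)) * B'
    have hγα : γ = W ^ 2 * α := by
      have e : n * γ = n * (W ^ 2 * α) := by
        have h1 : W ^ 2 * (Δ * k1) = n * γ := by
          rw [m11]
          linear_combination n * γ * B'
        rw [m22'] at h1
        linear_combination -h1
      exact mul_left_cancel₀ hn0 e
    rcases hne with h | h
    · exact h hγα
    · exact h hβ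
  · refine le_trans ?_ hQ
    have e : Δ ^ 2 * (k1 * Q1 ^ 2 + k2 * Q2 ^ 2) ^ 2 = n ^ 2 * α ^ 2 := by
      rw [← mul_pow, m22, mul_pow]
    have e1 : W * Δ ≤ 2 * α := by
      have : Δ ≤ α * γ := by rw [hΔd]; nlinarith [sq_nonneg β]
      nlinarith [mul_le_mul_of_nonneg_left this hW.le, mul_le_mul_of_nonneg_left hγ hα.le]
    have e2 : (W * Δ) ^ 2 ≤ (2 * α) ^ 2 := by
      apply pow_le_pow_left₀ (by positivity) e1
    generalize (k1 * Q1 ^ 2 + k2 * Q2 ^ 2) ^ 2 = T at e ⊢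
    have e3 : W ^ 2 * (Δ ^ 2 * T) = α ^ 2 := by
      rw [e]
      linear_combination α ^ 2 * hn
    have e4 : 0 < W ^ 2 * Δ ^ 2 := by positivity
    by_contra hc
    push Not at hc
    nlinarith [mul_pos e4 (sub_pos.2 hc)]

theorem principal {α β γ W n x1 y1 x2 y2 k1 k2 : ℝ} (hα : 0 < α) (hΔ : β ^ 2 < α * γ)
    (hW : 0 < W) (hn : n ^ 2 * W ^ 2 = 1)
    (h11 : W ^ 2 * (α * x1 + β * y1) ^ 2 + (β * x1 + γ * y1) ^ 2 = 1)
    (h22 : W ^ 2 * (α * x2 + β * y2) ^ 2 + (β * x2 + γ * y2) ^ 2 = 1)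
    (h12 : W ^ 2 * ((α * x1 + β * y1) * (α * x2 + β * y2)) +
      (β * x1 + γ * y1) * (β * x2 + γ * y2) = 0)
    (hk1 : n * (α * x1 ^ 2 + 2 * β * x1 * y1 + γ * y1 ^ 2) = k1)
    (hk2 : n * (α * x2 ^ 2 + 2 * β * x2 * y2 + γ * y2 ^ 2) = k2)
    (hk : n * (α * x1 * x2 + β * (x1 * y2 + y1 * x2) + γ * y1 * y2) = 0)
    (hγ : W * γ ≤ 2) (hne : γ ≠ W ^ 2 * α ∨ β ≠ 0) :
    k1 ≠ k2 ∧ 1 / 4 ≤ k1 ^ 2 + k2 ^ 2 ∧ 0 < k1 * k2 := by
  have hn0 : n ≠ 0 := by
    rintro rfl
    simp at hn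
  obtain ⟨h1, h2⟩ := principal_aux (Δ := α * γ - β ^ 2) hα rfl (sub_pos.2 hΔ) hW hn h11 h22 h12
    (k1 := k1) (k2 := k2) (by rw [← hk1]; ring) (by rw [← hk2]; ring)
    (by linear_combination (-(α * γ - β ^ 2)) * hk) hγ hne
  refine ⟨h1, h2, ?_⟩
  rw [← hk1, ← hk2]
  have p1 : 0 < α * x1 ^ 2 + 2 * β * x1 * y1 + γ * y1 ^ 2 := by
    apply posdef hα hΔ
    by_contra hc
    push Not at hc
    rw [hc.1, hc.2] at h11
    norm_num at h11
  have p2 : 0 < α * x2 ^ 2 + 2 * β * x2 * y2 + γ * y2 ^ 2 := by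
    apply posdef hα hΔ
    by_contra hc
    push Not at hc
    rw [hc.1, hc.2] at h22
    norm_num at h22
  have e : n * (α * x1 ^ 2 + 2 * β * x1 * y1 + γ * y1 ^ 2) *
      (n * (α * x2 ^ 2 + 2 * β * x2 * y2 + γ * y2 ^ 2)) =
      n ^ 2 * ((α * x1 ^ 2 + 2 * β * x1 * y1 + γ * y1 ^ 2) *
      (α * x2 ^ 2 + 2 * β * x2 * y2 + γ * y2 ^ 2)) := by ring
  rw [e]
  have : 0 < n ^ 2 := by positivity
  exact mul_pos this (mul_pos p1 p2)

/-- existence of principal directions -/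
theorem exists_principal {α β γ W n : ℝ} (hΔ : β ^ 2 < α * γ) (hW : 0 < W) :
    ∃ x1 y1 x2 y2 : ℝ, W ^ 2 * (α * x1 + β * y1) ^ 2 + (β * x1 + γ * y1) ^ 2 = 1 ∧
      W ^ 2 * (α * x2 + β * y2) ^ 2 + (β * x2 + γ * y2) ^ 2 = 1 ∧
      W ^ 2 * ((α * x1 + β * y1) * (α * x2 + β * y2)) +
      (β * x1 + γ * y1) * (β * x2 + γ * y2) = 0 ∧
      n * (α * x1 * x2 + β * (x1 * y2 + y1 * x2) + γ * y1 * y2) = 0 := by
  have hΔ0 : 0 < α * γ - β ^ 2 := sub_pos.2 hΔ
  set Δ := α * γ - β ^ 2 with hΔd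
  let X : ℝ → ℝ → ℝ := fun P Q => (γ * P - β * Q) / Δ
  let Y : ℝ → ℝ → ℝ := fun P Q => (α * Q - β * P) / Δ
  have hP : ∀ P Q, α * X P Q + β * Y P Q = P := by
    intro P Q
    simp only [X, Y]
    field_simp
    rw [hΔd]; ring
  have hQ : ∀ P Q, β * X P Q + γ * Y P Q = Q := by
    intro P Q
    simp only [X, Y]
    field_simp
    rw [hΔd]; ring
  let g : ℝ → ℝ := fun φ => n * (X (Real.cos φ / W) (Real.sin φ) * (-Real.sin φ / W) +
    Y (Real.cos φ / W) (Real.sin φ) * Real.cos φ)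
  have hgc : Continuous g := by
    simp only [g, X, Y]
    fun_prop
  have hg0 : g 0 = n * (-β / W) / Δ := by
    simp only [g, X, Y, Real.cos_zero, Real.sin_zero]
    field_simp
    ring
  have hg1 : g (Real.pi / 2) = -(n * (-β / W) / Δ) := by
    simp only [g, X, Y, Real.cos_pi_div_two, Real.sin_pi_div_two]
    field_simp
    ring
  have hz : ∃ φ, g φ = 0 := by
    have hpi : (0 : ℝ) ≤ Real.pi / 2 := by positivity
    rcases le_total (g 0) 0 with h | h
    · have h1 : (0 : ℝ) ∈ Icc (g 0) (g (Real.pi / 2)) := ⟨h, by rw [hg1, ← hg0]; linarith⟩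
      obtain ⟨φ, _, hφ⟩ := intermediate_value_Icc hpi hgc.continuousOn h1
      exact ⟨φ, hφ⟩
    · have h1 : (0 : ℝ) ∈ Icc (g (Real.pi / 2)) (g 0) := ⟨by rw [hg1, ← hg0]; linarith, h⟩
      obtain ⟨φ, _, hφ⟩ := intermediate_value_Icc' hpi hgc.continuousOn h1
      exact ⟨φ, hφ⟩
  obtain ⟨φ, hφ⟩ := hz
  have hcs := Real.sin_sq_add_cos_sq φ
  refine ⟨X (Real.cos φ / W) (Real.sin φ), Y (Real.cos φ / W) (Real.sin φ),
    X (-Real.sin φ / W) (Real.cos φ), Y (-Real.sin φ / W) (Real.cos φ), ?_, ?_, ?_, ?_⟩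
  · rw [hP, hQ]
    field_simp
    linarith
  · rw [hP, hQ]
    field_simp
    linarith
  · rw [hP, hQ, hP, hQ]
    field_simp
    ring
  · rw [← hφ]
    simp only [g]
    have e1 := hP (-Real.sin φ / W) (Real.cos φ)
    have e2 := hQ (-Real.sin φ / W) (Real.cos φ)
    linear_combination n * X (Real.cos φ / W) (Real.sin φ) * e1 +
      n * Y (Real.cos φ / W) (Real.sin φ) * e2

/-! ### coordinates -/

noncomputable def b0 : E2 := !₂[1, 0]
noncomputable def b1 : E2 := !₂[0, 1]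

theorem decomp (u : E2) : u = u 0 • b0 + u 1 • b1 := by
  ext i; fin_cases i <;> simp [b0, b1]

/-- coordinates in the rotated frame -/
noncomputable def X (t : ℝ) (u : E2) : ℝ := u 0 * Real.cos t + u 1 * Real.sin t
noncomputable def Y (t : ℝ) (u : E2) : ℝ := -(u 0) * Real.sin t + u 1 * Real.cos t

theorem frame (t : ℝ) (u : E2) : u = X t u • cv t + Y t u • cw t := by
  have h := Real.sin_sq_add_cos_sq t
  ext i; fin_cases i
  · simp [X, Y, cv, cw]
    linear_combination (-(u 0)) * h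
  · simp [X, Y, cv, cw]
    linear_combination (-(u 1)) * h

theorem X_frame (t x y : ℝ) : X t (x • cv t + y • cw t) = x := by
  have h := Real.sin_sq_add_cos_sq t
  simp [X, cv, cw]
  linear_combination x * h

theorem Y_frame (t x y : ℝ) : Y t (x • cv t + y • cw t) = y := by
  have h := Real.sin_sq_add_cos_sq t
  simp [Y, cv, cw]
  linear_combination y * h

theorem inner3 (x y : E3) : inner ℝ x y = x 0 * y 0 + x 1 * y 1 + x 2 * y 2 := by
  rw [PiLp.inner_apply, Fin.sum_univ_three]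
  simp [mul_comm]

theorem norm3 (x : E3) : ‖x‖ ^ 2 = x 0 ^ 2 + x 1 ^ 2 + x 2 ^ 2 := by
  rw [← real_inner_self_eq_norm_sq, inner3]; ring

theorem norm2 (x : E2) : ‖x‖ ^ 2 = x 0 ^ 2 + x 1 ^ 2 := by
  rw [← real_inner_self_eq_norm_sq, PiLp.inner_apply, Fin.sum_univ_two]
  simp

/-! ### the surface -/

noncomputable def surf (F : E2 → ℝ) (p : E2) : E3 :=
  !₂[fderiv ℝ F p b0, fderiv ℝ F p b1, fderiv ℝ F p p - F p]

section

variable {F : E2 → ℝ}

theorem contDiff_dF (hF : ContDiff ℝ ∞ F) : ContDiff ℝ ∞ (fderiv ℝ F) :=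
  hF.fderiv_right (by norm_num)

theorem hasFDeriv_dF (hF : ContDiff ℝ ∞ F) (p : E2) :
    HasFDerivAt (fderiv ℝ F) (fderiv ℝ (fderiv ℝ F) p) p :=
  ((contDiff_dF hF).differentiable (by norm_num) p).hasFDerivAt

theorem hasFDeriv_F (hF : ContDiff ℝ ∞ F) (p : E2) : HasFDerivAt F (fderiv ℝ F p) p :=
  (hF.differentiable (by norm_num) p).hasFDerivAt

theorem H_symm (hF : ContDiff ℝ ∞ F) (p u v : E2) : H F p u v = H F p v u := by
  have h : IsSymmSndFDerivAt ℝ F p := by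
    apply ContDiffAt.isSymmSndFDerivAt (n := ∞) hF.contDiffAt
    rw [minSmoothness_of_isRCLikeNormedField]
    exact ENat.LEInfty.out
  exact h u v

theorem H_add_left (p u u' v : E2) : H F p (u + u') v = H F p u v + H F p u' v := by
  simp [H]
theorem H_smul_left (p u v : E2) (a : ℝ) : H F p (a • u) v = a * H F p u v := by
  simp [H]
theorem H_add_right (p u v v' : E2) : H F p u (v + v') = H F p u v + H F p u v' := by
  simp [H]
theorem H_smul_right (p u v : E2) (a : ℝ) : H F p u (a • v) = a * H F p u v := by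
  simp [H]

theorem contDiff_surf (hF : ContDiff ℝ ∞ F) : ContDiff ℝ ∞ (surf F) := by
  rw [contDiff_euclidean]
  have h := contDiff_dF hF
  intro i
  fin_cases i
  · exact h.clm_apply contDiff_const
  · exact h.clm_apply contDiff_const
  · exact (h.clm_apply contDiff_id).sub hF

theorem fderiv_surf (hF : ContDiff ℝ ∞ F) (p u : E2) :
    fderiv ℝ (surf F) p u = !₂[H F p u b0, H F p u b1, H F p u p] := by
  have hd : HasFDerivAt (surf F) (fderiv ℝ (surf F) p) p :=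
    ((contDiff_surf hF).differentiable (by norm_num) p).hasFDerivAt
  have hc : ∀ i : Fin 3, HasFDerivAt (fun q => surf F q i)
      ((EuclideanSpace.proj i : E3 →L[ℝ] ℝ).comp (fderiv ℝ (surf F) p)) p := by
    intro i
    exact (EuclideanSpace.proj i : E3 →L[ℝ] ℝ).hasFDerivAt.comp p hd
  have h1 := hasFDeriv_dF hF p
  have g0 : HasFDerivAt (fun q => surf F q 0) _ p := h1.clm_apply (hasFDerivAt_const b0 p)
  have g1 : HasFDerivAt (fun q => surf F q 1) _ p := h1.clm_apply (hasFDerivAt_const b1 p)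
  have g2 : HasFDerivAt (fun q => surf F q 2) _ p :=
    (h1.clm_apply (hasFDerivAt_id p)).sub (hasFDeriv_F hF p)
  ext i
  fin_cases i
  · have := congrArg (fun L : E2 →L[ℝ] ℝ => L u) ((hc 0).unique g0)
    simpa [H] using this
  · have := congrArg (fun L : E2 →L[ℝ] ℝ => L u) ((hc 1).unique g1)
    simpa [H] using this
  · have := congrArg (fun L : E2 →L[ℝ] ℝ => L u) ((hc 2).unique g2)
    simpa [H] using this

/-- the normal direction -/
noncomputable def nor (p : E2) : E3 := !₂[-(p 0), -(p 1), 1]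

theorem H_decomp (p u v : E2) : H F p u v = v 0 * H F p u b0 + v 1 * H F p u b1 := by
  conv_lhs => rw [decomp v]
  rw [H_add_right, H_smul_right, H_smul_right]

theorem inner_nor (hF : ContDiff ℝ ∞ F) (p u : E2) :
    inner ℝ (fderiv ℝ (surf F) p u) (nor p) = 0 := by
  rw [fderiv_surf hF, inner3]
  simp only [nor]
  have := H_decomp (F := F) p u p
  simp
  linarith

theorem second (hF : ContDiff ℝ ∞ F) (p u v : E2) (n : ℝ) :
    secondForm (surf F) p (n • nor p) u v = n * H F p u v := by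
  unfold secondForm
  set G : E2 → E3 := fun q => fderiv ℝ (surf F) q v with hG
  have hGd : HasFDerivAt G (fderiv ℝ G p) p := by
    have : ContDiff ℝ ∞ G := ((contDiff_surf hF).fderiv_right (by norm_num)).clm_apply contDiff_const
    exact (this.differentiable (by norm_num) p).hasFDerivAt
  have hN : HasFDerivAt nor (fderiv ℝ nor p) p ∧ fderiv ℝ nor p u = !₂[-(u 0), -(u 1), 0] := by
    have hNc : ContDiff ℝ ∞ nor := by
      rw [contDiff_euclidean]
      intro i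
      fin_cases i
      · exact (contDiff_euclidean.1 contDiff_id 0).neg
      · exact (contDiff_euclidean.1 contDiff_id 1).neg
      · exact contDiff_const
    have hd : HasFDerivAt nor (fderiv ℝ nor p) p := (hNc.differentiable (by norm_num) p).hasFDerivAt
    refine ⟨hd, ?_⟩
    have hc : ∀ i : Fin 3, HasFDerivAt (fun q => nor q i)
        ((EuclideanSpace.proj i : E3 →L[ℝ] ℝ).comp (fderiv ℝ nor p)) p := by
      intro i
      exact (EuclideanSpace.proj i : E3 →L[ℝ] ℝ).hasFDerivAt.comp p hd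
    have g0 : HasFDerivAt (fun q => nor q 0) _ p :=
      (EuclideanSpace.proj (0 : Fin 2) : E2 →L[ℝ] ℝ).hasFDerivAt.neg
    have g1 : HasFDerivAt (fun q => nor q 1) _ p :=
      (EuclideanSpace.proj (1 : Fin 2) : E2 →L[ℝ] ℝ).hasFDerivAt.neg
    have g2 : HasFDerivAt (fun q => nor q 2) (0 : E2 →L[ℝ] ℝ) p := hasFDerivAt_const (1 : ℝ) p
    ext i
    fin_cases i
    · have := congrArg (fun L : E2 →L[ℝ] ℝ => L u) ((hc 0).unique g0)
      simpa using this
    · have := congrArg (fun L : E2 →L[ℝ] ℝ => L u) ((hc 1).unique g1)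
      simpa using this
    · have := congrArg (fun L : E2 →L[ℝ] ℝ => L u) ((hc 2).unique g2)
      simpa using this
  have hin := hGd.inner ℝ hN.1
  have h0 : HasFDerivAt (fun q => inner ℝ (G q) (nor q)) (0 : E2 →L[ℝ] ℝ) p := by
    have : (fun q => inner ℝ (G q) (nor q)) = fun _ => (0 : ℝ) := by
      funext q
      exact inner_nor hF q v
    rw [this]
    exact hasFDerivAt_const 0 p
  have h1 := congrArg (fun L : E2 →L[ℝ] ℝ => L u) (hin.unique h0)
  have h2 : inner ℝ (G p) (fderiv ℝ nor p u) + inner ℝ (fderiv ℝ G p u) (nor p) = 0 := by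
    simpa using h1
  rw [hN.2] at h2
  have h3 : inner ℝ (G p) (!₂[-(u 0), -(u 1), 0] : E3) = -(H F p v u) := by
    rw [hG]
    simp only
    rw [fderiv_surf hF, inner3]
    have := H_decomp (F := F) p v u
    simp
    linarith
  rw [real_inner_smul_right, H_symm hF p u v]
  rw [h3] at h2
  have : inner ℝ (fderiv ℝ G p u) (nor p) = H F p v u := by linarith
  rw [this]

theorem H_frame (hF : ContDiff ℝ ∞ F) (p u v : E2) (t : ℝ) :
    H F p u v = H F p (cv t) (cv t) * X t u * X t v +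
      H F p (cv t) (cw t) * (X t u * Y t v + Y t u * X t v) +
      H F p (cw t) (cw t) * Y t u * Y t v := by
  conv_lhs => rw [frame t u, frame t v]
  simp only [H_add_left, H_add_right, H_smul_left, H_smul_right]
  rw [H_symm hF p (cw t) (cv t)]
  ring

theorem first_frame (hF : ContDiff ℝ ∞ F) {p : E2} {t ρ : ℝ} (hp : p = ρ • cv t) (u v : E2) :
    inner ℝ (fderiv ℝ (surf F) p u) (fderiv ℝ (surf F) p v) =
      (1 + ρ ^ 2) * ((H F p (cv t) (cv t) * X t u + H F p (cv t) (cw t) * Y t u) *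
        (H F p (cv t) (cv t) * X t v + H F p (cv t) (cw t) * Y t v)) +
      (H F p (cv t) (cw t) * X t u + H F p (cw t) (cw t) * Y t u) *
        (H F p (cv t) (cw t) * X t v + H F p (cw t) (cw t) * Y t v) := by
  have hXp : X t p = ρ := by
    have := X_frame t ρ 0
    rw [zero_smul, add_zero, ← hp] at this
    exact this
  have hYp : Y t p = 0 := by
    have := Y_frame t ρ 0
    rw [zero_smul, add_zero, ← hp] at this
    exact this
  have hX0 : X t b0 = Real.cos t := by simp [X, b0]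
  have hY0 : Y t b0 = -Real.sin t := by simp [Y, b0]
  have hX1 : X t b1 = Real.sin t := by simp [X, b1]
  have hY1 : Y t b1 = Real.cos t := by simp [Y, b1]
  have h := Real.sin_sq_add_cos_sq t
  rw [fderiv_surf hF, fderiv_surf hF, inner3]
  have e : ∀ w : E2, H F p w b0 = (H F p (cv t) (cv t) * X t w + H F p (cv t) (cw t) * Y t w) *
      Real.cos t - (H F p (cv t) (cw t) * X t w + H F p (cw t) (cw t) * Y t w) * Real.sin t := by
    intro w
    rw [H_frame hF p w b0 t, hX0, hY0]; ring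
  have e1 : ∀ w : E2, H F p w b1 = (H F p (cv t) (cv t) * X t w + H F p (cv t) (cw t) * Y t w) *
      Real.sin t + (H F p (cv t) (cw t) * X t w + H F p (cw t) (cw t) * Y t w) * Real.cos t := by
    intro w
    rw [H_frame hF p w b1 t, hX1, hY1]; ring
  have e2 : ∀ w : E2, H F p w p =
      (H F p (cv t) (cv t) * X t w + H F p (cv t) (cw t) * Y t w) * ρ := by
    intro w
    rw [H_frame hF p w p t, hXp, hYp]; ring
  simp only [Matrix.cons_val_zero, Matrix.cons_val_one, Matrix.cons_val]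
  show H F p u b0 * H F p v b0 + H F p u b1 * H F p v b1 + H F p u p * H F p v p = _
  rw [e u, e v, e1 u, e1 v, e2 u, e2 v]
  generalize H F p (cv t) (cv t) * X t u + H F p (cv t) (cw t) * Y t u = a1
  generalize H F p (cv t) (cw t) * X t u + H F p (cw t) (cw t) * Y t u = a2
  generalize H F p (cv t) (cv t) * X t v + H F p (cv t) (cw t) * Y t v = a3
  generalize H F p (cv t) (cw t) * X t v + H F p (cw t) (cw t) * Y t v = a4
  linear_combination (a1 * a3 + a2 * a4) * h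

theorem H_pos (hF : ContDiff ℝ ∞ F) {p : E2} {t : ℝ} (hα : 0 < H F p (cv t) (cv t))
    (hΔ : H F p (cv t) (cw t) ^ 2 < H F p (cv t) (cv t) * H F p (cw t) (cw t)) {u : E2}
    (hu : u ≠ 0) : 0 < H F p u u := by
  rw [H_frame hF p u u t]
  have h := posdef hα hΔ (x := X t u) (y := Y t u) (by
    by_contra hc
    push Not at hc
    apply hu
    rw [frame t u, hc.1, hc.2]
    simp)
  linarith

theorem immersion (hF : ContDiff ℝ ∞ F) (hpos : ∀ p u : E2, u ≠ 0 → 0 < H F p u u) :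
    IsImmersion (surf F) := by
  refine ⟨contDiff_surf hF, fun p => ?_⟩
  rw [injective_iff_map_eq_zero]
  intro u hu
  by_contra hne
  have h1 := hpos p u hne
  rw [fderiv_surf hF] at hu
  have h2 := congrArg (fun x : E3 => x 0) hu
  have h3 := congrArg (fun x : E3 => x 1) hu
  simp at h2 h3
  rw [H_decomp, h2, h3] at h1
  simp at h1

theorem unit_normal (hF : ContDiff ℝ ∞ F) (p : E2) : ∃ ν, IsUnitNormal (surf F) p ν := by
  have hn : ‖nor p‖ ^ 2 = 1 + ‖p‖ ^ 2 := by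
    rw [norm3, norm2]
    simp [nor]
    ring
  have hpos : 0 < ‖nor p‖ := by
    by_contra hc
    have : ‖nor p‖ = 0 := le_antisymm (not_lt.1 hc) (norm_nonneg _)
    rw [this] at hn
    nlinarith [sq_nonneg ‖p‖]
  refine ⟨(‖nor p‖)⁻¹ • nor p, ?_, ?_⟩
  · rw [norm_smul, norm_inv, norm_norm, inv_mul_cancel₀ hpos.ne']
  · intro u
    rw [real_inner_smul_left, real_inner_comm, inner_nor hF, mul_zero]

theorem normal_eq (hF : ContDiff ℝ ∞ F) (hpos : ∀ p u : E2, u ≠ 0 → 0 < H F p u u) {p : E2}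
    {ν : E3} (hν : IsUnitNormal (surf F) p ν) :
    ∃ n : ℝ, ν = n • nor p ∧ n ^ 2 * (1 + ‖p‖ ^ 2) = 1 := by
  obtain ⟨h1, h2⟩ := hν
  set w : E2 := ν 0 • b0 + ν 1 • b1 + ν 2 • p with hw
  have hw0 : w = 0 := by
    by_contra hne
    have h3 := hpos p w hne
    have h4 := h2 w
    rw [fderiv_surf hF, inner3] at h4
    have h5 : H F p w w = ν 0 * H F p w b0 + ν 1 * H F p w b1 + ν 2 * H F p w p := by
      conv_lhs =>
        arg 4
        rw [hw]
      rw [H_add_right, H_add_right, H_smul_right, H_smul_right, H_smul_right]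
    simp at h4
    rw [h5] at h3
    linarith
  have e0 : ν 0 = -(ν 2 * p 0) := by
    have := congrArg (fun x : E2 => x 0) hw0
    simp [hw, b0, b1] at this
    linarith
  have e1 : ν 1 = -(ν 2 * p 1) := by
    have := congrArg (fun x : E2 => x 1) hw0
    simp [hw, b0, b1] at this
    linarith
  refine ⟨ν 2, ?_, ?_⟩
  · ext i; fin_cases i
    · simp [nor, e0]
    · simp [nor, e1]
    · simp [nor]
  · have h3 := norm3 ν
    rw [h1, e0, e1] at h3
    rw [norm2]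
    linarith

theorem surf_injective (hF : ContDiff ℝ ∞ F) (hpos : ∀ p u : E2, u ≠ 0 → 0 < H F p u u) :
    Function.Injective (surf F) := by
  intro p q hpq
  by_contra hne
  set u := q - p with hu
  have hu0 : u ≠ 0 := sub_ne_zero.2 (Ne.symm hne)
  have h0 : fderiv ℝ F p b0 = fderiv ℝ F q b0 := congrArg (fun x : E3 => x 0) hpq
  have h1 : fderiv ℝ F p b1 = fderiv ℝ F q b1 := congrArg (fun x : E3 => x 1) hpq
  have h2 : fderiv ℝ F p u = fderiv ℝ F q u := by
    rw [decomp u]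
    simp only [map_add, map_smul, h0, h1]
  have hder : ∀ t : ℝ, HasDerivAt (fun t : ℝ => fderiv ℝ F (p + t • u) u)
      (H F (p + t • u) u u) t := by
    intro t
    have g1 : HasDerivAt (fun t : ℝ => p + t • u) u t := by
      have := ((hasDerivAt_id t).smul_const u).const_add p
      simpa using this
    have g2 := (hasFDeriv_dF hF (p + t • u)).comp_hasDerivAt t g1
    have g3 := g2.clm_apply (hasDerivAt_const t u)
    simpa [H] using g3
  have hmono : StrictMono (fun t : ℝ => fderiv ℝ F (p + t • u) u) := by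
    apply strictMono_of_deriv_pos
    intro t
    rw [(hder t).deriv]
    exact hpos _ _ hu0
  have h3 := hmono (show (0 : ℝ) < 1 by norm_num)
  simp only [zero_smul, add_zero, one_smul] at h3
  rw [hu] at h3
  simp only [add_sub_cancel] at h3
  rw [← hu, h2] at h3
  exact lt_irrefl _ h3

end

/-! ### completeness -/

section

variable {f : E2 → E3}

theorem line_c1 (x y : E2) : ContDiff ℝ 1 (fun t : ℝ => x + t • (y - x)) := by
  fun_prop

theorem curveLength_ge (hf : ContDiff ℝ ∞ f) {c : ℝ → E2} (hc : ContDiff ℝ 1 c) :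
    ‖f (c 1) - f (c 0)‖ ≤ curveLength f c := by
  have h1 : ContDiff ℝ 1 (fun s => f (c s)) := (hf.of_le (by exact ENat.LEInfty.out)).comp hc
  have h2 : ∫ t in (0 : ℝ)..1, deriv (fun s => f (c s)) t = f (c 1) - f (c 0) := by
    apply intervalIntegral.integral_deriv_eq_sub
    · intro t _
      exact h1.differentiable (by norm_num) t
    · exact (h1.continuous_deriv (by norm_num)).intervalIntegrable _ _
  rw [← h2]
  exact intervalIntegral.norm_integral_le_integral_norm (by norm_num)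

theorem bddBelow_len (hf : ContDiff ℝ ∞ f) (x y : E2) : BddBelow {L : ℝ | ∃ c : ℝ → E2,
    ContDiff ℝ 1 c ∧ c 0 = x ∧ c 1 = y ∧ L = curveLength f c} := by
  refine ⟨0, ?_⟩
  rintro L ⟨c, hc, _, _, rfl⟩
  exact (norm_nonneg _).trans (curveLength_ge hf hc)

theorem dist_ge (hf : ContDiff ℝ ∞ f) (x y : E2) : ‖f x - f y‖ ≤ inducedDist f x y := by
  apply le_csInf
  · exact ⟨_, _, line_c1 x y, by simp, by simp, rfl⟩
  · rintro L ⟨c, hc, h0, h1, rfl⟩
    have := curveLength_ge hf hc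
    rw [h0, h1] at this
    rwa [norm_sub_rev]

theorem dist_le_line (hf : ContDiff ℝ ∞ f) {S : Set E2} (hS : Convex ℝ S) {C : ℝ}
    (hC : ∀ z ∈ S, ‖fderiv ℝ f z‖ ≤ C) {x y : E2} (hx : x ∈ S) (hy : y ∈ S) :
    inducedDist f x y ≤ C * ‖y - x‖ := by
  have h1 : inducedDist f x y ≤ curveLength f (fun t : ℝ => x + t • (y - x)) :=
    csInf_le (bddBelow_len hf x y) ⟨_, line_c1 x y, by simp, by simp, rfl⟩
  refine h1.trans ?_
  unfold curveLength
  have h2 : ∀ t ∈ Set.uIoc (0 : ℝ) 1,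
      ‖‖deriv (fun s : ℝ => f (x + s • (y - x))) t‖‖ ≤ C * ‖y - x‖ := by
    intro t ht
    rw [Set.uIoc_of_le (by norm_num)] at ht
    have hz : x + t • (y - x) ∈ S := hS.add_smul_sub_mem hx hy ⟨ht.1.le, ht.2⟩
    have g1 : HasDerivAt (fun t : ℝ => x + t • (y - x)) (y - x) t := by
      have := ((hasDerivAt_id t).smul_const (y - x)).const_add x
      simpa using this
    have g2 := ((hf.differentiable (by norm_num) (x + t • (y - x))).hasFDerivAt).comp_hasDerivAt t g1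
    have g3 : deriv (fun s : ℝ => f (x + s • (y - x))) t = fderiv ℝ f (x + t • (y - x)) (y - x) :=
      g2.deriv
    rw [norm_norm, g3]
    refine (ContinuousLinearMap.le_opNorm _ _).trans ?_
    exact mul_le_mul_of_nonneg_right (hC _ hz) (norm_nonneg _)
  have h3 := intervalIntegral.norm_integral_le_of_norm_le_const h2
  rw [sub_zero, abs_one, mul_one] at h3
  exact (Real.le_norm_self _).trans h3

theorem complete (hf : ContDiff ℝ ∞ f) (hinj : Function.Injective f)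
    (hprop : ∀ M : ℝ, ∃ R : ℝ, ∀ p : E2, R ≤ ‖p‖ → M ≤ f p 2) : IsCompleteSurface f := by
  intro x hx
  have hcont : Continuous f := hf.continuous
  have hcau : CauchySeq (fun n => f (x n)) := by
    rw [Metric.cauchySeq_iff]
    intro ε hε
    obtain ⟨N, hN⟩ := hx ε hε
    refine ⟨N, fun m hm n hn => ?_⟩
    rw [dist_eq_norm]
    exact (dist_ge hf _ _).trans_lt (hN m n hm hn)
  obtain ⟨y, hy⟩ := cauchySeq_tendsto_of_complete hcau
  have hy2 : Tendsto (fun n => f (x n) 2) atTop (𝓝 (y 2)) :=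
    ((EuclideanSpace.proj (2 : Fin 3) : E3 →L[ℝ] ℝ).continuous.tendsto y).comp hy
  have hM : ∀ᶠ n in atTop, f (x n) 2 < y 2 + 1 := hy2.eventually_lt_const (by linarith)
  obtain ⟨R, hR⟩ := hprop (y 2 + 1)
  have hball : ∀ᶠ n in atTop, x n ∈ Metric.closedBall (0 : E2) R := by
    filter_upwards [hM] with n hn
    rw [mem_closedBall_zero_iff]
    by_contra hc
    push Not at hc
    have := hR (x n) hc.le
    linarith
  have hcpt : IsCompact (Metric.closedBall (0 : E2) R) := isCompact_closedBall _ _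
  have hsub : ∀ ns : ℕ → ℕ, Tendsto ns atTop atTop → ∃ a ∈ Metric.closedBall (0 : E2) R,
      f a = y ∧ ∃ ms : ℕ → ℕ, Tendsto (fun n => x (ns (ms n))) atTop (𝓝 a) := by
    intro ns hns
    have h1 : ∀ᶠ n in atTop, x (ns n) ∈ Metric.closedBall (0 : E2) R := hns.eventually hball
    obtain ⟨a, ha, φ, hφ, hlim⟩ := hcpt.tendsto_subseq' h1.frequently
    refine ⟨a, ha, ?_, φ, hlim⟩
    have h2 : Tendsto (fun n => f (x (ns (φ n)))) atTop (𝓝 (f a)) :=
      (hcont.tendsto a).comp hlim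
    have h3 : Tendsto (fun n => f (x (ns (φ n)))) atTop (𝓝 y) :=
      hy.comp (hns.comp hφ.tendsto_atTop)
    exact tendsto_nhds_unique h2 h3
  obtain ⟨a, ha, hay, _⟩ := hsub id tendsto_id
  have hxa : Tendsto x atTop (𝓝 a) := by
    apply Filter.tendsto_of_subseq_tendsto
    intro ns hns
    obtain ⟨a', _, ha', ms, hms⟩ := hsub ns hns
    have : a' = a := hinj (ha'.trans hay.symm)
    rw [this] at hms
    exact ⟨ms, hms⟩
  refine ⟨a, hxa, ?_⟩
  have hdc : Continuous (fderiv ℝ f) := hf.continuous_fderiv (by norm_num)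
  obtain ⟨C, hC⟩ := hcpt.exists_bound_of_continuousOn hdc.continuousOn
  have hlim : Tendsto (fun n => C * ‖a - x n‖) atTop (𝓝 0) := by
    have h1 : Tendsto (fun n => a - x n) atTop (𝓝 (a - a)) := tendsto_const_nhds.sub hxa
    rw [sub_self] at h1
    have h2 := h1.norm.const_mul C
    simpa using h2
  refine squeeze_zero' (Filter.Eventually.of_forall fun n =>
    (norm_nonneg _).trans (dist_ge hf (x n) a)) ?_ hlim
  filter_upwards [hball] with n hn
  exact dist_le_line hf (convex_closedBall _ _) hC hn ha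

end

end Geo

open Geo in
/-- MU-1 -/
theorem geo (F : E2 → ℝ) (hF : ContDiff ℝ ∞ F)
    (hconv : ∀ p : E2, ∃ θ ρ : ℝ, 0 ≤ ρ ∧ p = ρ • cv θ ∧ 0 < H F p (cv θ) (cv θ) ∧
      H F p (cv θ) (cw θ) ^ 2 < H F p (cv θ) (cv θ) * H F p (cw θ) (cw θ) ∧
      √(1 + ρ ^ 2) * H F p (cw θ) (cw θ) ≤ 2 ∧
      (H F p (cw θ) (cw θ) ≠ (1 + ρ ^ 2) * H F p (cv θ) (cv θ) ∨ H F p (cv θ) (cw θ) ≠ 0))
    (hprop : ∀ M : ℝ, ∃ R : ℝ, ∀ p : E2, R ≤ ‖p‖ → M ≤ fderiv ℝ F p p - F p) :
    ∃ f : E2 → E3, IsImmersion f ∧ IsCompleteSurface f ∧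
      (∀ p, ∃ ν, IsUnitNormal f p ν) ∧
      (∀ p ν, IsUnitNormal f p ν → ∃ k₁ k₂, ArePrincipal f p ν k₁ k₂) ∧
      ∀ p ν k₁ k₂, IsUnitNormal f p ν → ArePrincipal f p ν k₁ k₂ →
        k₁ ≠ k₂ ∧ 1 / 4 ≤ k₁ ^ 2 + k₂ ^ 2 ∧ 0 < k₁ * k₂ := by
  have hpos : ∀ p u : E2, u ≠ 0 → 0 < H F p u u := by
    intro p u hu
    obtain ⟨θ, ρ, _, _, h1, h2, _⟩ := hconv p
    exact H_pos hF h1 h2 hu
  have hnorm : ∀ (θ ρ : ℝ), ‖ρ • cv θ‖ ^ 2 = ρ ^ 2 := by
    intro θ ρ
    rw [norm2]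
    simp [cv]
    have := Real.sin_sq_add_cos_sq θ
    linear_combination ρ ^ 2 * this
  have hW : ∀ ρ : ℝ, (√(1 + ρ ^ 2)) ^ 2 = 1 + ρ ^ 2 := fun ρ => Real.sq_sqrt (by positivity)
  refine ⟨surf F, immersion hF hpos, complete (contDiff_surf hF) (surf_injective hF hpos) hprop,
    unit_normal hF, ?_, ?_⟩
  · intro p ν hν
    obtain ⟨θ, ρ, _, hp, h1, h2, _⟩ := hconv p
    obtain ⟨n, rfl, hn⟩ := normal_eq hF hpos hν
    obtain ⟨x1, y1, x2, y2, g1, g2, g3, g4⟩ := exists_principal (n := n) h2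
      (Real.sqrt_pos.2 (show 0 < 1 + ρ ^ 2 by positivity))
    rw [hW] at g1 g2 g3
    refine ⟨_, _, x1 • cv θ + y1 • cw θ, x2 • cv θ + y2 • cw θ, ?_, ?_, ?_, rfl, rfl, ?_⟩
    · rw [first_frame hF hp]
      simp only [X_frame, Y_frame]
      linarith
    · rw [first_frame hF hp]
      simp only [X_frame, Y_frame]
      linarith
    · rw [first_frame hF hp]
      simp only [X_frame, Y_frame]
      linarith
    · rw [second hF, H_frame hF p _ _ θ]
      simp only [X_frame, Y_frame]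
      linarith
  · intro p ν k₁ k₂ hν hk
    obtain ⟨θ, ρ, _, hp, h1, h2, h3, h4⟩ := hconv p
    obtain ⟨n, rfl, hn⟩ := normal_eq hF hpos hν
    obtain ⟨e₁, e₂, i1, i2, i3, j1, j2, j3⟩ := hk
    rw [first_frame hF hp] at i1 i2 i3
    rw [second hF, H_frame hF p _ _ θ] at j1 j2 j3
    rw [hp, hnorm θ ρ] at hn
    refine principal (W := √(1 + ρ ^ 2)) (n := n) h1 h2
      (Real.sqrt_pos.2 (show 0 < 1 + ρ ^ 2 by positivity)) (by rw [hW]; exact hn)
      (x1 := X θ e₁) (y1 := Y θ e₁) (x2 := X θ e₂) (y2 := Y θ e₂) ?_ ?_ ?_ ?_ ?_ ?_ h3 ?_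
    · rw [hW]; linarith
    · rw [hW]; linarith
    · rw [hW]; linarith
    · linear_combination j1
    · linear_combination j2
    · linear_combination j3
    · rw [hW]; exact h4

end Pool.Agent.Helper41.MU
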