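import Mathlib
import Pool.Agent.Helper41.MU.Defs

/-!
# Umbilic-free islands (MP_7d7bd6_gt): profiles, constants and the island function
-/

set_option autoImplicit false

open Set Filter Topology
open scoped ContDiff

namespace Pool.Agent.Helper41.MU

/-- a bound for a function and its first two derivatives at a point -/
def Bd (C : ℝ) (f : ℝ → ℝ) (x : ℝ) : Prop :=
  |f x| ≤ C ∧ |deriv f x| ≤ C ∧ |deriv (deriv f) x| ≤ C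

noncomputable def fS (χ : ℝ → ℝ) (φ : ℝ) : ℝ := χ (Real.sin (2 * φ))

noncomputable def fC (η : ℝ → ℝ) (φ : ℝ) : ℝ := η (Real.cos (2 * φ))

noncomputable def fCS (η χ : ℝ → ℝ) (φ : ℝ) : ℝ := η (Real.cos (2 * φ)) * χ (Real.sin (2 * φ))

noncomputable def fY (κ : ℝ → ℝ) (y : ℝ) : ℝ := κ y * y

noncomputable def fD (κ q1 : ℝ → ℝ) (y : ℝ) : ℝ := κ y * (q1 y - q1 0)

/-- the profile functions and the constants of the construction -/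
structure Data where
  b : ℝ → ℝ
  q : ℝ → ℝ
  q1 : ℝ → ℝ
  κ : ℝ → ℝ
  bT : ℝ → ℝ
  qT : ℝ → ℝ
  qT1 : ℝ → ℝ
  χ : ℝ → ℝ
  η : ℝ → ℝ
  ℓ : ℝ → ℝ
  K : ℝ
  M0 : ℝ
  N : ℝ
  ε : ℝ
  om : ℝ
  M : ℝ
  Δ : ℝ
  t0 : ℝ
  sb : ContDiff ℝ ∞ b
  sq : ContDiff ℝ ∞ q
  sq1 : ContDiff ℝ ∞ q1
  sκ : ContDiff ℝ ∞ κ
  sbT : ContDiff ℝ ∞ bT
  sqT : ContDiff ℝ ∞ qT
  sqT1 : ContDiff ℝ ∞ qT1
  sχ : ContDiff ℝ ∞ χ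
  sη : ContDiff ℝ ∞ η
  sℓ : ContDiff ℝ ∞ ℓ
  b_nonneg : ∀ y, 0 ≤ b y
  b_le : ∀ y, b y ≤ 1
  b_one : ∀ y, |y| ≤ 1 / 8 → b y = 1
  b_zero : ∀ y, 1 / 4 ≤ |y| → b y = 0
  dq : ∀ y, HasDerivAt q (q1 y) y
  dq1 : ∀ y, HasDerivAt q1 (b y) y
  q_zero : ∀ y, 1 / 4 ≤ y → q y = 0
  q1_zero : ∀ y, 1 / 4 ≤ y → q1 y = 0
  κ_one : ∀ y, |y| ≤ 1 / 4 → κ y = 1
  κ_zero : ∀ y, 1 / 2 ≤ |y| → κ y = 0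
  bT_nonneg : ∀ y, 0 ≤ bT y
  bT_zero : ∀ y, 1 / 8 ≤ |y| → bT y = 0
  dqT : ∀ y, HasDerivAt qT (qT1 y) y
  dqT1 : ∀ y, HasDerivAt qT1 (bT y) y
  qT_zero : ∀ y, 1 / 8 ≤ y → qT y = 0
  qT1_zero : ∀ y, 1 / 8 ≤ y → qT1 y = 0
  qT1_neg : ∀ y, y ≤ -(1 / 8) → qT1 y = -1
  qT1_mem : ∀ y, -1 ≤ qT1 y ∧ qT1 y ≤ 0
  χ_nonneg : ∀ m, 0 ≤ χ m
  χ_le : ∀ m, χ m ≤ 1
  χ_zero : ∀ m, m ≤ -(3 * om) → χ m = 0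
  χ_one : ∀ m, -(2 * om) ≤ m → χ m = 1
  η_nonneg : ∀ n, 0 ≤ η n
  η_le : ∀ n, η n ≤ 1
  η_zero : ∀ n, -(4 / 5) ≤ n → η n = 0
  η_one : ∀ n, n ≤ -(19 / 20) → η n = 1
  ℓ_nonneg : ∀ m, 0 ≤ ℓ m
  ℓ_zero : ∀ m, m ≤ -om → ℓ m = 0
  ℓ_symm : ∀ m, ℓ m + ℓ (-m) = 1
  K_nonneg : 0 ≤ K
  hK : ∀ y, |deriv b y| ≤ K
  hN : N = 4 + 3 * K
  hM0 : 1 ≤ M0
  ε_pos : 0 < ε
  ε_le : ε ≤ 1 / 100
  hom : om = ε ^ 2 * N / 10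
  om_le : om ≤ 1 / 100
  bd0 : ∀ y, |y| ≤ 1 → Bd M0 κ y ∧ Bd M0 (fY κ) y ∧ Bd M0 (fD κ q1) y
  small0 : ε * (M0 * (22 * N + 20)) ≤ 1 / 20
  hM : 1 + 4 * N ≤ M
  bdA : ∀ φ, Bd M (fS χ) φ ∧ Bd M (fC η) φ ∧ Bd M (fCS η χ) φ ∧ Bd M (fS ℓ) φ
  bdB : ∀ y, |y| ≤ 1 → Bd M q y ∧ Bd M κ y ∧ Bd M (fY κ) y ∧ Bd M (fD κ q1) y ∧ |qT y| ≤ M
  Δ_pos : 0 < Δ
  Δ_le : Δ ≤ 1
  t0_pos : 0 < t0
  t0_le : t0 ≤ 1 / 100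
  small : 200 * M ^ 3 * t0 + 2 * M ^ 2 * Δ ≤ ε ^ 2 * N / 20

/-- second order data of a function `g θ t`: `a = g_tt`, `b = g_θt`, `c = g + g_θθ - t g_t`,
`d = g_t` -/
def HasJ (g a b c d : ℝ → ℝ → ℝ) : Prop :=
  ∃ g1 g2 g11 g12 g22 : ℝ → ℝ → ℝ, IsJet g g1 g2 g11 g12 g22 ∧
    ∀ θ t, a θ t = g22 θ t ∧ b θ t = g12 θ t ∧ c θ t = g θ t + g11 θ t - t * g2 θ t ∧
      d θ t = g2 θ t

namespace Data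

variable (D : Data)

/-- the island of scale `τ`, in polar form -/
noncomputable def isl (τ φ t : ℝ) : ℝ :=
  3 * (τ ^ 2 * (fS D.χ φ * D.q (t / τ - 1) * 1)) +
  D.ε * (τ ^ 2 * (fC D.η φ * D.κ (t / τ - 1) * -(D.N * Real.cos (Real.sin (2 * φ) / τ)))) +
  D.ε * (τ ^ 2 * (fC D.η φ * fY D.κ (t / τ - 1) *
    (Real.sin (Real.sin (2 * φ) / τ) + D.ε * D.N * Real.sin (2 * (Real.sin (2 * φ) / τ))))) +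
  -(3 * D.ε) * (τ ^ 2 * (fCS D.η D.χ φ * fD D.κ D.q1 (t / τ - 1) *
    Real.sin (Real.sin (2 * φ) / τ))) +
  D.Δ / τ * (τ ^ 2 * (fS D.ℓ φ * D.qT (t / τ - 1) * 1))

/-- the scales -/
noncomputable def tk (k : ℕ) : ℝ := D.t0 / 4 ^ k

end Data

/-- the sign of the island with index `k` -/
noncomputable def sg (k : ℕ) : ℝ := (-1) ^ k

end Pool.Agent.Helper41.MU
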