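import Mathlib

/-!
# The algebraic inequality behind the umbilic-free islands (MP_7d7bd6_gt)
-/

set_option autoImplicit false

namespace Pool.Agent.Helper41.MU

namespace Ineq

theorem aux_n {m n : ℝ} (hmn : m ^ 2 + n ^ 2 = 1) (hm : m ^ 2 ≤ 1 / 25) (hn : n < 0) :
    n ≤ -(97 / 100) := by
  by_contra h
  nlinarith

theorem aux_p {m n : ℝ} (hmn : m ^ 2 + n ^ 2 = 1) (hm : m ^ 2 ≤ 1 / 100) (hn : -(4 / 5) ≤ n) :
    19 / 20 ≤ n := by
  by_contra h
  rcases le_or_gt 0 n with h1 | h1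
  · nlinarith
  · nlinarith

theorem aux_ge {m n : ℝ} (hmn : m ^ 2 + n ^ 2 = 1) : -1 ≤ n := by
  by_contra h
  nlinarith [sq_nonneg m]

theorem aux_le_sq {x a : ℝ} (h1 : -a ≤ x) (h2 : x ≤ a) : x ^ 2 ≤ a ^ 2 := by
  nlinarith

theorem aux_m {m om : ℝ} (h1 : -(3 * om) < m) (h2 : m < 0) (h3 : 3 * om ≤ 1 / 5) :
    m ^ 2 ≤ 3 * om * (1 / 5) := by
  nlinarith

/-- The main computation: at a zero of the first equation the second quantity is positive. -/
theorem cell {m n y w F F2 K N ε om cX sX e1 e2 : ℝ}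
    (hK : 0 ≤ K) (hN : N = 4 + 3 * K) (hε : 0 < ε) (hε1 : ε ≤ 1 / 100)
    (hom : om = ε ^ 2 * N / 10) (hom1 : om ≤ 1 / 100)
    (hmn : m ^ 2 + n ^ 2 = 1) (hn : n < 0) (hm1 : -(3 * om) < m) (hm2 : m < 1 / 5)
    (hy : |y| ≤ 1 / 4) (hF : |F| ≤ 1) (hF2 : |F2| ≤ 3 * K) (hX : cX ^ 2 + sX ^ 2 = 1)
    (he1 : |e1| ≤ ε ^ 2 * N / 20) (he2 : |e2| ≤ ε ^ 2 * N / 20)
    (h0 : -n - 3 * w + ε * (4 * n ^ 2 * N * cX - sX * (4 * n ^ 2 * F + F2) -
      16 * n ^ 2 * ε * N * y * (2 * sX * cX)) + e1 = 0) :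
    0 < m / 2 + ε * (2 * n * ((1 - 3 * w) * cX + 2 * ε * N * (2 * cX ^ 2 - 1))) + e2 := by
  have hNpos : 4 ≤ N := by linarith
  have hE : 0 < ε ^ 2 * N := by positivity
  have hompos : 0 < om := by rw [hom]; positivity
  have hm2' : m ^ 2 ≤ 1 / 25 := by
    have := aux_le_sq (x := m) (a := 1 / 5) (by linarith) (by linarith)
    linarith
  have hn1 : n ≤ -(97 / 100) := aux_n hmn hm2' hn
  have hn0 : -1 ≤ n := aux_ge hmn
  have hc : |cX| ≤ 1 := by
    rw [← sq_le_one_iff_abs_le_one]; linarith [sq_nonneg sX]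
  have hs : |sX| ≤ 1 := by
    rw [← sq_le_one_iff_abs_le_one]; linarith [sq_nonneg cX]
  have hsc : |sX * cX| ≤ 1 / 2 := by
    have h1 := sq_nonneg (sX + cX)
    have h2 := sq_nonneg (sX - cX)
    rw [add_sq] at h1
    rw [sub_sq] at h2
    rw [abs_le]; constructor <;> linarith
  have hna : |n| ≤ 1 := abs_le.2 ⟨hn0, by linarith⟩
  have hid : m / 2 + ε * (2 * n * ((1 - 3 * w) * cX + 2 * ε * N * (2 * cX ^ 2 - 1))) + e2 =
      (m / 2 - 2 * ε * m ^ 2) + (2 * ε * m ^ 2 + 2 * n * ε * (1 + n) * cX)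
      + 8 * n * (ε ^ 2 * N) * cX ^ 2 * m ^ 2
      + 2 * n * ε ^ 2 * ((sX * cX) * (4 * n ^ 2 * F + F2))
      + 64 * n ^ 3 * ε * (ε ^ 2 * N) * y * (sX * cX) * cX - 2 * n * ε * cX * e1
      - 4 * n * (ε ^ 2 * N) + e2 := by
    have hw : 1 - 3 * w = 1 + n - ε * (4 * n ^ 2 * N * cX - sX * (4 * n ^ 2 * F + F2) -
      16 * n ^ 2 * ε * N * y * (2 * sX * cX)) - e1 := by linarith
    rw [hw]
    have hmm : m ^ 2 = 1 - n ^ 2 := by linarith
    have h8 : 8 * n * (ε ^ 2 * N) * cX ^ 2 * m ^ 2 =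
        8 * n * (ε ^ 2 * N) * cX ^ 2 * (1 - n ^ 2) := by rw [hmm]
    rw [h8]
    ring
  rw [hid]
  -- term 1
  have t1 : -(2 * om) ≤ m / 2 - 2 * ε * m ^ 2 := by
    rcases le_or_gt 0 m with h | h
    · have h1 : m ^ 2 ≤ m * (1 / 5) := by
        rw [sq]; exact mul_le_mul_of_nonneg_left hm2.le h
      have h2 : 2 * ε * m ^ 2 ≤ 2 * (1 / 100) * m ^ 2 :=
        mul_le_mul_of_nonneg_right (by linarith) (sq_nonneg m)
      linarith
    · have h1 : m ^ 2 ≤ 3 * om * (1 / 5) := aux_m hm1 h (by linarith)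
      have h2 : 2 * ε * m ^ 2 ≤ 2 * (1 / 100) * m ^ 2 :=
        mul_le_mul_of_nonneg_right (by linarith) (sq_nonneg m)
      linarith
  have hcX0 := abs_le.1 hc
  have hn1' : 1 + n ≤ m ^ 2 := by
    have h1 : m ^ 2 - (1 + n) = (1 + n) * (-n) := by
      have : m ^ 2 = 1 - n ^ 2 := by linarith
      rw [this]; ring
    have h2 : 0 ≤ (1 + n) * (-n) := mul_nonneg (by linarith) (by linarith)
    linarith
  have t2 : 0 ≤ 2 * ε * m ^ 2 + 2 * n * ε * (1 + n) * cX := by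
    have h1 : |n * (1 + n) * cX| ≤ m ^ 2 := by
      rw [abs_mul, abs_mul, abs_of_nonneg (show 0 ≤ 1 + n by linarith)]
      have h2 : |n| * (1 + n) ≤ 1 * m ^ 2 :=
        mul_le_mul hna hn1' (by linarith) zero_le_one
      have h3 : |n| * (1 + n) * |cX| ≤ (1 * m ^ 2) * 1 :=
        mul_le_mul h2 hc (abs_nonneg _) (by positivity)
      linarith
    have h2 := (abs_le.1 h1).1
    have h3 : 2 * n * ε * (1 + n) * cX = 2 * ε * (n * (1 + n) * cX) := by ring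
    rw [h3]
    have h4 : 2 * ε * (n * (1 + n) * cX) ≥ 2 * ε * (-m ^ 2) :=
      mul_le_mul_of_nonneg_left (by linarith) (by linarith)
    linarith
  set E : ℝ := ε ^ 2 * N with hEdef
  have t3 : -(8 / 25 * E) ≤ 8 * n * E * cX ^ 2 * m ^ 2 := by
    have h1 : cX ^ 2 ≤ 1 := by linarith [sq_nonneg sX]
    have h2 : cX ^ 2 * m ^ 2 ≤ 1 * (1 / 25) := mul_le_mul h1 hm2' (sq_nonneg _) zero_le_one
    have h3 : 0 ≤ cX ^ 2 * m ^ 2 := by positivity
    have h4 : 8 * n * E * cX ^ 2 * m ^ 2 = (8 * E) * (n * (cX ^ 2 * m ^ 2)) := by ring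
    rw [h4]
    have h5 : -(1 / 25) ≤ n * (cX ^ 2 * m ^ 2) := by
      have h7 : (-1) * (cX ^ 2 * m ^ 2) ≤ n * (cX ^ 2 * m ^ 2) :=
        mul_le_mul_of_nonneg_right hn0 h3
      linarith
    have h6 : (8 * E) * (-(1 / 25)) ≤ (8 * E) * (n * (cX ^ 2 * m ^ 2)) :=
      mul_le_mul_of_nonneg_left h5 (by linarith)
    linarith
  have t4 : -E ≤ 2 * n * ε ^ 2 * ((sX * cX) * (4 * n ^ 2 * F + F2)) := by
    have h1 : |4 * n ^ 2 * F + F2| ≤ N := by
      have h2 : |4 * n ^ 2 * F| ≤ 4 := by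
        rw [abs_mul, abs_of_nonneg (by positivity : 0 ≤ 4 * n ^ 2)]
        have h3 : n ^ 2 ≤ 1 := by linarith [sq_nonneg m]
        have h4 : 4 * n ^ 2 * |F| ≤ 4 * 1 :=
          mul_le_mul (by linarith) hF (abs_nonneg _) (by norm_num)
        linarith
      calc |4 * n ^ 2 * F + F2| ≤ |4 * n ^ 2 * F| + |F2| := abs_add_le _ _
        _ ≤ N := by linarith
    have h2 : |n * ((sX * cX) * (4 * n ^ 2 * F + F2))| ≤ 1 * (1 / 2 * N) := by
      rw [abs_mul, abs_mul]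
      exact mul_le_mul hna (mul_le_mul hsc h1 (abs_nonneg _) (by norm_num))
        (by positivity) zero_le_one
    have h3 := (abs_le.1 h2).1
    have h4 : 2 * n * ε ^ 2 * ((sX * cX) * (4 * n ^ 2 * F + F2)) =
      (2 * ε ^ 2) * (n * ((sX * cX) * (4 * n ^ 2 * F + F2))) := by ring
    rw [h4]
    have h5 := mul_le_mul_of_nonneg_left h3 (by positivity : 0 ≤ 2 * ε ^ 2)
    have h6 : 2 * ε ^ 2 * -(1 * (1 / 2 * N)) = -E := by rw [hEdef]; ring
    linarith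
  have t5 : -(8 / 100 * E) ≤ 64 * n ^ 3 * ε * E * y * (sX * cX) * cX := by
    have h1 : |n ^ 3 * y * (sX * cX) * cX| ≤ 1 * (1 / 4) * (1 / 2) * 1 := by
      rw [abs_mul, abs_mul, abs_mul, abs_pow]
      have h2 : |n| ^ 3 ≤ 1 := pow_le_one₀ (abs_nonneg _) hna
      have h3 : |n| ^ 3 * |y| ≤ 1 * (1 / 4) := mul_le_mul h2 hy (abs_nonneg _) zero_le_one
      have h4 : |n| ^ 3 * |y| * |sX * cX| ≤ 1 * (1 / 4) * (1 / 2) :=
        mul_le_mul h3 hsc (abs_nonneg _) (by norm_num)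
      exact mul_le_mul h4 hc (abs_nonneg _) (by norm_num)
    have h3 := (abs_le.1 h1).1
    have h4 : 64 * n ^ 3 * ε * E * y * (sX * cX) * cX =
      (64 * ε * E) * (n ^ 3 * y * (sX * cX) * cX) := by ring
    rw [h4]
    have h5 := mul_le_mul_of_nonneg_left h3 (by positivity : 0 ≤ 64 * ε * E)
    have h6 : ε * E ≤ 1 / 100 * E := mul_le_mul_of_nonneg_right hε1 hE.le
    linarith
  have t6 : -(1 / 1000 * E) ≤ -(2 * n * ε * cX * e1) := by
    have h1 : |n * cX * e1| ≤ 1 * 1 * (E / 20) := by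
      rw [abs_mul, abs_mul]
      exact mul_le_mul (mul_le_mul hna hc (abs_nonneg _) zero_le_one) he1 (abs_nonneg _)
        (by norm_num)
    have h3 := (abs_le.1 h1).2
    have h4 : 2 * n * ε * cX * e1 = (2 * ε) * (n * cX * e1) := by ring
    rw [h4]
    have h5 := mul_le_mul_of_nonneg_left h3 (by positivity : 0 ≤ 2 * ε)
    have h6 : ε * E ≤ 1 / 100 * E := mul_le_mul_of_nonneg_right hε1 hE.le
    linarith
  have t7 : 97 / 25 * E ≤ -(4 * n * E) := by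
    have h1 : 97 / 25 * E ≤ (-(4 * n)) * E := mul_le_mul_of_nonneg_right (by linarith) hE.le
    linarith
  have t8 := (abs_le.1 he2).1
  have t9 : 2 * om = E / 5 := by rw [hom]; ring
  linarith

/-- The case analysis in an active island. -/
theorem island {m n y χ b T Z1 Z2 MZ F F2 K N ε om cX sX e1 e2 : ℝ}
    (hK : 0 ≤ K) (hN : N = 4 + 3 * K) (hε : 0 < ε) (hε1 : ε ≤ 1 / 100)
    (hom : om = ε ^ 2 * N / 10) (hom1 : om ≤ 1 / 100) (hMZ : ε * MZ ≤ 1 / 20)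
    (hmn : m ^ 2 + n ^ 2 = 1)
    (hχ : 0 ≤ χ) (hχ0 : m ≤ -(3 * om) → χ = 0) (hχ1 : -(2 * om) ≤ m → χ = 1)
    (hb : 0 ≤ b) (hb1 : |y| ≤ 1 / 8 → b = 1) (hb0 : 1 / 4 ≤ |y| → b = 0)
    (hT : 0 ≤ T) (hT0 : T ≠ 0 → |y| < 1 / 8 ∧ -om < m)
    (hZ1 : |Z1| ≤ MZ) (hZ2 : |Z2| ≤ MZ) (hZ0 : -(4 / 5) ≤ n → Z1 = 0 ∧ Z2 = 0)
    (hZ : n ≤ -(19 / 20) → |y| < 1 / 4 →
      Z1 = 4 * n ^ 2 * N * cX - sX * (4 * n ^ 2 * F + F2) -
        16 * n ^ 2 * ε * N * y * (2 * sX * cX) ∧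
      Z2 = 2 * n * ((1 - 3 * (χ * b)) * cX + 2 * ε * N * (2 * cX ^ 2 - 1)))
    (hF : |y| < 1 / 4 → |F| ≤ 1) (hF2 : |F2| ≤ 3 * K) (hX : cX ^ 2 + sX ^ 2 = 1)
    (he1 : |e1| ≤ ε ^ 2 * N / 20) (he2 : |e2| ≤ ε ^ 2 * N / 20)
    (h1 : -n - 3 * (χ * b) - T + ε * Z1 + e1 = 0) (h2 : m / 2 + ε * Z2 + e2 = 0) : False := by
  have hNpos : 4 ≤ N := by linarith
  have hE : 0 < ε ^ 2 * N := by positivity
  have hompos : 0 < om := by rw [hom]; positivity
  have hee : ε ^ 2 * N / 20 ≤ 1 / 200 := by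
    have : ε ^ 2 * N / 20 = om / 2 := by rw [hom]; ring
    linarith
  have e1' := abs_le.1 he1
  have e2' := abs_le.1 he2
  have z1 : |ε * Z1| ≤ 1 / 20 := by
    rw [abs_mul, abs_of_pos hε]
    exact (mul_le_mul_of_nonneg_left hZ1 hε.le).trans hMZ
  have z2 : |ε * Z2| ≤ 1 / 20 := by
    rw [abs_mul, abs_of_pos hε]
    exact (mul_le_mul_of_nonneg_left hZ2 hε.le).trans hMZ
  have z1' := abs_le.1 z1
  have z2' := abs_le.1 z2
  have hχb : 0 ≤ χ * b := mul_nonneg hχ hb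
  rcases le_or_gt (-(4 / 5)) n with hn | hn
  · obtain ⟨hZ10, hZ20⟩ := hZ0 hn
    rw [hZ10] at h1
    rw [hZ20] at h2
    have hm : m ^ 2 ≤ 1 / 100 := by
      have := aux_le_sq (x := m) (a := 1 / 10) (by linarith) (by linarith)
      linarith
    have hn95 : 19 / 20 ≤ n := aux_p hmn hm hn
    linarith
  · rcases le_or_gt (1 / 4) |y| with hy | hy
    · have hb00 := hb0 hy
      have hT00 : T = 0 := by
        by_contra h
        have := (hT0 h).1
        linarith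
      rw [hb00, hT00] at h1
      linarith
    · rcases le_or_gt (1 / 5) m with hm | hm
      · linarith
      · rcases le_or_gt m (-(3 * om)) with hm3 | hm3
        · have hχ00 := hχ0 hm3
          have hT00 : T = 0 := by
            by_contra h
            have := (hT0 h).2
            linarith
          rw [hχ00, hT00] at h1
          linarith
        · have hm2' : m ^ 2 ≤ 1 / 25 := by
            have := aux_le_sq (x := m) (a := 1 / 5) (by linarith) (by linarith)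
            linarith
          have hn97 : n ≤ -(97 / 100) := aux_n hmn hm2' (by linarith)
          by_cases hT00 : T = 0
          · obtain ⟨hZ1e, hZ2e⟩ := hZ (by linarith) hy
            rw [hZ1e, hT00] at h1
            rw [hZ2e] at h2
            have := cell (w := χ * b) hK hN hε hε1 hom hom1 hmn (by linarith) hm3 hm hy.le (hF hy)
              hF2 hX he1 he2 (by linarith)
            linarith
          · obtain ⟨hy8, hmom⟩ := hT0 hT00
            have hb11 := hb1 hy8.le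
            have hχ11 := hχ1 (by linarith)
            rw [hb11, hχ11] at h1
            have : -1 ≤ n := aux_ge hmn
            linarith

end Ineq

end Pool.Agent.Helper41.MU
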