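import Mathlib
import Pool.Agent.Helper41.MU.Defs

/-!
# Polar second derivatives
-/

set_option autoImplicit false

open Set Filter Topology
open scoped ContDiff

namespace Pool.Agent.Helper41.MU

namespace Jet

theorem cv_eq (θ : ℝ) : cv θ = Real.cos θ • (!₂[1, 0] : E2) + Real.sin θ • (!₂[0, 1] : E2) := by
  ext i
  fin_cases i <;> simp [cv]

theorem cw_eq (θ : ℝ) : cw θ = (-Real.sin θ) • (!₂[1, 0] : E2) + Real.cos θ • (!₂[0, 1] : E2) := by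
  ext i
  fin_cases i <;> simp [cw]

theorem hasDerivAt_cv (θ : ℝ) : HasDerivAt cv (cw θ) θ := by
  have h : HasDerivAt (fun θ => Real.cos θ • (!₂[1, 0] : E2) + Real.sin θ • (!₂[0, 1] : E2))
      ((-Real.sin θ) • (!₂[1, 0] : E2) + Real.cos θ • (!₂[0, 1] : E2)) θ :=
    ((Real.hasDerivAt_cos θ).smul_const _).add ((Real.hasDerivAt_sin θ).smul_const _)
  rw [cw_eq]
  have : cv = fun θ => Real.cos θ • (!₂[1, 0] : E2) + Real.sin θ • (!₂[0, 1] : E2) := by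
    funext x; exact cv_eq x
  rw [this]
  exact h

theorem hasDerivAt_cw (θ : ℝ) : HasDerivAt cw (-cv θ) θ := by
  have h : HasDerivAt (fun θ => (-Real.sin θ) • (!₂[1, 0] : E2) + Real.cos θ • (!₂[0, 1] : E2))
      ((-Real.cos θ) • (!₂[1, 0] : E2) + (-Real.sin θ) • (!₂[0, 1] : E2)) θ :=
    ((Real.hasDerivAt_sin θ).neg.smul_const _).add ((Real.hasDerivAt_cos θ).smul_const _)
  have h2 : -cv θ = (-Real.cos θ) • (!₂[1, 0] : E2) + (-Real.sin θ) • (!₂[0, 1] : E2) := by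
    rw [cv_eq, neg_add, neg_smul, neg_smul]
  rw [h2]
  have : cw = fun θ => (-Real.sin θ) • (!₂[1, 0] : E2) + Real.cos θ • (!₂[0, 1] : E2) := by
    funext x; exact cw_eq x
  rw [this]
  exact h

theorem hasDerivAt_pt (θ t : ℝ) (ht : t ≠ 0) :
    HasDerivAt (fun s : ℝ => s⁻¹ • cv θ) ((-(t ^ 2)⁻¹) • cv θ) t :=
  (hasDerivAt_inv ht).smul_const _

theorem hasDerivAt_pθ (θ t : ℝ) :
    HasDerivAt (fun x : ℝ => t⁻¹ • cv x) (t⁻¹ • cw θ) θ :=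
  (hasDerivAt_cv θ).const_smul (t⁻¹)

section

variable {G : E2 → ℝ} (hG : ContDiff ℝ ∞ G)

include hG

theorem hD (p : E2) : HasFDerivAt G (fderiv ℝ G p) p :=
  (hG.differentiable (by simp) p).hasFDerivAt

theorem hD2 (p : E2) : HasFDerivAt (fderiv ℝ G) (fderiv ℝ (fderiv ℝ G) p) p := by
  have h : ContDiff ℝ ∞ (fderiv ℝ G) := hG.fderiv_right (by simp)
  exact (h.differentiable (by simp) p).hasFDerivAt

theorem symm (p u v : E2) : H G p u v = H G p v u := by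
  have h : ContDiffAt ℝ ∞ G p := hG.contDiffAt
  have := h.isSymmSndFDerivAt (by
    simp only [minSmoothness_of_isRCLikeNormedField]
    exact WithTop.coe_le_coe.mpr (le_top : (2 : ℕ∞) ≤ ⊤))
  exact this u v

variable {g g1 g2 g11 g12 g22 : ℝ → ℝ → ℝ}
    (hj : IsJet g g1 g2 g11 g12 g22) (hg : ∀ θ t : ℝ, 0 < t → g θ t = t * G (t⁻¹ • cv θ))

include hj hg

theorem g2_eq (θ t : ℝ) (ht : 0 < t) :
    g2 θ t = G (t⁻¹ • cv θ) - t⁻¹ * fderiv ℝ G (t⁻¹ • cv θ) (cv θ) := by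
  have h1 : HasDerivAt (fun s : ℝ => s * G (s⁻¹ • cv θ))
      (1 * G (t⁻¹ • cv θ) + t * (fderiv ℝ G (t⁻¹ • cv θ) ((-(t ^ 2)⁻¹) • cv θ))) t :=
    (hasDerivAt_id t).mul ((hD hG _).comp_hasDerivAt t (hasDerivAt_pt θ t ht.ne'))
  have h2 : HasDerivAt (fun s : ℝ => s * G (s⁻¹ • cv θ)) (g2 θ t) t := by
    refine (hj.d2 θ t).congr_of_eventuallyEq ?_
    filter_upwards [lt_mem_nhds ht] with s hs
    exact (hg θ s hs).symm
  rw [h2.unique h1, map_smul, smul_eq_mul]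
  field_simp
  ring

theorem g1_eq (θ t : ℝ) (ht : 0 < t) : g1 θ t = fderiv ℝ G (t⁻¹ • cv θ) (cw θ) := by
  have h1 : HasDerivAt (fun x : ℝ => t * G (t⁻¹ • cv x))
      (t * (fderiv ℝ G (t⁻¹ • cv θ) (t⁻¹ • cw θ))) θ :=
    ((hD hG _).comp_hasDerivAt θ (hasDerivAt_pθ θ t)).const_mul t
  have h2 : HasDerivAt (fun x : ℝ => t * G (t⁻¹ • cv x)) (g1 θ t) θ := by
    have : (fun x : ℝ => t * G (t⁻¹ • cv x)) = fun x => g x t := by
      funext x; exact (hg x t ht).symm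
    rw [this]
    exact hj.d1 θ t
  rw [h2.unique h1, map_smul, smul_eq_mul]
  field_simp

theorem g22_eq (θ t : ℝ) (ht : 0 < t) :
    g22 θ t = (t ^ 3)⁻¹ * H G (t⁻¹ • cv θ) (cv θ) (cv θ) := by
  have ht0 := ht.ne'
  have hp := hasDerivAt_pt θ t ht0
  have ha : HasDerivAt (fun s : ℝ => G (s⁻¹ • cv θ))
      (fderiv ℝ G (t⁻¹ • cv θ) ((-(t ^ 2)⁻¹) • cv θ)) t := (hD hG _).comp_hasDerivAt t hp
  have hb : HasDerivAt (fun s : ℝ => fderiv ℝ G (s⁻¹ • cv θ))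
      (fderiv ℝ (fderiv ℝ G) (t⁻¹ • cv θ) ((-(t ^ 2)⁻¹) • cv θ)) t :=
    (hD2 hG _).comp_hasDerivAt t hp
  have hc : HasDerivAt (fun s : ℝ => fderiv ℝ G (s⁻¹ • cv θ) (cv θ))
      (fderiv ℝ (fderiv ℝ G) (t⁻¹ • cv θ) ((-(t ^ 2)⁻¹) • cv θ) (cv θ)) t := by
    have := hb.clm_apply (hasDerivAt_const t (cv θ))
    simpa using this
  have h1 := ha.sub ((hasDerivAt_inv ht0).mul hc)
  have h2 : HasDerivAt (fun s : ℝ => G (s⁻¹ • cv θ) - s⁻¹ * fderiv ℝ G (s⁻¹ • cv θ) (cv θ))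
      (g22 θ t) t := by
    refine (hj.d22 θ t).congr_of_eventuallyEq ?_
    filter_upwards [lt_mem_nhds ht] with s hs
    exact (g2_eq hG hj hg θ s hs).symm
  rw [h2.unique h1]
  simp only [map_smul, smul_eq_mul, smul_apply, H]
  field_simp
  ring

theorem g12_eq (θ t : ℝ) (ht : 0 < t) :
    g12 θ t = -((t ^ 2)⁻¹ * H G (t⁻¹ • cv θ) (cw θ) (cv θ)) := by
  have ht0 := ht.ne'
  have hp := hasDerivAt_pθ θ t
  have ha : HasDerivAt (fun x : ℝ => G (t⁻¹ • cv x))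
      (fderiv ℝ G (t⁻¹ • cv θ) (t⁻¹ • cw θ)) θ := (hD hG _).comp_hasDerivAt θ hp
  have hb : HasDerivAt (fun x : ℝ => fderiv ℝ G (t⁻¹ • cv x))
      (fderiv ℝ (fderiv ℝ G) (t⁻¹ • cv θ) (t⁻¹ • cw θ)) θ :=
    (hD2 hG _).comp_hasDerivAt θ hp
  have hc := hb.clm_apply (hasDerivAt_cv θ)
  have h1 := ha.sub (hc.const_mul t⁻¹)
  have h2 : HasDerivAt (fun x : ℝ => G (t⁻¹ • cv x) - t⁻¹ * fderiv ℝ G (t⁻¹ • cv x) (cv x))
      (g12 θ t) θ := by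
    have : (fun x : ℝ => G (t⁻¹ • cv x) - t⁻¹ * fderiv ℝ G (t⁻¹ • cv x) (cv x)) =
        fun x => g2 x t := by
      funext x; exact (g2_eq hG hj hg x t ht).symm
    rw [this]
    exact hj.d12 θ t
  rw [h2.unique h1]
  simp only [map_smul, smul_eq_mul, smul_apply, H]
  field_simp
  ring

theorem g11_eq (θ t : ℝ) (ht : 0 < t) :
    g11 θ t = t⁻¹ * H G (t⁻¹ • cv θ) (cw θ) (cw θ) - fderiv ℝ G (t⁻¹ • cv θ) (cv θ) := by
  have hp := hasDerivAt_pθ θ t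
  have hb : HasDerivAt (fun x : ℝ => fderiv ℝ G (t⁻¹ • cv x))
      (fderiv ℝ (fderiv ℝ G) (t⁻¹ • cv θ) (t⁻¹ • cw θ)) θ :=
    (hD2 hG _).comp_hasDerivAt θ hp
  have h1 := hb.clm_apply (hasDerivAt_cw θ)
  have h2 : HasDerivAt (fun x : ℝ => fderiv ℝ G (t⁻¹ • cv x) (cw x)) (g11 θ t) θ := by
    have : (fun x : ℝ => fderiv ℝ G (t⁻¹ • cv x) (cw x)) = fun x => g1 x t := by
      funext x; exact (g1_eq hG hj hg x t ht).symm
    rw [this]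
    exact hj.d11 θ t
  rw [h2.unique h1]
  simp only [map_smul, map_neg, smul_eq_mul, smul_apply, H]
  ring

end

end Jet

theorem link (G : E2 → ℝ) (hG : ContDiff ℝ ∞ G) {g g1 g2 g11 g12 g22 : ℝ → ℝ → ℝ}
    (hj : IsJet g g1 g2 g11 g12 g22) (hg : ∀ θ t : ℝ, 0 < t → g θ t = t * G (t⁻¹ • cv θ))
    (θ t : ℝ) (ht : 0 < t) :
    H G (t⁻¹ • cv θ) (cv θ) (cv θ) = t ^ 3 * g22 θ t ∧
    H G (t⁻¹ • cv θ) (cv θ) (cw θ) = -(t ^ 2 * g12 θ t) ∧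
    H G (t⁻¹ • cv θ) (cw θ) (cw θ) = t * (g θ t + g11 θ t - t * g2 θ t) ∧
    fderiv ℝ G (t⁻¹ • cv θ) (t⁻¹ • cv θ) - G (t⁻¹ • cv θ) = -g2 θ t := by
  have ht0 := ht.ne'
  refine ⟨?_, ?_, ?_, ?_⟩
  · rw [Jet.g22_eq hG hj hg θ t ht]
    field_simp
  · rw [Jet.g12_eq hG hj hg θ t ht, Jet.symm hG _ (cv θ) (cw θ)]
    field_simp
  · rw [Jet.g11_eq hG hj hg θ t ht, Jet.g2_eq hG hj hg θ t ht, hg θ t ht]
    field_simp
    ring
  · rw [Jet.g2_eq hG hj hg θ t ht, map_smul, smul_eq_mul]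
    ring

theorem block {A A1 A2 B B1 B2 T T1 T2 m m1 m2 : ℝ → ℝ} {τ : ℝ} (hτ : τ ≠ 0)
    (hA : ∀ x, HasDerivAt A (A1 x) x) (hA1 : ∀ x, HasDerivAt A1 (A2 x) x)
    (hB : ∀ x, HasDerivAt B (B1 x) x) (hB1 : ∀ x, HasDerivAt B1 (B2 x) x)
    (hT : ∀ x, HasDerivAt T (T1 x) x) (hT1 : ∀ x, HasDerivAt T1 (T2 x) x)
    (hm : ∀ x, HasDerivAt m (m1 x) x) (hm1 : ∀ x, HasDerivAt m1 (m2 x) x) :
    IsJet (fun θ t => τ ^ 2 * (A θ * B (t / τ - 1) * T (m θ / τ)))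
      (fun θ t => τ ^ 2 * (A1 θ * B (t / τ - 1) * T (m θ / τ)) +
        τ * (A θ * m1 θ * B (t / τ - 1) * T1 (m θ / τ)))
      (fun θ t => τ * (A θ * B1 (t / τ - 1) * T (m θ / τ)))
      (fun θ t => τ ^ 2 * (A2 θ * B (t / τ - 1) * T (m θ / τ)) +
        τ * (2 * A1 θ * m1 θ * B (t / τ - 1) * T1 (m θ / τ)) +
        τ * (A θ * m2 θ * B (t / τ - 1) * T1 (m θ / τ)) +
        A θ * m1 θ ^ 2 * B (t / τ - 1) * T2 (m θ / τ))
      (fun θ t => τ * (A1 θ * B1 (t / τ - 1) * T (m θ / τ)) +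
        A θ * m1 θ * B1 (t / τ - 1) * T1 (m θ / τ))
      (fun θ t => A θ * B2 (t / τ - 1) * T (m θ / τ)) := by
  have hTm : ∀ θ, HasDerivAt (fun x => T (m x / τ)) (T1 (m θ / τ) * (m1 θ / τ)) θ :=
    fun θ => (hT _).comp θ ((hm θ).div_const τ)
  have hT1m : ∀ θ, HasDerivAt (fun x => T1 (m x / τ)) (T2 (m θ / τ) * (m1 θ / τ)) θ :=
    fun θ => (hT1 _).comp θ ((hm θ).div_const τ)
  have ht : ∀ t, HasDerivAt (fun x : ℝ => x / τ - 1) (1 / τ) t :=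
    fun t => ((hasDerivAt_id t).div_const τ).sub_const 1
  have hBt : ∀ t, HasDerivAt (fun x => B (x / τ - 1)) (B1 (t / τ - 1) * (1 / τ)) t :=
    fun t => (hB _).comp t (ht t)
  have hB1t : ∀ t, HasDerivAt (fun x => B1 (x / τ - 1)) (B2 (t / τ - 1) * (1 / τ)) t :=
    fun t => (hB1 _).comp t (ht t)
  refine ⟨?_, ?_, ?_, ?_, ?_⟩
  · intro θ t
    have h := (((hA θ).mul_const (B (t / τ - 1))).mul (hTm θ)).const_mul (τ ^ 2)
    refine h.congr_deriv ?_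
    field_simp
  · intro θ t
    have h := (((hBt t).const_mul (A θ)).mul_const (T (m θ / τ))).const_mul (τ ^ 2)
    refine h.congr_deriv ?_
    field_simp
  · intro θ t
    have h := ((((hA1 θ).mul_const (B (t / τ - 1))).mul (hTm θ)).const_mul (τ ^ 2)).add
      (((((hA θ).mul (hm1 θ)).mul_const (B (t / τ - 1))).mul (hT1m θ)).const_mul τ)
    refine h.congr_deriv ?_
    simp only [Pi.mul_apply]
    field_simp
    ring
  · intro θ t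
    have h := (((hA θ).mul_const (B1 (t / τ - 1))).mul (hTm θ)).const_mul τ
    refine h.congr_deriv ?_
    field_simp
  · intro θ t
    have h := (((hB1t t).const_mul (A θ)).mul_const (T (m θ / τ))).const_mul τ
    refine h.congr_deriv ?_
    field_simp

end Pool.Agent.Helper41.MU
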