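import Mathlib
import Pool.Agent.Helper41.MU.Defs
import Pool.Agent.Helper41.MU.Data
import Pool.Agent.Helper41.MU.Jet
import Pool.Agent.Helper41.MU.Ineq

/-!
# One umbilic-free island (MP_7d7bd6_gt): jets, bounds, and the non-vanishing
-/

set_option autoImplicit false

open Set Filter Topology
open scoped ContDiff

namespace Pool.Agent.Helper41.MU

/-! ### Algebra of jets -/

theorem HasJ.add {g a b c d g' a' b' c' d' : ℝ → ℝ → ℝ} (h : HasJ g a b c d)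
    (h' : HasJ g' a' b' c' d') :
    HasJ (fun θ t => g θ t + g' θ t) (fun θ t => a θ t + a' θ t) (fun θ t => b θ t + b' θ t)
      (fun θ t => c θ t + c' θ t) (fun θ t => d θ t + d' θ t) := by
  obtain ⟨g1, g2, g11, g12, g22, hj, he⟩ := h
  obtain ⟨g1', g2', g11', g12', g22', hj', he'⟩ := h'
  refine ⟨fun θ t => g1 θ t + g1' θ t, fun θ t => g2 θ t + g2' θ t,
    fun θ t => g11 θ t + g11' θ t, fun θ t => g12 θ t + g12' θ t,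
    fun θ t => g22 θ t + g22' θ t, ⟨?_, ?_, ?_, ?_, ?_⟩, ?_⟩
  · exact fun θ t => (hj.d1 θ t).add (hj'.d1 θ t)
  · exact fun θ t => (hj.d2 θ t).add (hj'.d2 θ t)
  · exact fun θ t => (hj.d11 θ t).add (hj'.d11 θ t)
  · exact fun θ t => (hj.d12 θ t).add (hj'.d12 θ t)
  · exact fun θ t => (hj.d22 θ t).add (hj'.d22 θ t)
  · intro θ t
    beta_reduce
    obtain ⟨e1, e2, e3, e4⟩ := he θ t
    obtain ⟨f1, f2, f3, f4⟩ := he' θ t
    refine ⟨by rw [e1, f1], by rw [e2, f2], by rw [e3, f3]; ring, by rw [e4, f4]⟩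

theorem HasJ.smul {g a b c d : ℝ → ℝ → ℝ} (k : ℝ) (h : HasJ g a b c d) :
    HasJ (fun θ t => k * g θ t) (fun θ t => k * a θ t) (fun θ t => k * b θ t)
      (fun θ t => k * c θ t) (fun θ t => k * d θ t) := by
  obtain ⟨g1, g2, g11, g12, g22, hj, he⟩ := h
  refine ⟨fun θ t => k * g1 θ t, fun θ t => k * g2 θ t,
    fun θ t => k * g11 θ t, fun θ t => k * g12 θ t,
    fun θ t => k * g22 θ t, ⟨?_, ?_, ?_, ?_, ?_⟩, ?_⟩
  · exact fun θ t => (hj.d1 θ t).const_mul k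
  · exact fun θ t => (hj.d2 θ t).const_mul k
  · exact fun θ t => (hj.d11 θ t).const_mul k
  · exact fun θ t => (hj.d12 θ t).const_mul k
  · exact fun θ t => (hj.d22 θ t).const_mul k
  · intro θ t
    beta_reduce
    obtain ⟨e1, e2, e3, e4⟩ := he θ t
    refine ⟨by rw [e1], by rw [e2], by rw [e3]; ring, by rw [e4]⟩

theorem HasJ.reflect {g a b c d : ℝ → ℝ → ℝ} {s : ℝ} (hs : s = 1 ∨ s = -1)
    (h : HasJ g a b c d) :
    HasJ (fun θ t => g (s * θ) t) (fun θ t => a (s * θ) t) (fun θ t => s * b (s * θ) t)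
      (fun θ t => c (s * θ) t) (fun θ t => d (s * θ) t) := by
  obtain ⟨g1, g2, g11, g12, g22, hj, he⟩ := h
  have hss : s * s = 1 := by rcases hs with h | h <;> rw [h] <;> norm_num
  have hl : ∀ θ : ℝ, HasDerivAt (fun x : ℝ => s * x) s θ := by
    intro θ
    simpa using (hasDerivAt_id θ).const_mul s
  refine ⟨fun θ t => s * g1 (s * θ) t, fun θ t => g2 (s * θ) t,
    fun θ t => g11 (s * θ) t, fun θ t => s * g12 (s * θ) t,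
    fun θ t => g22 (s * θ) t, ⟨?_, ?_, ?_, ?_, ?_⟩, ?_⟩
  · intro θ t
    have := (hj.d1 (s * θ) t).comp θ (hl θ)
    rw [mul_comm s]
    exact this
  · exact fun θ t => hj.d2 (s * θ) t
  · intro θ t
    have := ((hj.d11 (s * θ) t).comp θ (hl θ)).const_mul s
    have h2 : s * (g11 (s * θ) t * s) = g11 (s * θ) t := by
      calc s * (g11 (s * θ) t * s) = (s * s) * g11 (s * θ) t := by ring
        _ = _ := by rw [hss, one_mul]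
    rw [h2] at this
    exact this
  · intro θ t
    have := (hj.d12 (s * θ) t).comp θ (hl θ)
    rw [mul_comm s]
    exact this
  · exact fun θ t => hj.d22 (s * θ) t
  · intro θ t
    beta_reduce
    obtain ⟨e1, e2, e3, e4⟩ := he (s * θ) t
    refine ⟨e1, by rw [e2], e3, e4⟩

/-! ### Blocks -/

/-- a product of a function of the angle, a function of the scaled distance and a function of the
fast variable, with their derivatives -/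
structure Blk where
  A : ℝ → ℝ
  A1 : ℝ → ℝ
  A2 : ℝ → ℝ
  B : ℝ → ℝ
  B1 : ℝ → ℝ
  B2 : ℝ → ℝ
  T : ℝ → ℝ
  T1 : ℝ → ℝ
  T2 : ℝ → ℝ
  hA : ∀ x, HasDerivAt A (A1 x) x
  hA1 : ∀ x, HasDerivAt A1 (A2 x) x
  hB : ∀ x, HasDerivAt B (B1 x) x
  hB1 : ∀ x, HasDerivAt B1 (B2 x) x
  hT : ∀ x, HasDerivAt T (T1 x) x
  hT1 : ∀ x, HasDerivAt T1 (T2 x) x

namespace Blk

variable (X : Blk)

noncomputable def g (τ φ t : ℝ) : ℝ :=
  τ ^ 2 * (X.A φ * X.B (t / τ - 1) * X.T (Real.sin (2 * φ) / τ))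

noncomputable def a (τ φ t : ℝ) : ℝ :=
  X.A φ * X.B2 (t / τ - 1) * X.T (Real.sin (2 * φ) / τ)

noncomputable def b (τ φ t : ℝ) : ℝ :=
  τ * (X.A1 φ * X.B1 (t / τ - 1) * X.T (Real.sin (2 * φ) / τ)) +
    X.A φ * (2 * Real.cos (2 * φ)) * X.B1 (t / τ - 1) * X.T1 (Real.sin (2 * φ) / τ)

noncomputable def c (τ φ t : ℝ) : ℝ :=
  τ ^ 2 * (X.A φ * X.B (t / τ - 1) * X.T (Real.sin (2 * φ) / τ)) +
  (τ ^ 2 * (X.A2 φ * X.B (t / τ - 1) * X.T (Real.sin (2 * φ) / τ)) +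
    τ * (2 * X.A1 φ * (2 * Real.cos (2 * φ)) * X.B (t / τ - 1) *
      X.T1 (Real.sin (2 * φ) / τ)) +
    τ * (X.A φ * (-(4 * Real.sin (2 * φ))) * X.B (t / τ - 1) *
      X.T1 (Real.sin (2 * φ) / τ)) +
    X.A φ * (2 * Real.cos (2 * φ)) ^ 2 * X.B (t / τ - 1) * X.T2 (Real.sin (2 * φ) / τ)) -
  t * (τ * (X.A φ * X.B1 (t / τ - 1) * X.T (Real.sin (2 * φ) / τ)))

noncomputable def d (τ φ t : ℝ) : ℝ :=
  τ * (X.A φ * X.B1 (t / τ - 1) * X.T (Real.sin (2 * φ) / τ))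

/-- main part of the first expression -/
noncomputable def z1 (τ φ t : ℝ) : ℝ :=
  X.A φ * ((2 * Real.cos (2 * φ)) ^ 2 * X.B (t / τ - 1) * X.T2 (Real.sin (2 * φ) / τ) -
    X.B2 (t / τ - 1) * X.T (Real.sin (2 * φ) / τ))

/-- main part of the second expression -/
noncomputable def z2 (τ φ t : ℝ) : ℝ :=
  X.A φ * (2 * Real.cos (2 * φ)) * X.B1 (t / τ - 1) * X.T1 (Real.sin (2 * φ) / τ)

theorem hasDerivAt_m (φ : ℝ) :
    HasDerivAt (fun x : ℝ => Real.sin (2 * x)) (2 * Real.cos (2 * φ)) φ := by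
  have h := ((hasDerivAt_id φ).const_mul (2 : ℝ)).sin
  simp only [id, mul_one] at h
  rw [mul_comm] at h
  exact h

theorem hasDerivAt_m1 (φ : ℝ) :
    HasDerivAt (fun x : ℝ => 2 * Real.cos (2 * x)) (-(4 * Real.sin (2 * φ))) φ := by
  have h := (((hasDerivAt_id φ).const_mul (2 : ℝ)).cos).const_mul 2
  simp only [id, mul_one] at h
  have h2 : -(4 * Real.sin (2 * φ)) = 2 * (-Real.sin (2 * φ) * 2) := by ring
  rw [h2]
  exact h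

theorem hasJ {τ : ℝ} (hτ : τ ≠ 0) : HasJ (X.g τ) (X.a τ) (X.b τ) (X.c τ) (X.d τ) :=
  ⟨_, _, _, _, _, block hτ X.hA X.hA1 X.hB X.hB1 X.hT X.hT1 hasDerivAt_m hasDerivAt_m1,
    fun _ _ => ⟨rfl, rfl, rfl, rfl⟩⟩

end Blk

namespace Isl

theorem abs3 {x y z M : ℝ} (hx : |x| ≤ M) (hy : |y| ≤ M) (hz : |z| ≤ M) :
    |x * y * z| ≤ M ^ 3 := by
  have hM : 0 ≤ M := (abs_nonneg _).trans hx
  rw [abs_mul, abs_mul]
  calc |x| * |y| * |z| ≤ M * M * M :=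
        mul_le_mul (mul_le_mul hx hy (abs_nonneg _) hM) hz (abs_nonneg _) (by positivity)
    _ = M ^ 3 := by ring

theorem abs4 {w x y z M : ℝ} (hw : |w| ≤ 1) (hx : |x| ≤ M) (hy : |y| ≤ M) (hz : |z| ≤ M) :
    |w * (x * y * z)| ≤ M ^ 3 := by
  rw [abs_mul]
  calc |w| * |x * y * z| ≤ 1 * M ^ 3 :=
        mul_le_mul hw (abs3 hx hy hz) (abs_nonneg _) zero_le_one
    _ = M ^ 3 := by ring

/-- the remainder of a block -/
theorem rem {A A1 A2 B B1 B2 T T1 T2 cφ sφ M τ t : ℝ}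
    (hA : |A| ≤ M) (hA1 : |A1| ≤ M) (hA2 : |A2| ≤ M)
    (hB : |B| ≤ M) (hB1 : |B1| ≤ M) (hB2 : |B2| ≤ M)
    (hT : |T| ≤ M) (hT1 : |T1| ≤ M) (hc : |cφ| ≤ 1) (hs : |sφ| ≤ 1)
    (hτ : 0 < τ) (hτ1 : τ ≤ 1 / 100) (ht : 0 < t) (ht2 : t ≤ 2 * τ) :
    |τ ^ 2 * (A * B * T) + (τ ^ 2 * (A2 * B * T) + τ * (2 * A1 * (2 * cφ) * B * T1) +
      τ * (A * (-(4 * sφ)) * B * T1) + A * (2 * cφ) ^ 2 * B * T2) - t * (τ * (A * B1 * T)) -
      A * (2 * cφ) ^ 2 * B * T2| ≤ 9 * M ^ 3 * τ ∧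
    |τ ^ 2 * (A * B * T) + (τ ^ 2 * (A2 * B * T) + τ * (2 * A1 * (2 * cφ) * B * T1) +
      τ * (A * (-(4 * sφ)) * B * T1) + A * (2 * cφ) ^ 2 * B * T2) - t * (τ * (A * B1 * T)) -
      (1 + t ^ 2) * (A * B2 * T) - A * ((2 * cφ) ^ 2 * B * T2 - B2 * T)| ≤ 9 * M ^ 3 * τ := by
  have hM : 0 ≤ M := (abs_nonneg _).trans hA
  have hM3 : 0 ≤ M ^ 3 := by positivity
  have p1 := abs_le.1 (abs3 hA hB hT)
  have p2 := abs_le.1 (abs3 hA2 hB hT)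
  have p3 := abs_le.1 (abs4 hc hA1 hB hT1)
  have p4 := abs_le.1 (abs4 hs hA hB hT1)
  have p5 := abs_le.1 (abs3 hA hB1 hT)
  have p6 := abs_le.1 (abs3 hA hB2 hT)
  have hτ2 : 0 ≤ τ ^ 2 := by positivity
  have hτ3 : τ ^ 2 ≤ 1 / 100 * τ := by
    rw [sq]; exact mul_le_mul_of_nonneg_right hτ1 hτ.le
  have htτ : 0 ≤ t * τ := by positivity
  have htτ2 : t * τ ≤ 2 * τ ^ 2 := by
    calc t * τ ≤ 2 * τ * τ := mul_le_mul_of_nonneg_right ht2 hτ.le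
      _ = 2 * τ ^ 2 := by ring
  have htt : 0 ≤ t ^ 2 := by positivity
  have htt2 : t ^ 2 ≤ 4 * τ ^ 2 := by
    calc t ^ 2 ≤ (2 * τ) ^ 2 := pow_le_pow_left₀ ht.le ht2 2
      _ = 4 * τ ^ 2 := by ring
  have key : ∀ {r x : ℝ}, 0 ≤ r → -M ^ 3 ≤ x ∧ x ≤ M ^ 3 → |r * x| ≤ r * M ^ 3 := by
    intro r x hr hx
    rw [abs_mul, abs_of_nonneg hr]
    exact mul_le_mul_of_nonneg_left (abs_le.2 hx) hr
  have q1 := abs_le.1 (key hτ2 p1)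
  have q2 := abs_le.1 (key hτ2 p2)
  have q3 := abs_le.1 (key hτ.le p3)
  have q4 := abs_le.1 (key hτ.le p4)
  have q5 := abs_le.1 (key htτ p5)
  have q6 := abs_le.1 (key htt p6)
  have r1 : τ ^ 2 * M ^ 3 ≤ 1 / 100 * (M ^ 3 * τ) := by
    calc τ ^ 2 * M ^ 3 ≤ 1 / 100 * τ * M ^ 3 := mul_le_mul_of_nonneg_right hτ3 hM3
      _ = _ := by ring
  have r2 : t * τ * M ^ 3 ≤ 2 * (τ ^ 2 * M ^ 3) := by
    calc t * τ * M ^ 3 ≤ 2 * τ ^ 2 * M ^ 3 := mul_le_mul_of_nonneg_right htτ2 hM3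
      _ = _ := by ring
  have r3 : t ^ 2 * M ^ 3 ≤ 4 * (τ ^ 2 * M ^ 3) := by
    calc t ^ 2 * M ^ 3 ≤ 4 * τ ^ 2 * M ^ 3 := mul_le_mul_of_nonneg_right htt2 hM3
      _ = _ := by ring
  have r4 : τ * M ^ 3 = M ^ 3 * τ := by ring
  have r5 : 0 ≤ M ^ 3 * τ := by positivity
  have e1 : τ ^ 2 * (A * B * T) + (τ ^ 2 * (A2 * B * T) + τ * (2 * A1 * (2 * cφ) * B * T1) +
      τ * (A * (-(4 * sφ)) * B * T1) + A * (2 * cφ) ^ 2 * B * T2) - t * (τ * (A * B1 * T)) -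
      A * (2 * cφ) ^ 2 * B * T2 = τ ^ 2 * (A * B * T) + τ ^ 2 * (A2 * B * T) +
      4 * (τ * (cφ * (A1 * B * T1))) - 4 * (τ * (sφ * (A * B * T1))) -
      t * τ * (A * B1 * T) := by ring
  have e2 : τ ^ 2 * (A * B * T) + (τ ^ 2 * (A2 * B * T) + τ * (2 * A1 * (2 * cφ) * B * T1) +
      τ * (A * (-(4 * sφ)) * B * T1) + A * (2 * cφ) ^ 2 * B * T2) - t * (τ * (A * B1 * T)) -
      (1 + t ^ 2) * (A * B2 * T) - A * ((2 * cφ) ^ 2 * B * T2 - B2 * T) =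
      τ ^ 2 * (A * B * T) + τ ^ 2 * (A2 * B * T) +
      4 * (τ * (cφ * (A1 * B * T1))) - 4 * (τ * (sφ * (A * B * T1))) -
      t * τ * (A * B1 * T) - t ^ 2 * (A * B2 * T) := by ring
  rw [e1, e2, abs_le, abs_le]
  refine ⟨⟨?_, ?_⟩, ⟨?_, ?_⟩⟩ <;> linarith

end Isl

namespace Blk

variable (X : Blk)

/-- bounds for all nine functions -/
structure Bdd (M φ y x : ℝ) : Prop where
  A : |X.A φ| ≤ M
  A1 : |X.A1 φ| ≤ M
  A2 : |X.A2 φ| ≤ M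
  B : |X.B y| ≤ M
  B1 : |X.B1 y| ≤ M
  B2 : |X.B2 y| ≤ M
  T : |X.T x| ≤ M
  T1 : |X.T1 x| ≤ M
  T2 : |X.T2 x| ≤ M

variable {X}

theorem Bdd.main {M φ t τ : ℝ} (h : X.Bdd M φ (t / τ - 1) (Real.sin (2 * φ) / τ))
    (hτ : 0 < τ) (hτ1 : τ ≤ 1 / 100) (ht : 0 < t) (ht2 : t ≤ 2 * τ) :
    |X.a τ φ t| ≤ M ^ 3 ∧ |X.b τ φ t - X.z2 τ φ t| ≤ M ^ 3 * τ ∧
    |X.c τ φ t - X.A φ * (2 * Real.cos (2 * φ)) ^ 2 * X.B (t / τ - 1) *
      X.T2 (Real.sin (2 * φ) / τ)| ≤ 9 * M ^ 3 * τ ∧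
    |X.c τ φ t - (1 + t ^ 2) * X.a τ φ t - X.z1 τ φ t| ≤ 9 * M ^ 3 * τ ∧
    |X.d τ φ t| ≤ M ^ 3 * τ := by
  have hr := Isl.rem (A := X.A φ) (A1 := X.A1 φ) (A2 := X.A2 φ) (B := X.B (t / τ - 1))
    (B1 := X.B1 (t / τ - 1)) (B2 := X.B2 (t / τ - 1)) (T := X.T (Real.sin (2 * φ) / τ))
    (T1 := X.T1 (Real.sin (2 * φ) / τ)) (T2 := X.T2 (Real.sin (2 * φ) / τ))
    (cφ := Real.cos (2 * φ)) (sφ := Real.sin (2 * φ)) h.A h.A1 h.A2 h.B h.B1 h.B2 h.T h.T1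
    (Real.abs_cos_le_one _) (Real.abs_sin_le_one _) hτ hτ1 ht ht2
  refine ⟨Isl.abs3 h.A h.B2 h.T, ?_, hr.1, hr.2, ?_⟩
  · unfold b z2
    rw [add_sub_cancel_right, abs_mul, abs_of_pos hτ, mul_comm]
    exact mul_le_mul_of_nonneg_right (Isl.abs3 h.A1 h.B1 h.T) hτ.le
  · unfold d
    rw [abs_mul, abs_of_pos hτ, mul_comm]
    exact mul_le_mul_of_nonneg_right (Isl.abs3 h.A h.B1 h.T) hτ.le

end Blk

end Pool.Agent.Helper41.MU
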