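import Mathlib
import Pool.Agent.Helper41.MU.Isl

/-!
# One umbilic-free island (MP_7d7bd6_gt): the five blocks
-/

set_option autoImplicit false

open Set Filter Topology
open scoped ContDiff

namespace Pool.Agent.Helper41.MU

namespace IslB

theorem smooth_der {f : ℝ → ℝ} (hf : ContDiff ℝ ∞ f) :
    (∀ x, HasDerivAt f (deriv f x) x) ∧ (∀ x, HasDerivAt (deriv f) (deriv (deriv f) x) x) := by
  have h1 := contDiff_infty_iff_deriv.1 hf
  have h2 := contDiff_infty_iff_deriv.1 h1.2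
  exact ⟨fun x => (h1.1 x).hasDerivAt, fun x => (h2.1 x).hasDerivAt⟩

theorem smooth_fS {χ : ℝ → ℝ} (h : ContDiff ℝ ∞ χ) : ContDiff ℝ ∞ (fS χ) :=
  h.comp (Real.contDiff_sin.comp (contDiff_const.mul contDiff_id))

theorem smooth_fC {χ : ℝ → ℝ} (h : ContDiff ℝ ∞ χ) : ContDiff ℝ ∞ (fC χ) :=
  h.comp (Real.contDiff_cos.comp (contDiff_const.mul contDiff_id))

theorem smooth_fCS {η χ : ℝ → ℝ} (hη : ContDiff ℝ ∞ η) (h : ContDiff ℝ ∞ χ) :
    ContDiff ℝ ∞ (fCS η χ) := (smooth_fC hη).mul (smooth_fS h)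

theorem smooth_fY {κ : ℝ → ℝ} (h : ContDiff ℝ ∞ κ) : ContDiff ℝ ∞ (fY κ) := h.mul contDiff_id

theorem smooth_fD {κ q1 : ℝ → ℝ} (h : ContDiff ℝ ∞ κ) (h' : ContDiff ℝ ∞ q1) :
    ContDiff ℝ ∞ (fD κ q1) := h.mul (h'.sub contDiff_const)

theorem sin2_der (x : ℝ) :
    HasDerivAt (fun x : ℝ => Real.sin (2 * x)) (2 * Real.cos (2 * x)) x := Blk.hasDerivAt_m x

theorem cos2_der (x : ℝ) :
    HasDerivAt (fun x : ℝ => Real.cos (2 * x)) (-(2 * Real.sin (2 * x))) x := by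
  have h := ((hasDerivAt_id x).const_mul (2 : ℝ)).cos
  simp only [id, mul_one] at h
  have h2 : -(2 * Real.sin (2 * x)) = -Real.sin (2 * x) * 2 := by ring
  rw [h2]
  exact h

variable (D : Data)

noncomputable def k1 : Blk where
  A := fS D.χ
  A1 := deriv (fS D.χ)
  A2 := deriv (deriv (fS D.χ))
  B := D.q
  B1 := D.q1
  B2 := D.b
  T := fun _ => 1
  T1 := fun _ => 0
  T2 := fun _ => 0
  hA := (smooth_der (smooth_fS D.sχ)).1
  hA1 := (smooth_der (smooth_fS D.sχ)).2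
  hB := D.dq
  hB1 := D.dq1
  hT := fun x => hasDerivAt_const x 1
  hT1 := fun x => hasDerivAt_const x 0

noncomputable def k2 : Blk where
  A := fC D.η
  A1 := deriv (fC D.η)
  A2 := deriv (deriv (fC D.η))
  B := D.κ
  B1 := deriv D.κ
  B2 := deriv (deriv D.κ)
  T := fun x => -(D.N * Real.cos x)
  T1 := fun x => D.N * Real.sin x
  T2 := fun x => D.N * Real.cos x
  hA := (smooth_der (smooth_fC D.sη)).1
  hA1 := (smooth_der (smooth_fC D.sη)).2
  hB := (smooth_der D.sκ).1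
  hB1 := (smooth_der D.sκ).2
  hT := fun x => by
    have h := ((Real.hasDerivAt_cos x).const_mul D.N).neg
    rw [mul_neg, neg_neg] at h
    exact h
  hT1 := fun x => (Real.hasDerivAt_sin x).const_mul D.N

noncomputable def k3 : Blk where
  A := fC D.η
  A1 := deriv (fC D.η)
  A2 := deriv (deriv (fC D.η))
  B := fY D.κ
  B1 := deriv (fY D.κ)
  B2 := deriv (deriv (fY D.κ))
  T := fun x => Real.sin x + D.ε * D.N * Real.sin (2 * x)
  T1 := fun x => Real.cos x + D.ε * D.N * (2 * Real.cos (2 * x))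
  T2 := fun x => -Real.sin x + D.ε * D.N * (2 * -(2 * Real.sin (2 * x)))
  hA := (smooth_der (smooth_fC D.sη)).1
  hA1 := (smooth_der (smooth_fC D.sη)).2
  hB := (smooth_der (smooth_fY D.sκ)).1
  hB1 := (smooth_der (smooth_fY D.sκ)).2
  hT := fun x => (Real.hasDerivAt_sin x).add ((sin2_der x).const_mul (D.ε * D.N))
  hT1 := fun x => (Real.hasDerivAt_cos x).add (((cos2_der x).const_mul 2).const_mul (D.ε * D.N))

noncomputable def k4 : Blk where
  A := fCS D.η D.χ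
  A1 := deriv (fCS D.η D.χ)
  A2 := deriv (deriv (fCS D.η D.χ))
  B := fD D.κ D.q1
  B1 := deriv (fD D.κ D.q1)
  B2 := deriv (deriv (fD D.κ D.q1))
  T := Real.sin
  T1 := Real.cos
  T2 := fun x => -Real.sin x
  hA := (smooth_der (smooth_fCS D.sη D.sχ)).1
  hA1 := (smooth_der (smooth_fCS D.sη D.sχ)).2
  hB := (smooth_der (smooth_fD D.sκ D.sq1)).1
  hB1 := (smooth_der (smooth_fD D.sκ D.sq1)).2
  hT := Real.hasDerivAt_sin
  hT1 := Real.hasDerivAt_cos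

noncomputable def k5 : Blk where
  A := fS D.ℓ
  A1 := deriv (fS D.ℓ)
  A2 := deriv (deriv (fS D.ℓ))
  B := D.qT
  B1 := D.qT1
  B2 := D.bT
  T := fun _ => 1
  T1 := fun _ => 0
  T2 := fun _ => 0
  hA := (smooth_der (smooth_fS D.sℓ)).1
  hA1 := (smooth_der (smooth_fS D.sℓ)).2
  hB := D.dqT
  hB1 := D.dqT1
  hT := fun x => hasDerivAt_const x 1
  hT1 := fun x => hasDerivAt_const x 0

/-- linear combination of the five blocks -/
noncomputable def comb (τ : ℝ) (x1 x2 x3 x4 x5 : ℝ) : ℝ :=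
  3 * x1 + D.ε * x2 + D.ε * x3 + -(3 * D.ε) * x4 + D.Δ / τ * x5

theorem isl_jet {τ : ℝ} (hτ : τ ≠ 0) : HasJ (D.isl τ)
    (fun φ t => comb D τ ((k1 D).a τ φ t) ((k2 D).a τ φ t) ((k3 D).a τ φ t) ((k4 D).a τ φ t)
      ((k5 D).a τ φ t))
    (fun φ t => comb D τ ((k1 D).b τ φ t) ((k2 D).b τ φ t) ((k3 D).b τ φ t) ((k4 D).b τ φ t)
      ((k5 D).b τ φ t))
    (fun φ t => comb D τ ((k1 D).c τ φ t) ((k2 D).c τ φ t) ((k3 D).c τ φ t) ((k4 D).c τ φ t)
      ((k5 D).c τ φ t))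
    (fun φ t => comb D τ ((k1 D).d τ φ t) ((k2 D).d τ φ t) ((k3 D).d τ φ t) ((k4 D).d τ φ t)
      ((k5 D).d τ φ t)) :=
  ((((((k1 D).hasJ hτ).smul 3).add (((k2 D).hasJ hτ).smul D.ε)).add
    (((k3 D).hasJ hτ).smul D.ε)).add (((k4 D).hasJ hτ).smul (-(3 * D.ε)))).add
    (((k5 D).hasJ hτ).smul (D.Δ / τ))

/-! ### Local form of the profiles -/

theorem dz {f : ℝ → ℝ} (h : ∀ x, 1 / 2 ≤ |x| → f x = 0) {y : ℝ} (hy : 1 / 2 < |y|) :
    f y = 0 ∧ deriv f y = 0 ∧ deriv (deriv f) y = 0 := by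
  have hev : f =ᶠ[𝓝 y] fun _ => 0 := by
    have : ∀ᶠ x in 𝓝 y, 1 / 2 < |x| := continuous_abs.continuousAt.eventually (lt_mem_nhds hy)
    filter_upwards [this] with x hx
    exact h x hx.le
  have h1 : deriv f =ᶠ[𝓝 y] fun _ => 0 := by
    filter_upwards [hev.deriv] with x hx
    rw [hx]; simp
  refine ⟨h y hy.le, h1.eq_of_nhds, ?_⟩
  rw [h1.deriv_eq]; simp

theorem near_eq {f g : ℝ → ℝ} (h : ∀ x, |x| ≤ 1 / 4 → f x = g x) {y : ℝ} (hy : |y| < 1 / 4) :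
    f y = g y ∧ deriv f y = deriv g y ∧ deriv (deriv f) y = deriv (deriv g) y := by
  have hev : f =ᶠ[𝓝 y] g := by
    have : ∀ᶠ x in 𝓝 y, |x| < 1 / 4 := continuous_abs.continuousAt.eventually (gt_mem_nhds hy)
    filter_upwards [this] with x hx
    exact h x hx.le
  exact ⟨h y hy.le, hev.deriv_eq, hev.deriv.deriv_eq⟩

theorem fY_zero : ∀ x, 1 / 2 ≤ |x| → fY D.κ x = 0 := by
  intro x hx
  unfold fY
  rw [D.κ_zero x hx, zero_mul]

theorem fD_zero : ∀ x, 1 / 2 ≤ |x| → fD D.κ D.q1 x = 0 := by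
  intro x hx
  unfold fD
  rw [D.κ_zero x hx, zero_mul]

theorem κ_near {y : ℝ} (hy : |y| < 1 / 4) :
    D.κ y = 1 ∧ deriv D.κ y = 0 ∧ deriv (deriv D.κ) y = 0 := by
  have h := near_eq (f := D.κ) (g := fun _ => 1) (fun x hx => D.κ_one x hx) hy
  refine ⟨h.1, ?_, ?_⟩
  · rw [h.2.1]; simp
  · rw [h.2.2]; simp

theorem fY_near {y : ℝ} (hy : |y| < 1 / 4) :
    fY D.κ y = y ∧ deriv (fY D.κ) y = 1 ∧ deriv (deriv (fY D.κ)) y = 0 := by
  have h := near_eq (f := fY D.κ) (g := fun x => x)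
    (fun x hx => by unfold fY; rw [D.κ_one x hx, one_mul]) hy
  refine ⟨h.1, ?_, ?_⟩
  · rw [h.2.1]; simp
  · rw [h.2.2]; simp

theorem fD_near {y : ℝ} (hy : |y| < 1 / 4) :
    fD D.κ D.q1 y = D.q1 y - D.q1 0 ∧ deriv (fD D.κ D.q1) y = D.b y ∧
      deriv (deriv (fD D.κ D.q1)) y = deriv D.b y := by
  have h := near_eq (f := fD D.κ D.q1) (g := fun x => D.q1 x - D.q1 0)
    (fun x hx => by unfold fD; rw [D.κ_one x hx, one_mul]) hy
  have hd : deriv (fun x => D.q1 x - D.q1 0) = D.b := by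
    funext x
    exact ((D.dq1 x).sub_const _).deriv
  refine ⟨h.1, ?_, ?_⟩
  · rw [h.2.1, hd]
  · rw [h.2.2, hd]

theorem q1_lip (y : ℝ) : |D.q1 y - D.q1 0| ≤ |y| := by
  have h := Convex.norm_image_sub_le_of_norm_hasDerivWithin_le (f := D.q1) (f' := D.b)
    (s := univ) (x := 0) (y := y) (C := 1)
    (fun x _ => (D.dq1 x).hasDerivWithinAt)
    (fun x _ => by rw [Real.norm_eq_abs, abs_of_nonneg (D.b_nonneg x)]; exact D.b_le x)
    convex_univ (mem_univ _) (mem_univ _)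
  rw [Real.norm_eq_abs, Real.norm_eq_abs, sub_zero, one_mul] at h
  exact h

end IslB

end Pool.Agent.Helper41.MU
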