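import Mathlib
import Pool.Agent.Helper41.MU.IslB

/-!
# One umbilic-free island (MP_7d7bd6_gt): bounds and non-vanishing
-/

set_option autoImplicit false

open Set Filter Topology
open scoped ContDiff

namespace Pool.Agent.Helper41.MU

namespace IslC

open IslB

variable (D : Data)

theorem N_ge : 4 ≤ D.N := by rw [D.hN]; linarith [D.K_nonneg]

theorem M_ge : 17 ≤ D.M := by linarith [N_ge D, D.hM]

theorem der_q : deriv D.q = D.q1 := funext fun x => (D.dq x).deriv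

theorem der_q1 : deriv D.q1 = D.b := funext fun x => (D.dq1 x).deriv

theorem q_bd {y : ℝ} (hy : |y| ≤ 1) : |D.q y| ≤ D.M ∧ |D.q1 y| ≤ D.M ∧ |D.b y| ≤ D.M := by
  obtain ⟨⟨h1, h2, h3⟩, -⟩ := D.bdB y hy
  rw [der_q] at h2 h3
  rw [der_q1] at h3
  exact ⟨h1, h2, h3⟩

theorem εN_le : 4 * (D.ε * D.N) ≤ D.N := by
  have h1 := D.ε_le
  have h2 := N_ge D
  have h3 : D.ε * D.N ≤ 1 / 100 * D.N := mul_le_mul_of_nonneg_right h1 (by linarith)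
  linarith

theorem T3_bd (x : ℝ) : |(k3 D).T x| ≤ 1 + D.N ∧ |(k3 D).T1 x| ≤ 1 + D.N ∧
    |(k3 D).T2 x| ≤ 1 + D.N := by
  have h0 := D.ε_pos
  have h1 := N_ge D
  have h2 := εN_le D
  have h3 : 0 < D.ε * D.N := by positivity
  have s1 := abs_le.1 (Real.abs_sin_le_one x)
  have c1 := abs_le.1 (Real.abs_cos_le_one x)
  have s2 := abs_le.1 (Real.abs_sin_le_one (2 * x))
  have c2 := abs_le.1 (Real.abs_cos_le_one (2 * x))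
  have p1 : D.ε * D.N * Real.sin (2 * x) ≤ D.ε * D.N * 1 :=
    mul_le_mul_of_nonneg_left s2.2 h3.le
  have p2 : D.ε * D.N * (-1) ≤ D.ε * D.N * Real.sin (2 * x) :=
    mul_le_mul_of_nonneg_left s2.1 h3.le
  have p3 : D.ε * D.N * Real.cos (2 * x) ≤ D.ε * D.N * 1 :=
    mul_le_mul_of_nonneg_left c2.2 h3.le
  have p4 : D.ε * D.N * (-1) ≤ D.ε * D.N * Real.cos (2 * x) :=
    mul_le_mul_of_nonneg_left c2.1 h3.le
  refine ⟨?_, ?_, ?_⟩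
  · show |Real.sin x + D.ε * D.N * Real.sin (2 * x)| ≤ 1 + D.N
    rw [abs_le]; constructor <;> linarith
  · show |Real.cos x + D.ε * D.N * (2 * Real.cos (2 * x))| ≤ 1 + D.N
    have e : D.ε * D.N * (2 * Real.cos (2 * x)) = 2 * (D.ε * D.N * Real.cos (2 * x)) := by ring
    rw [e, abs_le]; constructor <;> linarith
  · show |-Real.sin x + D.ε * D.N * (2 * -(2 * Real.sin (2 * x)))| ≤ 1 + D.N
    have e : D.ε * D.N * (2 * -(2 * Real.sin (2 * x))) =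
      -(4 * (D.ε * D.N * Real.sin (2 * x))) := by ring
    rw [e, abs_le]; constructor <;> linarith

theorem T2_bd (x : ℝ) : |(k2 D).T x| ≤ D.N ∧ |(k2 D).T1 x| ≤ D.N ∧ |(k2 D).T2 x| ≤ D.N := by
  have h1 := N_ge D
  have hs := Real.abs_sin_le_one x
  have hc := Real.abs_cos_le_one x
  have e1 : D.N * |Real.sin x| ≤ D.N * 1 := mul_le_mul_of_nonneg_left hs (by linarith)
  have e2 : D.N * |Real.cos x| ≤ D.N * 1 := mul_le_mul_of_nonneg_left hc (by linarith)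
  refine ⟨?_, ?_, ?_⟩
  · show |-(D.N * Real.cos x)| ≤ D.N
    rw [abs_neg, abs_mul, abs_of_nonneg (by linarith : 0 ≤ D.N)]; linarith
  · show |D.N * Real.sin x| ≤ D.N
    rw [abs_mul, abs_of_nonneg (by linarith : 0 ≤ D.N)]; linarith
  · show |D.N * Real.cos x| ≤ D.N
    rw [abs_mul, abs_of_nonneg (by linarith : 0 ≤ D.N)]; linarith

theorem T4_bd (x : ℝ) : |(k4 D).T x| ≤ 1 ∧ |(k4 D).T1 x| ≤ 1 ∧ |(k4 D).T2 x| ≤ 1 := by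
  refine ⟨Real.abs_sin_le_one x, Real.abs_cos_le_one x, ?_⟩
  show |-Real.sin x| ≤ 1
  rw [abs_neg]; exact Real.abs_sin_le_one x

theorem bdd1 {φ y : ℝ} (x : ℝ) (hy : |y| ≤ 1) : (k1 D).Bdd D.M φ y x := by
  obtain ⟨⟨h1, h2, h3⟩, -⟩ := D.bdA φ
  obtain ⟨h4, h5, h6⟩ := q_bd D hy
  have hM := M_ge D
  refine ⟨h1, h2, h3, h4, h5, h6, ?_, ?_, ?_⟩
  · show |(1 : ℝ)| ≤ D.M
    rw [abs_one]; linarith
  · show |(0 : ℝ)| ≤ D.M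
    rw [abs_zero]; linarith
  · show |(0 : ℝ)| ≤ D.M
    rw [abs_zero]; linarith

theorem bdd2 {φ y : ℝ} (x : ℝ) (hy : |y| ≤ 1) : (k2 D).Bdd D.M φ y x := by
  obtain ⟨-, ⟨h1, h2, h3⟩, -⟩ := D.bdA φ
  obtain ⟨-, ⟨h4, h5, h6⟩, -⟩ := D.bdB y hy
  obtain ⟨h7, h8, h9⟩ := T2_bd D x
  have hM := D.hM
  have hN := N_ge D
  exact ⟨h1, h2, h3, h4, h5, h6, by linarith, by linarith, by linarith⟩

theorem bdd3 {φ y : ℝ} (x : ℝ) (hy : |y| ≤ 1) : (k3 D).Bdd D.M φ y x := by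
  obtain ⟨-, ⟨h1, h2, h3⟩, -⟩ := D.bdA φ
  obtain ⟨-, -, ⟨h4, h5, h6⟩, -⟩ := D.bdB y hy
  obtain ⟨h7, h8, h9⟩ := T3_bd D x
  have hM := D.hM
  have hN := N_ge D
  exact ⟨h1, h2, h3, h4, h5, h6, by linarith, by linarith, by linarith⟩

theorem bdd4 {φ y : ℝ} (x : ℝ) (hy : |y| ≤ 1) : (k4 D).Bdd D.M φ y x := by
  obtain ⟨-, -, ⟨h1, h2, h3⟩, -⟩ := D.bdA φ
  obtain ⟨-, -, -, ⟨h4, h5, h6⟩, -⟩ := D.bdB y hy
  obtain ⟨h7, h8, h9⟩ := T4_bd D x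
  have hM := D.hM
  have hN := N_ge D
  exact ⟨h1, h2, h3, h4, h5, h6, by linarith, by linarith, by linarith⟩

/-! ### the fifth block -/

theorem a5 {τ : ℝ} (φ t : ℝ) :
    D.Δ / τ * (k5 D).a τ φ t = D.Δ / τ * (fS D.ℓ φ * D.bT (t / τ - 1)) := by
  show D.Δ / τ * (fS D.ℓ φ * D.bT (t / τ - 1) * 1) = _
  rw [mul_one]

theorem b5 {τ : ℝ} (hτ : τ ≠ 0) (φ t : ℝ) :
    D.Δ / τ * (k5 D).b τ φ t = D.Δ * (deriv (fS D.ℓ) φ * D.qT1 (t / τ - 1)) := by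
  show D.Δ / τ * (τ * (deriv (fS D.ℓ) φ * D.qT1 (t / τ - 1) * 1) +
    fS D.ℓ φ * (2 * Real.cos (2 * φ)) * D.qT1 (t / τ - 1) * 0) = _
  field_simp
  ring

theorem d5 {τ : ℝ} (hτ : τ ≠ 0) (φ t : ℝ) :
    D.Δ / τ * (k5 D).d τ φ t = D.Δ * (fS D.ℓ φ * D.qT1 (t / τ - 1)) := by
  show D.Δ / τ * (τ * (fS D.ℓ φ * D.qT1 (t / τ - 1) * 1)) = _
  field_simp

theorem c5 {τ : ℝ} (hτ : τ ≠ 0) (φ t : ℝ) :
    D.Δ / τ * (k5 D).c τ φ t = D.Δ * (τ * (fS D.ℓ φ * D.qT (t / τ - 1)) +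
      τ * (deriv (deriv (fS D.ℓ)) φ * D.qT (t / τ - 1)) -
      t * (fS D.ℓ φ * D.qT1 (t / τ - 1))) := by
  show D.Δ / τ * (τ ^ 2 * (fS D.ℓ φ * D.qT (t / τ - 1) * 1) +
    (τ ^ 2 * (deriv (deriv (fS D.ℓ)) φ * D.qT (t / τ - 1) * 1) +
      τ * (2 * deriv (fS D.ℓ) φ * (2 * Real.cos (2 * φ)) * D.qT (t / τ - 1) * 0) +
      τ * (fS D.ℓ φ * (-(4 * Real.sin (2 * φ))) * D.qT (t / τ - 1) * 0) +
      fS D.ℓ φ * (2 * Real.cos (2 * φ)) ^ 2 * D.qT (t / τ - 1) * 0) -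
    t * (τ * (fS D.ℓ φ * D.qT1 (t / τ - 1) * 1))) = _
  field_simp
  ring

theorem b5_bd {τ : ℝ} (hτ : τ ≠ 0) (φ t : ℝ) : |D.Δ / τ * (k5 D).b τ φ t| ≤ D.M * D.Δ := by
  rw [b5 D hτ]
  have h1 := D.Δ_pos
  obtain ⟨-, -, -, ⟨h2, h3, h4⟩⟩ := D.bdA φ
  have h5 := D.qT1_mem (t / τ - 1)
  have h6 : |D.qT1 (t / τ - 1)| ≤ 1 := abs_le.2 ⟨h5.1, by linarith [h5.2]⟩
  have hM := M_ge D
  rw [abs_mul, abs_of_pos h1, abs_mul, mul_comm]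
  have h7 : |deriv (fS D.ℓ) φ| * |D.qT1 (t / τ - 1)| ≤ D.M * 1 :=
    mul_le_mul h3 h6 (abs_nonneg _) (by linarith)
  calc |deriv (fS D.ℓ) φ| * |D.qT1 (t / τ - 1)| * D.Δ ≤ D.M * 1 * D.Δ :=
        mul_le_mul_of_nonneg_right h7 h1.le
    _ = D.M * D.Δ := by ring

theorem c5_bd {τ φ t : ℝ} (hτ : 0 < τ) (hy : |t / τ - 1| ≤ 1) (ht : 0 < t)
    (ht2 : t ≤ 2 * τ) : |D.Δ / τ * (k5 D).c τ φ t| ≤ 4 * D.M ^ 3 * τ := by
  rw [c5 D hτ.ne']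
  have h1 := D.Δ_pos
  have h1' := D.Δ_le
  obtain ⟨-, -, -, ⟨h2, h3, h4⟩⟩ := D.bdA φ
  have h5 := D.qT1_mem (t / τ - 1)
  have h6 : |D.qT1 (t / τ - 1)| ≤ 1 := abs_le.2 ⟨h5.1, by linarith [h5.2]⟩
  obtain ⟨-, -, -, -, h7⟩ := D.bdB _ hy
  have hM := M_ge D
  have p1 : |fS D.ℓ φ * D.qT (t / τ - 1)| ≤ D.M * D.M := by
    rw [abs_mul]; exact mul_le_mul h2 h7 (abs_nonneg _) (by linarith)
  have p2 : |deriv (deriv (fS D.ℓ)) φ * D.qT (t / τ - 1)| ≤ D.M * D.M := by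
    rw [abs_mul]; exact mul_le_mul h4 h7 (abs_nonneg _) (by linarith)
  have p3 : |fS D.ℓ φ * D.qT1 (t / τ - 1)| ≤ D.M * D.M := by
    rw [abs_mul]; exact mul_le_mul h2 (h6.trans (by linarith)) (abs_nonneg _) (by linarith)
  have q1 : |τ * (fS D.ℓ φ * D.qT (t / τ - 1))| ≤ τ * (D.M * D.M) := by
    rw [abs_mul, abs_of_pos hτ]; exact mul_le_mul_of_nonneg_left p1 hτ.le
  have q2 : |τ * (deriv (deriv (fS D.ℓ)) φ * D.qT (t / τ - 1))| ≤ τ * (D.M * D.M) := by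
    rw [abs_mul, abs_of_pos hτ]; exact mul_le_mul_of_nonneg_left p2 hτ.le
  have q3 : |t * (fS D.ℓ φ * D.qT1 (t / τ - 1))| ≤ 2 * τ * (D.M * D.M) := by
    rw [abs_mul, abs_of_pos ht]
    exact mul_le_mul ht2 p3 (abs_nonneg _) (by linarith)
  have q4 : |τ * (fS D.ℓ φ * D.qT (t / τ - 1)) +
      τ * (deriv (deriv (fS D.ℓ)) φ * D.qT (t / τ - 1)) -
      t * (fS D.ℓ φ * D.qT1 (t / τ - 1))| ≤ 4 * (τ * (D.M * D.M)) := by
    have a1 := abs_le.1 q1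
    have a2 := abs_le.1 q2
    have a3 := abs_le.1 q3
    rw [abs_le]; constructor <;> linarith
  rw [abs_mul, abs_of_pos h1]
  have hMM : D.M * D.M ≤ D.M ^ 3 := by
    have : D.M ^ 3 = D.M * (D.M * D.M) := by ring
    rw [this]
    exact le_mul_of_one_le_left (by positivity) (by linarith)
  calc D.Δ * |τ * (fS D.ℓ φ * D.qT (t / τ - 1)) +
      τ * (deriv (deriv (fS D.ℓ)) φ * D.qT (t / τ - 1)) -
      t * (fS D.ℓ φ * D.qT1 (t / τ - 1))| ≤ 1 * (4 * (τ * (D.M * D.M))) :=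
        mul_le_mul h1' q4 (abs_nonneg _) zero_le_one
    _ = 4 * (D.M * D.M) * τ := by ring
    _ ≤ 4 * D.M ^ 3 * τ := by
        apply mul_le_mul_of_nonneg_right _ hτ.le
        linarith

end IslC

end Pool.Agent.Helper41.MU
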