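import Mathlib
import Pool.Agent.Helper41.MU.IslC

/-!
# One umbilic-free island (MP_7d7bd6_gt): the main theorem on islands
-/

set_option autoImplicit false

open Set Filter Topology
open scoped ContDiff

namespace Pool.Agent.Helper41.MU

namespace Island

open IslB IslC

variable (D : Data)

theorem blk_zero (X : Blk) {τ φ t : ℝ} (hB : X.B (t / τ - 1) = 0) (hB1 : X.B1 (t / τ - 1) = 0)
    (hB2 : X.B2 (t / τ - 1) = 0) :
    X.a τ φ t = 0 ∧ X.b τ φ t = 0 ∧ X.c τ φ t = 0 ∧ X.d τ φ t = 0 := by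
  unfold Blk.a Blk.b Blk.c Blk.d
  rw [hB, hB1, hB2]
  refine ⟨by ring, by ring, by ring, by ring⟩

theorem cells_zero {τ φ t : ℝ} (hy : 1 / 2 < |t / τ - 1|) :
    ((k2 D).a τ φ t = 0 ∧ (k2 D).b τ φ t = 0 ∧ (k2 D).c τ φ t = 0 ∧ (k2 D).d τ φ t = 0) ∧
    ((k3 D).a τ φ t = 0 ∧ (k3 D).b τ φ t = 0 ∧ (k3 D).c τ φ t = 0 ∧ (k3 D).d τ φ t = 0) ∧
    ((k4 D).a τ φ t = 0 ∧ (k4 D).b τ φ t = 0 ∧ (k4 D).c τ φ t = 0 ∧ (k4 D).d τ φ t = 0) := by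
  have h2 := dz D.κ_zero hy
  have h3 := dz (fY_zero D) hy
  have h4 := dz (fD_zero D) hy
  exact ⟨blk_zero (k2 D) h2.1 h2.2.1 h2.2.2, blk_zero (k3 D) h3.1 h3.2.1 h3.2.2,
    blk_zero (k4 D) h4.1 h4.2.1 h4.2.2⟩

theorem zero {τ : ℝ} (hτ : 0 < τ) (φ t : ℝ) (ht : 8 / 5 * τ ≤ t) :
    comb D τ ((k1 D).a τ φ t) ((k2 D).a τ φ t) ((k3 D).a τ φ t) ((k4 D).a τ φ t)
      ((k5 D).a τ φ t) = 0 ∧
    comb D τ ((k1 D).b τ φ t) ((k2 D).b τ φ t) ((k3 D).b τ φ t) ((k4 D).b τ φ t)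
      ((k5 D).b τ φ t) = 0 ∧
    comb D τ ((k1 D).c τ φ t) ((k2 D).c τ φ t) ((k3 D).c τ φ t) ((k4 D).c τ φ t)
      ((k5 D).c τ φ t) = 0 ∧
    comb D τ ((k1 D).d τ φ t) ((k2 D).d τ φ t) ((k3 D).d τ φ t) ((k4 D).d τ φ t)
      ((k5 D).d τ φ t) = 0 := by
  have hy : 3 / 5 ≤ t / τ - 1 := by
    have : 8 / 5 ≤ t / τ := by rw [le_div_iff₀ hτ]; exact ht
    linarith
  have hya : 1 / 2 < |t / τ - 1| := by
    rw [abs_of_nonneg (by linarith)]; linarith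
  obtain ⟨⟨a2, b2, c2, d2⟩, ⟨a3, b3, c3, d3⟩, ⟨a4, b4, c4, d4⟩⟩ := cells_zero D (φ := φ) hya
  obtain ⟨a1, b1, c1, d1⟩ := blk_zero (k1 D) (τ := τ) (φ := φ) (t := t)
    (D.q_zero _ (by linarith)) (D.q1_zero _ (by linarith)) (D.b_zero _ (by linarith))
  obtain ⟨a5, b5, c5, d5⟩ := blk_zero (k5 D) (τ := τ) (φ := φ) (t := t)
    (D.qT_zero _ (by linarith)) (D.qT1_zero _ (by linarith)) (D.bT_zero _ (by linarith))
  rw [a1, a2, a3, a4, a5, b1, b2, b3, b4, b5, c1, c2, c3, c4, c5, d1, d2, d3, d4, d5]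
  unfold comb
  simp

theorem pow3 : D.M ^ 2 * D.M = D.M ^ 3 := by ring

theorem M2_le : D.M ^ 2 ≤ D.M ^ 3 := by
  have h := M_ge D
  rw [← pow3]
  exact le_mul_of_one_le_right (by positivity) (by linarith)

theorem M1_le : D.M ≤ D.M ^ 2 := by
  have h := M_ge D
  rw [sq]
  exact le_mul_of_one_le_right (by linarith) (by linarith)

theorem y_abs {τ t : ℝ} (hτ : 0 < τ) (ht : 0 < t) (ht2 : t ≤ 2 * τ) : |t / τ - 1| ≤ 1 := by
  have h1 : 0 < t / τ := div_pos ht hτ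
  have h2 : t / τ ≤ 2 := by rw [div_le_iff₀ hτ]; exact ht2
  rw [abs_le]; constructor <;> linarith

theorem passed {τ : ℝ} (hτ : 0 < τ) (hτ0 : τ ≤ D.t0) (φ t : ℝ) (ht : 0 < t)
    (ht2 : t < 2 / 5 * τ) :
    comb D τ ((k1 D).a τ φ t) ((k2 D).a τ φ t) ((k3 D).a τ φ t) ((k4 D).a τ φ t)
      ((k5 D).a τ φ t) = 0 ∧
    |comb D τ ((k1 D).b τ φ t) ((k2 D).b τ φ t) ((k3 D).b τ φ t) ((k4 D).b τ φ t)
      ((k5 D).b τ φ t) + D.Δ * deriv (fS D.ℓ) φ| ≤ 3 * D.M ^ 2 * τ ∧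
    |comb D τ ((k1 D).c τ φ t) ((k2 D).c τ φ t) ((k3 D).c τ φ t) ((k4 D).c τ φ t)
      ((k5 D).c τ φ t)| ≤ 40 * D.M ^ 3 * τ ∧
    |comb D τ ((k1 D).d τ φ t) ((k2 D).d τ φ t) ((k3 D).d τ φ t) ((k4 D).d τ φ t)
      ((k5 D).d τ φ t) + D.Δ * fS D.ℓ φ| ≤ 3 * D.M ^ 2 * τ := by
  have hτ1 : τ ≤ 1 / 100 := hτ0.trans D.t0_le
  have hM := M_ge D
  have hy : t / τ - 1 ≤ -(3 / 5) := by
    have : t / τ < 2 / 5 := by rw [div_lt_iff₀ hτ]; exact ht2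
    linarith
  have hya : 1 / 2 < |t / τ - 1| := by
    rw [abs_of_nonpos (by linarith)]; linarith
  have hy1 : |t / τ - 1| ≤ 1 := y_abs hτ ht (by linarith)
  obtain ⟨⟨a2, b2, c2, d2⟩, ⟨a3, b3, c3, d3⟩, ⟨a4, b4, c4, d4⟩⟩ := cells_zero D (φ := φ) hya
  have hb0 : D.b (t / τ - 1) = 0 := D.b_zero _ (by linarith)
  have hbT0 : D.bT (t / τ - 1) = 0 := D.bT_zero _ (by linarith)
  have hqT1 : D.qT1 (t / τ - 1) = -1 := D.qT1_neg _ (by linarith)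
  obtain ⟨m1, m2, m3, -, m5⟩ := (bdd1 D (φ := φ) (Real.sin (2 * φ) / τ) hy1).main hτ hτ1 ht
    (by linarith)
  obtain ⟨q0, q1, -⟩ := q_bd D hy1
  obtain ⟨⟨A0, A1, -⟩, -⟩ := D.bdA φ
  have hsq : D.M * D.M = D.M ^ 2 := by ring
  unfold comb
  rw [a2, a3, a4, b2, b3, b4, c2, c3, c4, d2, d3, d4, IslC.a5 D, IslC.b5 D hτ.ne',
    IslC.d5 D hτ.ne', hbT0, hqT1]
  refine ⟨?_, ?_, ?_, ?_⟩
  · have : (k1 D).a τ φ t = 0 := by
      show fS D.χ φ * D.b (t / τ - 1) * 1 = 0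
      rw [hb0]; ring
    rw [this]; ring
  · have e : (k1 D).b τ φ t = τ * (deriv (fS D.χ) φ * D.q1 (t / τ - 1)) := by
      show τ * (deriv (fS D.χ) φ * D.q1 (t / τ - 1) * 1) +
        fS D.χ φ * (2 * Real.cos (2 * φ)) * D.q1 (t / τ - 1) * 0 = _
      ring
    rw [e]
    have e2 : 3 * (τ * (deriv (fS D.χ) φ * D.q1 (t / τ - 1))) + D.ε * 0 + D.ε * 0 +
        -(3 * D.ε) * 0 + D.Δ * (deriv (fS D.ℓ) φ * -1) + D.Δ * deriv (fS D.ℓ) φ =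
        3 * (τ * (deriv (fS D.χ) φ * D.q1 (t / τ - 1))) := by ring
    rw [e2, abs_mul, abs_mul, abs_of_pos (by norm_num : (0 : ℝ) < 3), abs_of_pos hτ, abs_mul]
    have h1 : |deriv (fS D.χ) φ| * |D.q1 (t / τ - 1)| ≤ D.M * D.M :=
      mul_le_mul A1 q1 (abs_nonneg _) (by linarith)
    have h2 := mul_le_mul_of_nonneg_left h1 hτ.le
    rw [hsq] at h2
    linarith
  · have h0 : (k1 D).A φ * (2 * Real.cos (2 * φ)) ^ 2 * (k1 D).B (t / τ - 1) *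
      (k1 D).T2 (Real.sin (2 * φ) / τ) = 0 := by
      show (k1 D).A φ * (2 * Real.cos (2 * φ)) ^ 2 * (k1 D).B (t / τ - 1) * 0 = 0
      ring
    rw [h0, sub_zero] at m3
    have h5 := c5_bd D (φ := φ) hτ hy1 ht (by linarith)
    have a1 := abs_le.1 m3
    have a2 := abs_le.1 h5
    have hp : 0 ≤ D.M ^ 3 * τ := by positivity
    rw [abs_le]; constructor <;> linarith
  · have e : (k1 D).d τ φ t = τ * (fS D.χ φ * D.q1 (t / τ - 1)) := by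
      show τ * (fS D.χ φ * D.q1 (t / τ - 1) * 1) = _
      ring
    rw [e]
    have e2 : 3 * (τ * (fS D.χ φ * D.q1 (t / τ - 1))) + D.ε * 0 + D.ε * 0 +
        -(3 * D.ε) * 0 + D.Δ * (fS D.ℓ φ * -1) + D.Δ * fS D.ℓ φ =
        3 * (τ * (fS D.χ φ * D.q1 (t / τ - 1))) := by ring
    rw [e2, abs_mul, abs_mul, abs_of_pos (by norm_num : (0 : ℝ) < 3), abs_of_pos hτ, abs_mul]
    have h1 : |fS D.χ φ| * |D.q1 (t / τ - 1)| ≤ D.M * D.M :=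
      mul_le_mul A0 q1 (abs_nonneg _) (by linarith)
    have h2 := mul_le_mul_of_nonneg_left h1 hτ.le
    rw [hsq] at h2
    linarith

theorem active_bounds {τ : ℝ} (hτ : 0 < τ) (hτ0 : τ ≤ D.t0) (φ t : ℝ) (ht : 0 < t)
    (ht2 : t < 8 / 5 * τ) :
    -(100 * D.M ^ 3) ≤ comb D τ ((k1 D).a τ φ t) ((k2 D).a τ φ t) ((k3 D).a τ φ t)
      ((k4 D).a τ φ t) ((k5 D).a τ φ t) ∧
    |comb D τ ((k1 D).b τ φ t) ((k2 D).b τ φ t) ((k3 D).b τ φ t) ((k4 D).b τ φ t)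
      ((k5 D).b τ φ t)| ≤ 100 * D.M ^ 3 ∧
    |comb D τ ((k1 D).c τ φ t) ((k2 D).c τ φ t) ((k3 D).c τ φ t) ((k4 D).c τ φ t)
      ((k5 D).c τ φ t)| ≤ 100 * D.M ^ 3 ∧
    comb D τ ((k1 D).d τ φ t) ((k2 D).d τ φ t) ((k3 D).d τ φ t) ((k4 D).d τ φ t)
      ((k5 D).d τ φ t) ≤ 100 * D.M ^ 3 := by
  have hτ1 : τ ≤ 1 / 100 := hτ0.trans D.t0_le
  have hM := M_ge D
  have hy1 : |t / τ - 1| ≤ 1 := y_abs hτ ht (by linarith)
  have hΔ := D.Δ_pos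
  have hε := D.ε_pos
  have hε1 := D.ε_le
  have hcc : |Real.cos (2 * φ)| ≤ 1 := Real.abs_cos_le_one _
  have hM3 : 0 < D.M ^ 3 := by positivity
  have hMτ : D.M ^ 3 * τ ≤ D.M ^ 3 * (1 / 100) := mul_le_mul_of_nonneg_left hτ1 hM3.le
  -- bounds for a general block
  have gen : ∀ X : Blk, X.Bdd D.M φ (t / τ - 1) (Real.sin (2 * φ) / τ) →
      |X.a τ φ t| ≤ 5 * D.M ^ 3 ∧ |X.b τ φ t| ≤ 5 * D.M ^ 3 ∧ |X.c τ φ t| ≤ 5 * D.M ^ 3 ∧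
      |X.d τ φ t| ≤ 5 * D.M ^ 3 := by
    intro X hX
    obtain ⟨m1, m2, m3, -, m5⟩ := hX.main hτ hτ1 ht (by linarith)
    have h1 : |X.z2 τ φ t| ≤ 2 * D.M ^ 3 := by
      have h2 := Isl.abs4 hcc hX.A hX.B1 hX.T1
      have e : X.z2 τ φ t = 2 * (Real.cos (2 * φ) * (X.A φ * X.B1 (t / τ - 1) *
          X.T1 (Real.sin (2 * φ) / τ))) := by
        unfold Blk.z2; ring
      rw [e, abs_mul, abs_of_pos (by norm_num : (0 : ℝ) < 2)]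
      linarith
    have h3 : |X.A φ * (2 * Real.cos (2 * φ)) ^ 2 * X.B (t / τ - 1) *
        X.T2 (Real.sin (2 * φ) / τ)| ≤ 4 * D.M ^ 3 := by
      have hc2 : |Real.cos (2 * φ) ^ 2| ≤ 1 := by
        rw [abs_pow]; exact pow_le_one₀ (abs_nonneg _) hcc
      have h2 := Isl.abs4 hc2 hX.A hX.B hX.T2
      have e : X.A φ * (2 * Real.cos (2 * φ)) ^ 2 * X.B (t / τ - 1) *
        X.T2 (Real.sin (2 * φ) / τ) = 4 * (Real.cos (2 * φ) ^ 2 * (X.A φ * X.B (t / τ - 1) *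
          X.T2 (Real.sin (2 * φ) / τ))) := by ring
      rw [e, abs_mul, abs_of_pos (by norm_num : (0 : ℝ) < 4)]
      linarith
    have a1 := abs_le.1 m2
    have a2 := abs_le.1 h1
    have a3 := abs_le.1 m3
    have a4 := abs_le.1 h3
    refine ⟨by linarith, ?_, ?_, by linarith⟩
    · rw [abs_le]; constructor <;> linarith
    · rw [abs_le]; constructor <;> linarith
  obtain ⟨ga1, gb1, gc1, gd1⟩ := gen (k1 D) (bdd1 D _ hy1)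
  obtain ⟨ga2, gb2, gc2, gd2⟩ := gen (k2 D) (bdd2 D _ hy1)
  obtain ⟨ga3, gb3, gc3, gd3⟩ := gen (k3 D) (bdd3 D _ hy1)
  obtain ⟨ga4, gb4, gc4, gd4⟩ := gen (k4 D) (bdd4 D _ hy1)
  have key : ∀ x : ℝ, |x| ≤ 5 * D.M ^ 3 → |D.ε * x| ≤ 5 * D.M ^ 3 := by
    intro x hx
    rw [abs_mul, abs_of_pos hε]
    calc D.ε * |x| ≤ 1 * (5 * D.M ^ 3) :=
          mul_le_mul (by linarith) hx (abs_nonneg _) zero_le_one
      _ = _ := one_mul _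
  have e4 : ∀ x : ℝ, -(3 * D.ε) * x = -(3 * (D.ε * x)) := fun x => by ring
  refine ⟨?_, ?_, ?_, ?_⟩
  · unfold comb
    have a1 := abs_le.1 ga1
    have a2 := abs_le.1 (key _ ga2)
    have a3 := abs_le.1 (key _ ga3)
    have a4 := abs_le.1 (key _ ga4)
    have a5 : 0 ≤ D.Δ / τ * (k5 D).a τ φ t := by
      rw [IslC.a5 D]
      exact mul_nonneg (div_pos hΔ hτ).le (mul_nonneg (D.ℓ_nonneg _) (D.bT_nonneg _))
    rw [e4]
    linarith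
  · unfold comb
    have a1 := abs_le.1 gb1
    have a2 := abs_le.1 (key _ gb2)
    have a3 := abs_le.1 (key _ gb3)
    have a4 := abs_le.1 (key _ gb4)
    have a5 := abs_le.1 (b5_bd D hτ.ne' φ t)
    have a6 : D.M * D.Δ ≤ D.M ^ 3 := by
      have : D.M * D.Δ ≤ D.M * 1 := mul_le_mul_of_nonneg_left D.Δ_le (by linarith)
      linarith [M1_le D, M2_le D]
    rw [e4, abs_le]
    constructor <;> linarith
  · unfold comb
    have a1 := abs_le.1 gc1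
    have a2 := abs_le.1 (key _ gc2)
    have a3 := abs_le.1 (key _ gc3)
    have a4 := abs_le.1 (key _ gc4)
    have a5 := abs_le.1 (c5_bd D (φ := φ) hτ hy1 ht (by linarith))
    rw [e4, abs_le]
    constructor <;> linarith
  · unfold comb
    have a1 := abs_le.1 gd1
    have a2 := abs_le.1 (key _ gd2)
    have a3 := abs_le.1 (key _ gd3)
    have a4 := abs_le.1 (key _ gd4)
    have a5 : D.Δ / τ * (k5 D).d τ φ t ≤ 0 := by
      rw [IslC.d5 D hτ.ne']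
      have h1 : fS D.ℓ φ * D.qT1 (t / τ - 1) ≤ 0 :=
        mul_nonpos_of_nonneg_of_nonpos (D.ℓ_nonneg _) (D.qT1_mem _).2
      exact mul_nonpos_of_nonneg_of_nonpos hΔ.le h1
    rw [e4]
    linarith

end Island

end Pool.Agent.Helper41.MU
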