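import Mathlib
import Pool.Agent.Helper41.MU.Island

/-!
# One umbilic-free island (MP_7d7bd6_gt): non-vanishing, and the summary `island_jet`
-/

set_option autoImplicit false

open Set Filter Topology
open scoped ContDiff

namespace Pool.Agent.Helper41.MU

namespace IslandMain

open IslB IslC Island

variable (D : Data)

/-- main part of the first expression in the cells -/
noncomputable def Z1 (τ φ t : ℝ) : ℝ :=
  (k2 D).z1 τ φ t + (k3 D).z1 τ φ t - 3 * (k4 D).z1 τ φ t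

noncomputable def Z2 (τ φ t : ℝ) : ℝ :=
  (k2 D).z2 τ φ t + (k3 D).z2 τ φ t - 3 * (k4 D).z2 τ φ t

theorem z_bd (X : Blk) {τ φ t P Q : ℝ} (hP : 0 ≤ P)
    (hA : |X.A φ| ≤ 1) (hB : |X.B (t / τ - 1)| ≤ P) (hB1 : |X.B1 (t / τ - 1)| ≤ P)
    (hB2 : |X.B2 (t / τ - 1)| ≤ P) (hT : |X.T (Real.sin (2 * φ) / τ)| ≤ Q)
    (hT1 : |X.T1 (Real.sin (2 * φ) / τ)| ≤ Q) (hT2 : |X.T2 (Real.sin (2 * φ) / τ)| ≤ Q) :
    |X.z1 τ φ t| ≤ 5 * (P * Q) ∧ |X.z2 τ φ t| ≤ 2 * (P * Q) := by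
  have hQ : 0 ≤ Q := (abs_nonneg _).trans hT
  have hc : |Real.cos (2 * φ)| ≤ 1 := Real.abs_cos_le_one _
  have hc2 : |Real.cos (2 * φ) ^ 2| ≤ 1 := by
    rw [abs_pow]; exact pow_le_one₀ (abs_nonneg _) hc
  have key : ∀ {w x u v : ℝ}, |w| ≤ 1 → |x| ≤ 1 → |u| ≤ P → |v| ≤ Q →
      |w * (x * u * v)| ≤ P * Q := by
    intro w x u v hw hx hu hv
    rw [abs_mul, abs_mul, abs_mul]
    calc |w| * (|x| * |u| * |v|) ≤ 1 * (1 * P * Q) :=
          mul_le_mul hw (mul_le_mul (mul_le_mul hx hu (abs_nonneg _) zero_le_one) hv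
            (abs_nonneg _) (by positivity)) (by positivity) zero_le_one
      _ = P * Q := by ring
  have p1 := abs_le.1 (key hc2 hA hB hT2)
  have p2 := abs_le.1 (key (w := 1) (by rw [abs_one]) hA hB2 hT)
  have p3 := abs_le.1 (key hc hA hB1 hT1)
  have e1 : X.z1 τ φ t = 4 * (Real.cos (2 * φ) ^ 2 * (X.A φ * X.B (t / τ - 1) *
      X.T2 (Real.sin (2 * φ) / τ))) - 1 * (X.A φ * X.B2 (t / τ - 1) *
      X.T (Real.sin (2 * φ) / τ)) := by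
    unfold Blk.z1; ring
  have e2 : X.z2 τ φ t = 2 * (Real.cos (2 * φ) * (X.A φ * X.B1 (t / τ - 1) *
      X.T1 (Real.sin (2 * φ) / τ))) := by
    unfold Blk.z2; ring
  constructor
  · rw [e1, abs_le]; constructor <;> linarith
  · rw [e2, abs_le]; constructor <;> linarith

theorem Z_bd {τ φ t : ℝ} (hy : |t / τ - 1| ≤ 1) :
    |Z1 D τ φ t| ≤ D.M0 * (22 * D.N + 20) ∧ |Z2 D τ φ t| ≤ D.M0 * (22 * D.N + 20) := by
  have hM0 := D.hM0
  have hN := N_ge D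
  obtain ⟨⟨u1, u2, u3⟩, ⟨v1, v2, v3⟩, ⟨w1, w2, w3⟩⟩ := D.bd0 _ hy
  obtain ⟨s1, s2, s3⟩ := T2_bd D (Real.sin (2 * φ) / τ)
  obtain ⟨t1, t2, t3⟩ := T3_bd D (Real.sin (2 * φ) / τ)
  obtain ⟨r1, r2, r3⟩ := T4_bd D (Real.sin (2 * φ) / τ)
  have hη : |fC D.η φ| ≤ 1 := by
    unfold fC
    rw [abs_of_nonneg (D.η_nonneg _)]; exact D.η_le _
  have hηχ : |fCS D.η D.χ φ| ≤ 1 := by
    unfold fCS
    rw [abs_of_nonneg (mul_nonneg (D.η_nonneg _) (D.χ_nonneg _))]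
    exact mul_le_one₀ (D.η_le _) (D.χ_nonneg _) (D.χ_le _)
  have h2 := z_bd (k2 D) (τ := τ) (φ := φ) (t := t) (P := D.M0) (Q := D.N) (by linarith)
    hη u1 u2 u3 s1 s2 s3
  have h3 := z_bd (k3 D) (τ := τ) (φ := φ) (t := t) (P := D.M0) (Q := 1 + D.N) (by linarith)
    hη v1 v2 v3 t1 t2 t3
  have h4 := z_bd (k4 D) (τ := τ) (φ := φ) (t := t) (P := D.M0) (Q := 1) (by linarith)
    hηχ w1 w2 w3 r1 r2 r3
  have hMN : 0 ≤ D.M0 * D.N := by positivity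
  have a1 := abs_le.1 h2.1
  have a2 := abs_le.1 h3.1
  have a3 := abs_le.1 h4.1
  have b1 := abs_le.1 h2.2
  have b2 := abs_le.1 h3.2
  have b3 := abs_le.1 h4.2
  have e1 : D.M0 * (1 + D.N) = D.M0 + D.M0 * D.N := by ring
  have e2 : D.M0 * (22 * D.N + 20) = 22 * (D.M0 * D.N) + 20 * D.M0 := by ring
  rw [e1] at a2 b2
  rw [e2]
  unfold Z1 Z2
  constructor
  · rw [abs_le]; constructor <;> linarith
  · rw [abs_le]; constructor <;> linarith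

theorem Z_near {τ φ t : ℝ} (hn : Real.cos (2 * φ) ≤ -(19 / 20)) (hy : |t / τ - 1| < 1 / 4) :
    Z1 D τ φ t = 4 * Real.cos (2 * φ) ^ 2 * D.N * Real.cos (Real.sin (2 * φ) / τ) -
      Real.sin (Real.sin (2 * φ) / τ) * (4 * Real.cos (2 * φ) ^ 2 *
        (t / τ - 1 - 3 * (D.χ (Real.sin (2 * φ)) * (D.q1 (t / τ - 1) - D.q1 0))) +
        -(3 * (D.χ (Real.sin (2 * φ)) * deriv D.b (t / τ - 1)))) -
      16 * Real.cos (2 * φ) ^ 2 * D.ε * D.N * (t / τ - 1) *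
        (2 * Real.sin (Real.sin (2 * φ) / τ) * Real.cos (Real.sin (2 * φ) / τ)) ∧
    Z2 D τ φ t = 2 * Real.cos (2 * φ) * ((1 - 3 * (D.χ (Real.sin (2 * φ)) * D.b (t / τ - 1))) *
      Real.cos (Real.sin (2 * φ) / τ) +
      2 * D.ε * D.N * (2 * Real.cos (Real.sin (2 * φ) / τ) ^ 2 - 1)) := by
  have hη : D.η (Real.cos (2 * φ)) = 1 := D.η_one _ hn
  obtain ⟨u1, u2, u3⟩ := κ_near D hy
  obtain ⟨v1, v2, v3⟩ := fY_near D hy
  obtain ⟨w1, w2, w3⟩ := fD_near D hy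
  have hs := Real.sin_two_mul (Real.sin (2 * φ) / τ)
  have hc := Real.cos_two_mul (Real.sin (2 * φ) / τ)
  have e2 : (k2 D).z1 τ φ t = 4 * Real.cos (2 * φ) ^ 2 * D.N *
      Real.cos (Real.sin (2 * φ) / τ) := by
    show D.η (Real.cos (2 * φ)) * ((2 * Real.cos (2 * φ)) ^ 2 * D.κ (t / τ - 1) *
      (D.N * Real.cos (Real.sin (2 * φ) / τ)) - deriv (deriv D.κ) (t / τ - 1) *
      -(D.N * Real.cos (Real.sin (2 * φ) / τ))) = _
    rw [hη, u1, u3]; ring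
  have e3 : (k3 D).z1 τ φ t = 4 * Real.cos (2 * φ) ^ 2 * (t / τ - 1) *
      (-Real.sin (Real.sin (2 * φ) / τ) + D.ε * D.N * (2 * -(2 *
        (2 * Real.sin (Real.sin (2 * φ) / τ) * Real.cos (Real.sin (2 * φ) / τ))))) := by
    show D.η (Real.cos (2 * φ)) * ((2 * Real.cos (2 * φ)) ^ 2 * fY D.κ (t / τ - 1) *
      (-Real.sin (Real.sin (2 * φ) / τ) + D.ε * D.N * (2 * -(2 *
        Real.sin (2 * (Real.sin (2 * φ) / τ))))) - deriv (deriv (fY D.κ)) (t / τ - 1) *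
      (Real.sin (Real.sin (2 * φ) / τ) + D.ε * D.N * Real.sin (2 * (Real.sin (2 * φ) / τ))))
        = _
    rw [hη, v1, v3, hs]; ring
  have e4 : (k4 D).z1 τ φ t = D.χ (Real.sin (2 * φ)) * ((2 * Real.cos (2 * φ)) ^ 2 *
      (D.q1 (t / τ - 1) - D.q1 0) * -Real.sin (Real.sin (2 * φ) / τ) -
      deriv D.b (t / τ - 1) * Real.sin (Real.sin (2 * φ) / τ)) := by
    show D.η (Real.cos (2 * φ)) * D.χ (Real.sin (2 * φ)) * ((2 * Real.cos (2 * φ)) ^ 2 *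
      fD D.κ D.q1 (t / τ - 1) * -Real.sin (Real.sin (2 * φ) / τ) -
      deriv (deriv (fD D.κ D.q1)) (t / τ - 1) * Real.sin (Real.sin (2 * φ) / τ)) = _
    rw [hη, w1, w3]; ring
  have f2 : (k2 D).z2 τ φ t = 0 := by
    show D.η (Real.cos (2 * φ)) * (2 * Real.cos (2 * φ)) * deriv D.κ (t / τ - 1) *
      (D.N * Real.sin (Real.sin (2 * φ) / τ)) = _
    rw [u2]; ring
  have f3 : (k3 D).z2 τ φ t = 2 * Real.cos (2 * φ) * (Real.cos (Real.sin (2 * φ) / τ) +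
      D.ε * D.N * (2 * (2 * Real.cos (Real.sin (2 * φ) / τ) ^ 2 - 1))) := by
    show D.η (Real.cos (2 * φ)) * (2 * Real.cos (2 * φ)) * deriv (fY D.κ) (t / τ - 1) *
      (Real.cos (Real.sin (2 * φ) / τ) + D.ε * D.N * (2 *
        Real.cos (2 * (Real.sin (2 * φ) / τ)))) = _
    rw [hη, v2, hc]; ring
  have f4 : (k4 D).z2 τ φ t = D.χ (Real.sin (2 * φ)) * (2 * Real.cos (2 * φ)) *
      D.b (t / τ - 1) * Real.cos (Real.sin (2 * φ) / τ) := by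
    show D.η (Real.cos (2 * φ)) * D.χ (Real.sin (2 * φ)) * (2 * Real.cos (2 * φ)) *
      deriv (fD D.κ D.q1) (t / τ - 1) * Real.cos (Real.sin (2 * φ) / τ) = _
    rw [hη, w2]; ring
  unfold Z1 Z2
  rw [e2, e3, e4, f2, f3, f4]
  constructor <;> ring

theorem sqrt_bds {t : ℝ} (ht : 0 < t) : 1 ≤ √(1 + t ^ 2) ∧ √(1 + t ^ 2) ≤ 1 + t := by
  constructor
  · rw [Real.one_le_sqrt]; nlinarith
  · rw [Real.sqrt_le_left (by linarith)]; nlinarith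

theorem nonvan {τ : ℝ} (hτ : 0 < τ) (hτ0 : τ ≤ D.t0) (φ t : ℝ) (ht : 0 < t)
    (ht2 : t < 8 / 5 * τ) (e1 e2 : ℝ) (he1 : |e1| ≤ 60 * D.M ^ 3 * D.t0)
    (he2 : |e2| ≤ 5 * D.M ^ 2 * D.t0 + D.M * D.Δ)
    (h1 : -Real.cos (2 * φ) * (√(1 + t ^ 2) - t) +
      (comb D τ ((k1 D).c τ φ t) ((k2 D).c τ φ t) ((k3 D).c τ φ t)
        ((k4 D).c τ φ t) ((k5 D).c τ φ t) -
      (1 + t ^ 2) * comb D τ ((k1 D).a τ φ t) ((k2 D).a τ φ t) ((k3 D).a τ φ t)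
        ((k4 D).a τ φ t) ((k5 D).a τ φ t)) + e1 = 0)
    (h2 : Real.sin (2 * φ) / 2 * (1 - t / √(1 + t ^ 2)) +
      comb D τ ((k1 D).b τ φ t) ((k2 D).b τ φ t) ((k3 D).b τ φ t)
        ((k4 D).b τ φ t) ((k5 D).b τ φ t) + e2 = 0) : False := by
  have hτ1 : τ ≤ 1 / 100 := hτ0.trans D.t0_le
  have hM := M_ge D
  have hy1 : |t / τ - 1| ≤ 1 := y_abs hτ ht (by linarith)
  have hΔ := D.Δ_pos
  have hε := D.ε_pos
  have hε1 := D.ε_le
  have hM3 : 0 < D.M ^ 3 := by positivity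
  obtain ⟨sq1, sq2⟩ := sqrt_bds ht
  set r : ℝ := √(1 + t ^ 2) with hr
  set m : ℝ := Real.sin (2 * φ) with hm
  set n : ℝ := Real.cos (2 * φ) with hn
  have hmn : m ^ 2 + n ^ 2 = 1 := Real.sin_sq_add_cos_sq _
  have hma := abs_le.1 (Real.abs_sin_le_one (2 * φ))
  have hna : |n| ≤ 1 := Real.abs_cos_le_one (2 * φ)
  rw [← hm] at hma
  set y : ℝ := t / τ - 1 with hydef
  obtain ⟨p1, p2, p3, p4, p5⟩ := (bdd1 D (φ := φ) (Real.sin (2 * φ) / τ) hy1).main hτ hτ1 ht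
    (by linarith)
  obtain ⟨q1, q2, q3, q4, q5⟩ := (bdd2 D (φ := φ) (Real.sin (2 * φ) / τ) hy1).main hτ hτ1 ht
    (by linarith)
  obtain ⟨r1, r2, r3, r4, r5⟩ := (bdd3 D (φ := φ) (Real.sin (2 * φ) / τ) hy1).main hτ hτ1 ht
    (by linarith)
  obtain ⟨s1, s2, s3, s4, s5⟩ := (bdd4 D (φ := φ) (Real.sin (2 * φ) / τ) hy1).main hτ hτ1 ht
    (by linarith)
  have hk1 : (k1 D).z1 τ φ t = -(D.χ m * D.b y) := by
    show D.χ m * ((2 * Real.cos (2 * φ)) ^ 2 * D.q (t / τ - 1) * 0 - D.b (t / τ - 1) * 1) = _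
    ring
  have hk2 : (k1 D).z2 τ φ t = 0 := by
    show D.χ m * (2 * Real.cos (2 * φ)) * D.q1 (t / τ - 1) * 0 = _
    ring
  set T : ℝ := (1 + t ^ 2) * (D.Δ / τ * (k5 D).a τ φ t) with hT
  have hTe : T = (1 + t ^ 2) * (D.Δ / τ * (D.ℓ m * D.bT y)) := by
    rw [hT, IslC.a5 D]; rfl
  have hT0 : 0 ≤ T := by
    rw [hTe]
    exact mul_nonneg (by positivity) (mul_nonneg (div_pos hΔ hτ).le
      (mul_nonneg (D.ℓ_nonneg _) (D.bT_nonneg _)))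
  have hT1 : T ≠ 0 → |y| < 1 / 8 ∧ -D.om < m := by
    intro h
    constructor
    · by_contra hcon
      apply h
      rw [hTe, D.bT_zero _ (not_lt.1 hcon)]; ring
    · by_contra hcon
      apply h
      rw [hTe, D.ℓ_zero _ (not_lt.1 hcon)]; ring
  -- small error terms
  have htt0 : t ≤ 8 / 5 * D.t0 := by linarith
  have hMτ : D.M ^ 3 * τ ≤ D.M ^ 3 * D.t0 := mul_le_mul_of_nonneg_left hτ0 hM3.le
  have ht0 := D.t0_pos
  have hMt0 : D.t0 ≤ D.M ^ 3 * D.t0 := by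
    have : (1 : ℝ) ≤ D.M ^ 3 := one_le_pow₀ (by linarith)
    exact le_mul_of_one_le_left ht0.le this
  have hM2t0 : D.M ^ 2 * D.t0 ≤ D.M ^ 3 * D.t0 :=
    mul_le_mul_of_nonneg_right (M2_le D) ht0.le
  have hMΔ : D.M * D.Δ ≤ D.M ^ 2 * D.Δ := mul_le_mul_of_nonneg_right (M1_le D) hΔ.le
  have hsmall := D.small
  have key : ∀ {x B : ℝ}, |x| ≤ B → |D.ε * x| ≤ 1 / 100 * B := by
    intro x B hx
    rw [abs_mul, abs_of_pos hε]
    exact mul_le_mul hε1 hx (abs_nonneg _) (by norm_num)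
  have hZ := Z_bd D (φ := φ) hy1
  set Y1 : ℝ := Z1 D τ φ t with hY1
  set Y2 : ℝ := Z2 D τ φ t with hY2
  -- the error terms of the two equations
  have E1 : |-n * (r - t) + (comb D τ ((k1 D).c τ φ t) ((k2 D).c τ φ t) ((k3 D).c τ φ t)
        ((k4 D).c τ φ t) ((k5 D).c τ φ t) -
      (1 + t ^ 2) * comb D τ ((k1 D).a τ φ t) ((k2 D).a τ φ t) ((k3 D).a τ φ t)
        ((k4 D).a τ φ t) ((k5 D).a τ φ t)) + e1 -
      (-n - 3 * (D.χ m * D.b y) - T + D.ε * Y1)| ≤ D.ε ^ 2 * D.N / 20 := by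
    have e : -n * (r - t) + (comb D τ ((k1 D).c τ φ t) ((k2 D).c τ φ t) ((k3 D).c τ φ t)
        ((k4 D).c τ φ t) ((k5 D).c τ φ t) -
      (1 + t ^ 2) * comb D τ ((k1 D).a τ φ t) ((k2 D).a τ φ t) ((k3 D).a τ φ t)
        ((k4 D).a τ φ t) ((k5 D).a τ φ t)) + e1 -
      (-n - 3 * (D.χ m * D.b y) - T + D.ε * Y1) =
      -(n * (r - t - 1)) +
      3 * ((k1 D).c τ φ t - (1 + t ^ 2) * (k1 D).a τ φ t - (k1 D).z1 τ φ t) +
      D.ε * ((k2 D).c τ φ t - (1 + t ^ 2) * (k2 D).a τ φ t - (k2 D).z1 τ φ t) +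
      D.ε * ((k3 D).c τ φ t - (1 + t ^ 2) * (k3 D).a τ φ t - (k3 D).z1 τ φ t) -
      3 * (D.ε * ((k4 D).c τ φ t - (1 + t ^ 2) * (k4 D).a τ φ t - (k4 D).z1 τ φ t)) +
      D.Δ / τ * (k5 D).c τ φ t + e1 := by
      rw [hk1, hT, hY1]
      unfold comb Z1
      ring
    rw [e]
    have c1 := abs_le.1 p4
    have c2 := abs_le.1 (key q4)
    have c3 := abs_le.1 (key r4)
    have c4 := abs_le.1 (key s4)
    have c5 := abs_le.1 (c5_bd D (φ := φ) hτ hy1 ht (by linarith))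
    have c6 := abs_le.1 he1
    have c7 : |n * (r - t - 1)| ≤ t := by
      rw [abs_mul]
      have h3 : |r - t - 1| ≤ t := by rw [abs_le]; constructor <;> linarith
      calc |n| * |r - t - 1| ≤ 1 * t := mul_le_mul hna h3 (abs_nonneg _) zero_le_one
        _ = t := one_mul t
    have c8 := abs_le.1 c7
    have hMΔ0 : 0 ≤ D.M ^ 2 * D.Δ := by positivity
    rw [abs_le]
    constructor <;> linarith
  have E2 : |m / 2 * (1 - t / r) + comb D τ ((k1 D).b τ φ t) ((k2 D).b τ φ t)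
        ((k3 D).b τ φ t) ((k4 D).b τ φ t) ((k5 D).b τ φ t) + e2 -
      (m / 2 + D.ε * Y2)| ≤ D.ε ^ 2 * D.N / 20 := by
    have e : m / 2 * (1 - t / r) + comb D τ ((k1 D).b τ φ t) ((k2 D).b τ φ t)
        ((k3 D).b τ φ t) ((k4 D).b τ φ t) ((k5 D).b τ φ t) + e2 - (m / 2 + D.ε * Y2) =
      -(m / 2 * (t / r)) + 3 * ((k1 D).b τ φ t - (k1 D).z2 τ φ t) +
      D.ε * ((k2 D).b τ φ t - (k2 D).z2 τ φ t) + D.ε * ((k3 D).b τ φ t - (k3 D).z2 τ φ t) -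
      3 * (D.ε * ((k4 D).b τ φ t - (k4 D).z2 τ φ t)) + D.Δ / τ * (k5 D).b τ φ t + e2 := by
      rw [hk2, hY2]
      unfold comb Z2
      ring
    rw [e]
    have c1 := abs_le.1 p2
    have c2 := abs_le.1 (key q2)
    have c3 := abs_le.1 (key r2)
    have c4 := abs_le.1 (key s2)
    have c5 := abs_le.1 (b5_bd D hτ.ne' φ t)
    have c6 := abs_le.1 he2
    have c7 : |m / 2 * (t / r)| ≤ t := by
      rw [abs_mul]
      have h3 : |t / r| ≤ t := by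
        rw [abs_of_nonneg (div_nonneg ht.le (by linarith))]
        exact div_le_self ht.le sq1
      have h4 : |m / 2| ≤ 1 := by rw [abs_le]; constructor <;> linarith
      calc |m / 2| * |t / r| ≤ 1 * t := mul_le_mul h4 h3 (abs_nonneg _) zero_le_one
        _ = t := one_mul t
    have c8 := abs_le.1 c7
    rw [abs_le]
    constructor <;> linarith
  rw [h1] at E1
  rw [h2] at E2
  have hX := Real.cos_sq_add_sin_sq (Real.sin (2 * φ) / τ)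
  refine Ineq.island (m := m) (n := n) (y := y) (χ := D.χ m) (b := D.b y) (T := T)
    (Z1 := Y1) (Z2 := Y2) (MZ := D.M0 * (22 * D.N + 20))
    (F := y - 3 * (D.χ m * (D.q1 y - D.q1 0))) (F2 := -(3 * (D.χ m * deriv D.b y)))
    (K := D.K) (N := D.N) (ε := D.ε) (om := D.om)
    (cX := Real.cos (Real.sin (2 * φ) / τ)) (sX := Real.sin (Real.sin (2 * φ) / τ))
    (e1 := 0 - (-n - 3 * (D.χ m * D.b y) - T + D.ε * Y1)) (e2 := 0 - (m / 2 + D.ε * Y2))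
    D.K_nonneg D.hN hε hε1 D.hom D.om_le D.small0 hmn (D.χ_nonneg _) (D.χ_zero _) (D.χ_one _)
    (D.b_nonneg _) (D.b_one _) (D.b_zero _) hT0 hT1 hZ.1 hZ.2 ?_ ?_ ?_ ?_ hX E1 E2
    (by ring) (by ring)
  · intro hn0
    have hη : D.η n = 0 := D.η_zero _ hn0
    have a2 : (k2 D).A φ = 0 := hη
    have a3 : (k3 D).A φ = 0 := hη
    have a4 : (k4 D).A φ = 0 := by
      show D.η n * D.χ m = 0
      rw [hη, zero_mul]
    rw [hY1, hY2]
    unfold Z1 Z2 Blk.z1 Blk.z2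
    rw [a2, a3, a4]
    constructor <;> ring
  · intro hn1 hy2
    exact Z_near D hn1 hy2
  · intro hy2
    have h3 := q1_lip D y
    have h4 : |D.χ m * (D.q1 y - D.q1 0)| ≤ |y| := by
      rw [abs_mul, abs_of_nonneg (D.χ_nonneg _)]
      calc D.χ m * |D.q1 y - D.q1 0| ≤ 1 * |y| :=
            mul_le_mul (D.χ_le _) h3 (abs_nonneg _) zero_le_one
        _ = |y| := one_mul _
    have h5 := abs_le.1 h4
    have h6 := abs_lt.1 hy2
    rw [abs_le]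
    constructor <;> linarith
  · rw [abs_neg, abs_mul, abs_of_pos (by norm_num : (0 : ℝ) < 3), abs_mul,
      abs_of_nonneg (D.χ_nonneg _)]
    have h3 : D.χ m * |deriv D.b y| ≤ 1 * D.K :=
      mul_le_mul (D.χ_le _) (D.hK _) (abs_nonneg _) zero_le_one
    linarith

end IslandMain

open IslB IslC Island IslandMain in
/-- all information on one island (polar form, positive sign) -/
theorem island_jet (D : Data) {τ : ℝ} (hτ : 0 < τ) (hτ0 : τ ≤ D.t0) :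
    ∃ a b c d : ℝ → ℝ → ℝ, HasJ (D.isl τ) a b c d ∧
      (∀ φ t, 8 / 5 * τ ≤ t → a φ t = 0 ∧ b φ t = 0 ∧ c φ t = 0 ∧ d φ t = 0) ∧
      (∀ φ t, 0 < t → t < 2 / 5 * τ →
        a φ t = 0 ∧ |b φ t + D.Δ * deriv (fS D.ℓ) φ| ≤ 3 * D.M ^ 2 * τ ∧
        |c φ t| ≤ 40 * D.M ^ 3 * τ ∧ |d φ t + D.Δ * fS D.ℓ φ| ≤ 3 * D.M ^ 2 * τ) ∧
      (∀ φ t, 0 < t → t < 8 / 5 * τ →
        -(100 * D.M ^ 3) ≤ a φ t ∧ |b φ t| ≤ 100 * D.M ^ 3 ∧ |c φ t| ≤ 100 * D.M ^ 3 ∧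
        d φ t ≤ 100 * D.M ^ 3) ∧
      (∀ φ t, 0 < t → t < 8 / 5 * τ → ∀ e1 e2 : ℝ, |e1| ≤ 60 * D.M ^ 3 * D.t0 →
        |e2| ≤ 5 * D.M ^ 2 * D.t0 + D.M * D.Δ →
        -Real.cos (2 * φ) * (√(1 + t ^ 2) - t) + (c φ t - (1 + t ^ 2) * a φ t) + e1 = 0 →
        Real.sin (2 * φ) / 2 * (1 - t / √(1 + t ^ 2)) + b φ t + e2 = 0 → False) :=
  ⟨_, _, _, _, isl_jet D hτ.ne', fun φ t h => Island.zero D hτ φ t h,
    fun φ t h1 h2 => passed D hτ hτ0 φ t h1 h2,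
    fun φ t h1 h2 => active_bounds D hτ hτ0 φ t h1 h2,
    fun φ t h1 h2 e1 e2 h3 h4 h5 h6 => nonvan D hτ hτ0 φ t h1 h2 e1 e2 h3 h4 h5 h6⟩

end Pool.Agent.Helper41.MU
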