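import Mathlib
import Pool.Agent.Helper41.MU.Defs
import Pool.Agent.Helper41.MU.Data

/-!
# The island in Cartesian form is smooth (MU-7)
-/

set_option autoImplicit false

open Set Filter Topology
open scoped ContDiff

namespace Pool.Agent.Helper41.MU

namespace Piece

/-- the island as a function of `sin (2 φ)`, `cos (2 φ)` and `t / τ - 1` -/
noncomputable def J (D : Data) (τ m n y : ℝ) : ℝ :=
  3 * (τ ^ 2 * (D.χ m * D.q y * 1)) +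
  D.ε * (τ ^ 2 * (D.η n * D.κ y * -(D.N * Real.cos (m / τ)))) +
  D.ε * (τ ^ 2 * (D.η n * (D.κ y * y) *
    (Real.sin (m / τ) + D.ε * D.N * Real.sin (2 * (m / τ))))) +
  -(3 * D.ε) * (τ ^ 2 * (D.η n * D.χ m * (D.κ y * (D.q1 y - D.q1 0)) * Real.sin (m / τ))) +
  D.Δ / τ * (τ ^ 2 * (D.ℓ m * D.qT y * 1))

theorem isl_eq (D : Data) (τ φ t : ℝ) :
    D.isl τ φ t = J D τ (Real.sin (2 * φ)) (Real.cos (2 * φ)) (t / τ - 1) := rfl

theorem J_zero (D : Data) (τ m n y : ℝ) (hy : 1 / 2 ≤ y) : J D τ m n y = 0 := by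
  unfold J
  rw [D.q_zero y (by linarith), D.κ_zero y (by rw [abs_of_nonneg (by linarith)]; exact hy),
    D.qT_zero y (by linarith)]
  ring

theorem J_smooth (D : Data) (τ : ℝ) :
    ContDiff ℝ ∞ (fun z : ℝ × ℝ × ℝ => J D τ z.1 z.2.1 z.2.2) := by
  have hm : ContDiff ℝ ∞ (fun z : ℝ × ℝ × ℝ => z.1) := contDiff_fst
  have hn : ContDiff ℝ ∞ (fun z : ℝ × ℝ × ℝ => z.2.1) := contDiff_fst.comp contDiff_snd
  have hy : ContDiff ℝ ∞ (fun z : ℝ × ℝ × ℝ => z.2.2) := contDiff_snd.comp contDiff_snd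
  have h1 : ContDiff ℝ ∞ (fun z : ℝ × ℝ × ℝ => D.χ z.1) := D.sχ.comp hm
  have h2 : ContDiff ℝ ∞ (fun z : ℝ × ℝ × ℝ => D.q z.2.2) := D.sq.comp hy
  have h3 : ContDiff ℝ ∞ (fun z : ℝ × ℝ × ℝ => D.η z.2.1) := D.sη.comp hn
  have h4 : ContDiff ℝ ∞ (fun z : ℝ × ℝ × ℝ => D.κ z.2.2) := D.sκ.comp hy
  have h5 : ContDiff ℝ ∞ (fun z : ℝ × ℝ × ℝ => D.q1 z.2.2) := D.sq1.comp hy
  have h6 : ContDiff ℝ ∞ (fun z : ℝ × ℝ × ℝ => D.ℓ z.1) := D.sℓ.comp hm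
  have h7 : ContDiff ℝ ∞ (fun z : ℝ × ℝ × ℝ => D.qT z.2.2) := D.sqT.comp hy
  have h8 : ContDiff ℝ ∞ (fun z : ℝ × ℝ × ℝ => z.1 / τ) := hm.div_const τ
  have h9 : ContDiff ℝ ∞ (fun z : ℝ × ℝ × ℝ => Real.cos (z.1 / τ)) := Real.contDiff_cos.comp h8
  have h10 : ContDiff ℝ ∞ (fun z : ℝ × ℝ × ℝ => Real.sin (z.1 / τ)) := Real.contDiff_sin.comp h8
  have h11 : ContDiff ℝ ∞ (fun z : ℝ × ℝ × ℝ => Real.sin (2 * (z.1 / τ))) :=
    Real.contDiff_sin.comp (contDiff_const.mul h8)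
  unfold J
  refine ContDiff.add (ContDiff.add (ContDiff.add (ContDiff.add ?_ ?_) ?_) ?_) ?_
  · exact contDiff_const.mul (contDiff_const.mul ((h1.mul h2).mul contDiff_const))
  · exact contDiff_const.mul (contDiff_const.mul ((h3.mul h4).mul (contDiff_const.mul h9).neg))
  · exact contDiff_const.mul (contDiff_const.mul ((h3.mul (h4.mul hy)).mul
      (h10.add (contDiff_const.mul h11))))
  · exact contDiff_const.mul (contDiff_const.mul (((h3.mul h1).mul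
      (h4.mul (h5.sub contDiff_const))).mul h10))
  · exact contDiff_const.mul (contDiff_const.mul ((h6.mul h7).mul contDiff_const))

/-- the island in Cartesian coordinates -/
noncomputable def G (D : Data) (τ s : ℝ) (p : E2) : ℝ :=
  ‖p‖ * J D τ (s * (2 * (p 0 * p 1) / ‖p‖ ^ 2)) ((p 0 ^ 2 - p 1 ^ 2) / ‖p‖ ^ 2)
    (1 / (τ * ‖p‖) - 1)

theorem G_zero (D : Data) {τ : ℝ} (s : ℝ) (hτ : 0 < τ) (p : E2) (hp : 3 / 2 * τ * ‖p‖ ≤ 1) :
    G D τ s p = 0 := by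
  unfold G
  by_cases h : p = 0
  · simp [h]
  · have hn : 0 < ‖p‖ := norm_pos_iff.mpr h
    have h1 : 0 < τ * ‖p‖ := mul_pos hτ hn
    rw [J_zero, mul_zero]
    have : 3 / 2 ≤ 1 / (τ * ‖p‖) := by
      rw [le_div_iff₀ h1]
      linarith
    linarith

theorem G_smooth (D : Data) {τ : ℝ} (s : ℝ) (hτ : 0 < τ) : ContDiff ℝ ∞ (G D τ s) := by
  rw [contDiff_iff_contDiffAt]
  intro p
  by_cases h : p = 0
  · have hev : G D τ s =ᶠ[𝓝 p] fun _ => 0 := by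
      have hball : Metric.ball (0 : E2) (2 / (3 * τ)) ∈ 𝓝 p := by
        rw [h]
        exact Metric.ball_mem_nhds _ (by positivity)
      filter_upwards [hball] with x hx
      apply G_zero D s hτ
      rw [mem_ball_zero_iff, lt_div_iff₀ (by positivity)] at hx
      nlinarith
    exact contDiffAt_const.congr_of_eventuallyEq hev
  · have hn : ‖p‖ ≠ 0 := norm_ne_zero_iff.mpr h
    have a0 : ContDiffAt ℝ ∞ (fun x : E2 => x 0) p := by fun_prop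
    have a1 : ContDiffAt ℝ ∞ (fun x : E2 => x 1) p := by fun_prop
    have b : ContDiffAt ℝ ∞ (fun x : E2 => ‖x‖) p := contDiffAt_norm ℝ h
    have b2 : ContDiffAt ℝ ∞ (fun x : E2 => ‖x‖ ^ 2) p := b.pow 2
    have c1 : ContDiffAt ℝ ∞ (fun x : E2 => s * (2 * (x 0 * x 1) / ‖x‖ ^ 2)) p :=
      contDiffAt_const.mul ((contDiffAt_const.mul (a0.mul a1)).div b2 (pow_ne_zero 2 hn))
    have c2 : ContDiffAt ℝ ∞ (fun x : E2 => (x 0 ^ 2 - x 1 ^ 2) / ‖x‖ ^ 2) p :=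
      ((a0.pow 2).sub (a1.pow 2)).div b2 (pow_ne_zero 2 hn)
    have c3 : ContDiffAt ℝ ∞ (fun x : E2 => 1 / (τ * ‖x‖) - 1) p :=
      (contDiffAt_const.div (contDiffAt_const.mul b) (mul_ne_zero hτ.ne' hn)).sub contDiffAt_const
    have c : ContDiffAt ℝ ∞ (fun x : E2 => (s * (2 * (x 0 * x 1) / ‖x‖ ^ 2),
        (x 0 ^ 2 - x 1 ^ 2) / ‖x‖ ^ 2, 1 / (τ * ‖x‖) - 1)) p := c1.prodMk (c2.prodMk c3)
    exact b.mul ((J_smooth D τ).contDiffAt.comp p c)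

end Piece

/-- MU-7 PIECE -/
theorem exists_piece (D : Data) {τ s : ℝ} (hτ : 0 < τ) (hs : s = 1 ∨ s = -1) :
    ∃ G : E2 → ℝ, ContDiff ℝ ∞ G ∧
      (∀ θ t : ℝ, 0 < t → D.isl τ (s * θ) t = t * G (t⁻¹ • cv θ)) ∧
      ∀ p : E2, 3 / 2 * τ * ‖p‖ ≤ 1 → G p = 0 := by
  refine ⟨Piece.G D τ s, Piece.G_smooth D s hτ, ?_, fun p hp => Piece.G_zero D s hτ p hp⟩
  intro θ t ht
  have hcv : ‖cv θ‖ = 1 := by
    rw [EuclideanSpace.norm_eq]
    simp [cv, Fin.sum_univ_two]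
  have hnorm : ‖(t⁻¹ • cv θ : E2)‖ = t⁻¹ := by
    rw [norm_smul, hcv, mul_one, Real.norm_of_nonneg (by positivity)]
  rw [Piece.isl_eq, Piece.G, hnorm]
  have e0 : (t⁻¹ • cv θ : E2) 0 = t⁻¹ * Real.cos θ := by simp [cv]
  have e1 : (t⁻¹ • cv θ : E2) 1 = t⁻¹ * Real.sin θ := by simp [cv]
  rw [e0, e1]
  have ht' : t ≠ 0 := ht.ne'
  have m : s * (2 * (t⁻¹ * Real.cos θ * (t⁻¹ * Real.sin θ)) / t⁻¹ ^ 2) =
      Real.sin (2 * (s * θ)) := by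
    have : 2 * (t⁻¹ * Real.cos θ * (t⁻¹ * Real.sin θ)) / t⁻¹ ^ 2 = Real.sin (2 * θ) := by
      rw [Real.sin_two_mul]
      field_simp
    rw [this]
    rcases hs with rfl | rfl
    · simp
    · have : 2 * (-1 * θ) = -(2 * θ) := by ring
      rw [this, Real.sin_neg]
      ring
  have n : ((t⁻¹ * Real.cos θ) ^ 2 - (t⁻¹ * Real.sin θ) ^ 2) / t⁻¹ ^ 2 =
      Real.cos (2 * (s * θ)) := by
    have : ((t⁻¹ * Real.cos θ) ^ 2 - (t⁻¹ * Real.sin θ) ^ 2) / t⁻¹ ^ 2 = Real.cos (2 * θ) := by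
      rw [Real.cos_two_mul']
      field_simp
    rw [this]
    rcases hs with rfl | rfl
    · simp
    · have : 2 * (-1 * θ) = -(2 * θ) := by ring
      rw [this, Real.cos_neg]
  have y : 1 / (τ * t⁻¹) - 1 = t / τ - 1 := by
    field_simp
  rw [m, n, y, mul_inv_cancel_left₀ ht']

end Pool.Agent.Helper41.MU
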