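import Mathlib
import Pool.Agent.Helper41.MU.IslandMain
import Pool.Agent.Helper41.MU.Geo
import Pool.Agent.Helper41.MU.Piece

/-!
# Assembly (MP_7d7bd6_gt), part A: linearity of the second order data, the pieces, sums
-/

set_option autoImplicit false

open Set Filter Topology
open scoped ContDiff

namespace Pool.Agent.Helper41.MU

namespace Asm

/-- the vertical coordinate -/
noncomputable def Qf (F : E2 → ℝ) (p : E2) : ℝ := fderiv ℝ F p p - F p

theorem smooth_fd {f : E2 → ℝ} (hf : ContDiff ℝ ∞ f) : ContDiff ℝ ∞ (fderiv ℝ f) :=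
  Geo.contDiff_dF hf

theorem H_add {f g : E2 → ℝ} (hf : ContDiff ℝ ∞ f) (hg : ContDiff ℝ ∞ g) (p u v : E2) :
    H (fun x => f x + g x) p u v = H f p u v + H g p u v := by
  have h1 : fderiv ℝ (fun x => f x + g x) = fun x => fderiv ℝ f x + fderiv ℝ g x := by
    funext x
    exact fderiv_fun_add (hf.differentiable (by simp) x) (hg.differentiable (by simp) x)
  unfold H
  rw [h1, fderiv_fun_add ((smooth_fd hf).differentiable (by simp) p)
    ((smooth_fd hg).differentiable (by simp) p)]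
  rfl

theorem H_mul {f : E2 → ℝ} (c : ℝ) (hf : ContDiff ℝ ∞ f) (p u v : E2) :
    H (fun x => c * f x) p u v = c * H f p u v := by
  have h1 : fderiv ℝ (fun x => c * f x) = fun x => c • fderiv ℝ f x := by
    funext x
    exact fderiv_const_mul (hf.differentiable (by simp) x) c
  unfold H
  rw [h1, fderiv_fun_const_smul ((smooth_fd hf).differentiable (by simp) p)]
  rfl

theorem H_zero (p u v : E2) : H (fun _ => 0) p u v = 0 := by
  unfold H
  have h1 : fderiv ℝ (fun _ : E2 => (0 : ℝ)) = fun _ => 0 := by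
    funext x
    simp
  rw [h1]
  simp

theorem Q_add {f g : E2 → ℝ} (hf : ContDiff ℝ ∞ f) (hg : ContDiff ℝ ∞ g) (p : E2) :
    Qf (fun x => f x + g x) p = Qf f p + Qf g p := by
  unfold Qf
  rw [fderiv_fun_add (hf.differentiable (by simp) p) (hg.differentiable (by simp) p)]
  show fderiv ℝ f p p + fderiv ℝ g p p - (f p + g p) = _
  ring

theorem Q_mul {f : E2 → ℝ} (c : ℝ) (hf : ContDiff ℝ ∞ f) (p : E2) :
    Qf (fun x => c * f x) p = c * Qf f p := by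
  unfold Qf
  rw [fderiv_const_mul (hf.differentiable (by simp) p) c]
  show c * fderiv ℝ f p p - c * f p = _
  ring

theorem Q_zero (p : E2) : Qf (fun _ => 0) p = 0 := by
  unfold Qf
  simp

theorem smooth_sum {G : ℕ → E2 → ℝ} (hG : ∀ k, ContDiff ℝ ∞ (G k)) (K : ℕ) :
    ContDiff ℝ ∞ (fun x => ∑ j ∈ Finset.range K, G j x) :=
  ContDiff.sum fun j _ => hG j

theorem H_sum {G : ℕ → E2 → ℝ} (hG : ∀ k, ContDiff ℝ ∞ (G k)) (K : ℕ) (p u v : E2) :
    H (fun x => ∑ j ∈ Finset.range K, G j x) p u v =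
      ∑ j ∈ Finset.range K, H (G j) p u v := by
  induction K with
  | zero => simpa using H_zero p u v
  | succ K ih =>
    have h1 : (fun x => ∑ j ∈ Finset.range (K + 1), G j x) =
        fun x => (∑ j ∈ Finset.range K, G j x) + G K x := by
      funext x
      rw [Finset.sum_range_succ]
    rw [h1, H_add (smooth_sum hG K) (hG K), ih, Finset.sum_range_succ]

theorem Q_sum {G : ℕ → E2 → ℝ} (hG : ∀ k, ContDiff ℝ ∞ (G k)) (K : ℕ) (p : E2) :
    Qf (fun x => ∑ j ∈ Finset.range K, G j x) p = ∑ j ∈ Finset.range K, Qf (G j) p := by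
  induction K with
  | zero => simpa using Q_zero p
  | succ K ih =>
    have h1 : (fun x => ∑ j ∈ Finset.range (K + 1), G j x) =
        fun x => (∑ j ∈ Finset.range K, G j x) + G K x := by
      funext x
      rw [Finset.sum_range_succ]
    rw [h1, Q_add (smooth_sum hG K) (hG K), ih, Finset.sum_range_succ]

theorem H_congr {f g : E2 → ℝ} {p : E2} (h : f =ᶠ[𝓝 p] g) (u v : E2) :
    H f p u v = H g p u v := by
  unfold H
  rw [Filter.EventuallyEq.fderiv_eq (Filter.EventuallyEq.fderiv h)]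

theorem Q_congr {f g : E2 → ℝ} {p : E2} (h : f =ᶠ[𝓝 p] g) : Qf f p = Qf g p := by
  unfold Qf
  rw [h.fderiv_eq, h.eq_of_nhds]

/-! ### scales and signs -/

theorem sg_or (k : ℕ) : sg k = 1 ∨ sg k = -1 := by
  unfold sg
  exact neg_one_pow_eq_or ℝ k

theorem tk_pos (D : Data) (k : ℕ) : 0 < D.tk k := by
  unfold Data.tk
  have := D.t0_pos
  positivity

theorem tk_succ (D : Data) (k : ℕ) : D.tk (k + 1) = D.tk k / 4 := by
  unfold Data.tk
  rw [pow_succ]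
  field_simp

theorem tk_zero (D : Data) : D.tk 0 = D.t0 := by
  unfold Data.tk
  simp

theorem tk_anti (D : Data) : Antitone D.tk := by
  apply antitone_nat_of_succ_le
  intro k
  rw [tk_succ]
  have := tk_pos D k
  linarith

theorem tk_le (D : Data) (k : ℕ) : D.tk k ≤ D.t0 := by
  rw [← tk_zero D]
  exact tk_anti D (Nat.zero_le k)

theorem tk_tendsto (D : Data) : Tendsto D.tk atTop (𝓝 0) := by
  have h1 : Tendsto (fun k : ℕ => D.t0 * (1 / 4 : ℝ) ^ k) atTop (𝓝 (D.t0 * 0)) :=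
    (tendsto_pow_atTop_nhds_zero_of_lt_one (by norm_num) (by norm_num)).const_mul _
  rw [mul_zero] at h1
  refine h1.congr fun k => ?_
  unfold Data.tk
  rw [one_div, inv_pow, div_eq_mul_inv]

theorem sum_tk (D : Data) (k : ℕ) : 3 * ∑ j ∈ Finset.range k, D.tk j = 4 * (D.t0 - D.tk k) := by
  induction k with
  | zero => rw [tk_zero]; simp
  | succ k ih =>
    rw [Finset.sum_range_succ, mul_add, ih, tk_succ]
    ring

theorem sum_sg (k : ℕ) : |∑ j ∈ Finset.range k, sg j| ≤ 1 := by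
  have h : ∑ j ∈ Finset.range k, sg j = (1 - sg k) / 2 := by
    induction k with
    | zero => unfold sg; simp
    | succ k ih =>
      rw [Finset.sum_range_succ, ih]
      unfold sg
      rw [pow_succ]
      ring
  rw [h]
  rcases sg_or k with h | h <;> rw [h] <;> norm_num

/-! ### the function `fS ℓ` -/

theorem L_neg (D : Data) (φ : ℝ) : fS D.ℓ (-φ) = 1 - fS D.ℓ φ := by
  unfold fS
  have h := D.ℓ_symm (Real.sin (2 * φ))
  have h2 : Real.sin (2 * -φ) = -Real.sin (2 * φ) := by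
    rw [mul_neg, Real.sin_neg]
  rw [h2]
  linarith

theorem L_mem (D : Data) (φ : ℝ) : 0 ≤ fS D.ℓ φ ∧ fS D.ℓ φ ≤ 1 := by
  refine ⟨D.ℓ_nonneg _, ?_⟩
  have h1 := L_neg D φ
  have h2 : 0 ≤ fS D.ℓ (-φ) := D.ℓ_nonneg _
  linarith

theorem L_sg (D : Data) (k : ℕ) (φ : ℝ) :
    fS D.ℓ (sg k * φ) = 1 / 2 + (fS D.ℓ φ - 1 / 2) * sg k := by
  rcases sg_or k with h | h
  · rw [h, one_mul]; ring
  · rw [h, neg_one_mul, L_neg]; ring

theorem dL_neg (D : Data) (φ : ℝ) : deriv (fS D.ℓ) (-φ) = deriv (fS D.ℓ) φ := by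
  have hd := (IslB.smooth_der (IslB.smooth_fS D.sℓ)).1
  have h1 : HasDerivAt (fun x => fS D.ℓ (-x)) (-deriv (fS D.ℓ) (-φ)) φ := by
    have := (hd (-φ)).comp φ (hasDerivAt_neg φ)
    rw [mul_neg_one] at this
    exact this
  have h2 : HasDerivAt (fun x => fS D.ℓ (-x)) (-deriv (fS D.ℓ) φ) φ := by
    have h3 : (fun x => fS D.ℓ (-x)) = fun x => 1 - fS D.ℓ x := funext fun x => L_neg D x
    rw [h3]
    exact (hd φ).const_sub 1
  have := h1.unique h2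
  linarith

theorem dL_sg (D : Data) (k : ℕ) (φ : ℝ) : deriv (fS D.ℓ) (sg k * φ) = deriv (fS D.ℓ) φ := by
  rcases sg_or k with h | h
  · rw [h, one_mul]
  · rw [h, neg_one_mul, dL_neg]

/-- growth of the sums -/
theorem sum_L (D : Data) (k : ℕ) (φ : ℝ) :
    ((k : ℝ) - 1) / 2 ≤ ∑ j ∈ Finset.range k, fS D.ℓ (sg j * φ) := by
  have h1 : ∑ j ∈ Finset.range k, fS D.ℓ (sg j * φ) =
      (k : ℝ) / 2 + (fS D.ℓ φ - 1 / 2) * ∑ j ∈ Finset.range k, sg j := by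
    rw [Finset.mul_sum]
    have : ∀ j ∈ Finset.range k, fS D.ℓ (sg j * φ) = 1 / 2 + (fS D.ℓ φ - 1 / 2) * sg j :=
      fun j _ => L_sg D j φ
    rw [Finset.sum_congr rfl this, Finset.sum_add_distrib, Finset.sum_const,
      Finset.card_range, nsmul_eq_mul]
    ring
  rw [h1]
  have h2 := L_mem D φ
  have h3 := sum_sg k
  have h4 : |(fS D.ℓ φ - 1 / 2) * ∑ j ∈ Finset.range k, sg j| ≤ 1 / 2 := by
    rw [abs_mul]
    have h5 : |fS D.ℓ φ - 1 / 2| ≤ 1 / 2 := by rw [abs_le]; constructor <;> linarith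
    calc |fS D.ℓ φ - 1 / 2| * |∑ j ∈ Finset.range k, sg j| ≤ 1 / 2 * 1 :=
          mul_le_mul h5 h3 (abs_nonneg _) (by norm_num)
      _ = 1 / 2 := by norm_num
  have h6 := abs_le.1 h4
  linarith

/-! ### the pieces -/

/-- everything about the piece with index `k` -/
theorem piece (D : Data) (k : ℕ) : ∃ (G : E2 → ℝ) (a b c d : ℝ → ℝ → ℝ),
    ContDiff ℝ ∞ G ∧ (∀ p : E2, 3 / 2 * D.tk k * ‖p‖ ≤ 1 → G p = 0) ∧
    (∀ θ t : ℝ, 0 < t →
      H G (t⁻¹ • cv θ) (cv θ) (cv θ) = t ^ 3 * a (sg k * θ) t ∧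
      H G (t⁻¹ • cv θ) (cv θ) (cw θ) = -(t ^ 2 * (sg k * b (sg k * θ) t)) ∧
      H G (t⁻¹ • cv θ) (cw θ) (cw θ) = t * c (sg k * θ) t ∧
      Qf G (t⁻¹ • cv θ) = -d (sg k * θ) t) ∧
    (∀ φ t, 8 / 5 * D.tk k ≤ t → a φ t = 0 ∧ b φ t = 0 ∧ c φ t = 0 ∧ d φ t = 0) ∧
    (∀ φ t, 0 < t → t < 2 / 5 * D.tk k →
      a φ t = 0 ∧ |b φ t + D.Δ * deriv (fS D.ℓ) φ| ≤ 3 * D.M ^ 2 * D.tk k ∧
      |c φ t| ≤ 40 * D.M ^ 3 * D.tk k ∧ |d φ t + D.Δ * fS D.ℓ φ| ≤ 3 * D.M ^ 2 * D.tk k) ∧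
    (∀ φ t, 0 < t → t < 8 / 5 * D.tk k →
      -(100 * D.M ^ 3) ≤ a φ t ∧ |b φ t| ≤ 100 * D.M ^ 3 ∧ |c φ t| ≤ 100 * D.M ^ 3 ∧
      d φ t ≤ 100 * D.M ^ 3) ∧
    (∀ φ t, 0 < t → t < 8 / 5 * D.tk k → ∀ e1 e2 : ℝ, |e1| ≤ 60 * D.M ^ 3 * D.t0 →
      |e2| ≤ 5 * D.M ^ 2 * D.t0 + D.M * D.Δ →
      -Real.cos (2 * φ) * (√(1 + t ^ 2) - t) + (c φ t - (1 + t ^ 2) * a φ t) + e1 = 0 →
      Real.sin (2 * φ) / 2 * (1 - t / √(1 + t ^ 2)) + b φ t + e2 = 0 → False) := by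
  obtain ⟨G, hG, hpol, hzero⟩ := exists_piece D (τ := D.tk k) (s := sg k) (tk_pos D k) (sg_or k)
  obtain ⟨a, b, c, d, hJ, h1, h2, h3, h4⟩ := island_jet D (τ := D.tk k) (tk_pos D k) (tk_le D k)
  obtain ⟨g1, g2, g11, g12, g22, hj, he⟩ := hJ.reflect (sg_or k)
  refine ⟨G, a, b, c, d, hG, hzero, ?_, h1, h2, h3, h4⟩
  intro θ t ht
  obtain ⟨l1, l2, l3, l4⟩ := link G hG hj hpol θ t ht
  obtain ⟨e1, e2, e3, e4⟩ := he θ t
  beta_reduce at e1 e2 e3 e4
  refine ⟨?_, ?_, ?_, ?_⟩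
  · rw [l1, e1]
  · rw [l2, e2]
  · rw [l3, e3]
  · unfold Qf
    rw [l4, e4]

end Asm

end Pool.Agent.Helper41.MU
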