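import Mathlib

/-!
# Assembly (MP_7d7bd6_gt), part B: real inequalities
-/

set_option autoImplicit false

namespace Pool.Agent.Helper41.MU

namespace Asm

theorem far_conds {ρ w C S δ : ℝ} (hw : w = √(1 + ρ ^ 2))
    (hCS : S ^ 2 + C ^ 2 = 1) (hδ : 0 < δ) (hδ1 : δ ≤ 1 / 100) :
    0 < 1 / w ^ 3 + δ * (C / (4 * w ^ 3)) ∧
    (0 + δ * -(S / (2 * w * (1 + w)))) ^ 2 <
      (1 / w ^ 3 + δ * (C / (4 * w ^ 3))) * (1 / w + δ * (C * (4 / (1 + w) - 3) / (4 * w))) ∧
    w * (1 / w + δ * (C * (4 / (1 + w) - 3) / (4 * w))) ≤ 2 ∧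
    (1 / w + δ * (C * (4 / (1 + w) - 3) / (4 * w)) ≠
      (1 + ρ ^ 2) * (1 / w ^ 3 + δ * (C / (4 * w ^ 3))) ∨
      0 + δ * -(S / (2 * w * (1 + w))) ≠ 0) := by
  have hw2 : w ^ 2 = 1 + ρ ^ 2 := by rw [hw, Real.sq_sqrt (by positivity)]
  have hw1 : 1 ≤ w := by
    rw [hw, Real.one_le_sqrt]; linarith [sq_nonneg ρ]
  have hw0 : 0 < w := by linarith
  have hC : |C| ≤ 1 := by
    rw [← sq_le_one_iff_abs_le_one]; linarith [sq_nonneg S]
  have hS : |S| ≤ 1 := by
    rw [← sq_le_one_iff_abs_le_one]; linarith [sq_nonneg C]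
  have hC' := abs_le.1 hC
  have hS' := abs_le.1 hS
  set g : ℝ := 4 / (1 + w) - 3 with hg
  have hg1 : g ≤ 0 := by
    have : 4 / (1 + w) ≤ 2 := by
      rw [div_le_iff₀ (by linarith)]; linarith
    linarith
  have hg2 : -3 ≤ g := by
    have : 0 < 4 / (1 + w) := by positivity
    linarith
  have hCg : |C * g| ≤ 3 := by
    rw [abs_mul]
    have : |g| ≤ 3 := abs_le.2 ⟨hg2, by linarith⟩
    calc |C| * |g| ≤ 1 * 3 := mul_le_mul hC this (abs_nonneg _) zero_le_one
      _ = 3 := by norm_num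
  have hCg' := abs_le.1 hCg
  have eα : 1 / w ^ 3 + δ * (C / (4 * w ^ 3)) = (1 + δ * C / 4) / w ^ 3 := by
    field_simp
  have eγ : 1 / w + δ * (C * g / (4 * w)) = (1 + δ * (C * g) / 4) / w := by
    field_simp
  have hδC : |δ * C| ≤ 1 / 100 := by
    rw [abs_mul, abs_of_pos hδ]
    calc δ * |C| ≤ 1 / 100 * 1 := mul_le_mul hδ1 hC (abs_nonneg _) (by norm_num)
      _ = 1 / 100 := by norm_num
  have hδCg : |δ * (C * g)| ≤ 3 / 100 := by
    rw [abs_mul, abs_of_pos hδ]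
    calc δ * |C * g| ≤ 1 / 100 * 3 := mul_le_mul hδ1 hCg (abs_nonneg _) (by norm_num)
      _ = 3 / 100 := by norm_num
  have u1 := abs_le.1 hδC
  have u2 := abs_le.1 hδCg
  have hα' : 1 / 2 ≤ 1 + δ * C / 4 := by linarith
  have hγ' : 1 / 2 ≤ 1 + δ * (C * g) / 4 := by linarith
  refine ⟨?_, ?_, ?_, ?_⟩
  · rw [eα]
    exact div_pos (by linarith) (by positivity)
  · rw [eα, eγ]
    have h1 : (0 + δ * -(S / (2 * w * (1 + w)))) ^ 2 = δ ^ 2 * S ^ 2 / (4 * w ^ 2 * (1 + w) ^ 2) := by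
      field_simp
      ring
    have h2 : (1 + δ * C / 4) / w ^ 3 * ((1 + δ * (C * g) / 4) / w) =
        (1 + δ * C / 4) * (1 + δ * (C * g) / 4) / w ^ 4 := by
      field_simp
    rw [h1, h2]
    have h3 : 1 / 4 ≤ (1 + δ * C / 4) * (1 + δ * (C * g) / 4) := by
      calc (1 : ℝ) / 4 = 1 / 2 * (1 / 2) := by norm_num
        _ ≤ _ := mul_le_mul hα' hγ' (by norm_num) (by linarith)
    have h4 : δ ^ 2 * S ^ 2 / (4 * w ^ 2 * (1 + w) ^ 2) ≤ (1 / 16) / w ^ 4 := by
      rw [div_le_div_iff₀ (by positivity) (by positivity)]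
      have h5 : δ ^ 2 * S ^ 2 ≤ 1 / 4 := by
        have a1 : δ ^ 2 ≤ 1 / 4 := by
          calc δ ^ 2 ≤ (1 / 100) ^ 2 := pow_le_pow_left₀ hδ.le hδ1 2
            _ ≤ 1 / 4 := by norm_num
        have a2 : S ^ 2 ≤ 1 := by linarith [sq_nonneg C]
        calc δ ^ 2 * S ^ 2 ≤ 1 / 4 * 1 := mul_le_mul a1 a2 (sq_nonneg _) (by norm_num)
          _ = 1 / 4 := by norm_num
      have h6 : w ^ 2 * w ^ 2 ≤ w ^ 2 * (1 + w) ^ 2 :=
        mul_le_mul_of_nonneg_left (pow_le_pow_left₀ hw0.le (by linarith) 2) (by positivity)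
      calc δ ^ 2 * S ^ 2 * w ^ 4 ≤ 1 / 4 * w ^ 4 :=
            mul_le_mul_of_nonneg_right h5 (by positivity)
        _ = 1 / 4 * (w ^ 2 * w ^ 2) := by ring
        _ ≤ 1 / 4 * (w ^ 2 * (1 + w) ^ 2) := mul_le_mul_of_nonneg_left h6 (by norm_num)
        _ = 1 / 16 * (4 * w ^ 2 * (1 + w) ^ 2) := by ring
    have h7 : (1 / 16) / w ^ 4 < (1 + δ * C / 4) * (1 + δ * (C * g) / 4) / w ^ 4 := by
      apply div_lt_div_of_pos_right _ (by positivity)
      linarith
    linarith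
  · rw [eγ, mul_div_cancel₀ _ hw0.ne']
    linarith
  · by_contra hcon
    push Not at hcon
    obtain ⟨h1, h2⟩ := hcon
    rw [eα, eγ, ← hw2] at h1
    have h3 : w ^ 2 * ((1 + δ * C / 4) / w ^ 3) = (1 + δ * C / 4) / w := by
      field_simp
    rw [h3] at h1
    have h4 : 1 + δ * (C * g) / 4 = 1 + δ * C / 4 := by
      field_simp at h1
      linarith
    have h5 : C * (g - 1) = 0 := by
      have : δ * (C * (g - 1)) = 0 := by linarith
      rcases mul_eq_zero.1 this with h | h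
      · exact absurd h hδ.ne'
      · exact h
    have h6 : C = 0 := by
      rcases mul_eq_zero.1 h5 with h | h
      · exact h
      · exfalso; linarith
    have h7 : S = 0 := by
      have h8 : δ * (S / (2 * w * (1 + w))) = 0 := by linarith
      rcases mul_eq_zero.1 h8 with h | h
      · exact absurd h hδ.ne'
      · rcases div_eq_zero_iff.1 h with h | h
        · exact h
        · exfalso
          have : 0 < 2 * w * (1 + w) := by positivity
          linarith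
    rw [h6, h7] at hCS
    norm_num at hCS

theorem near_conds {t w C S δ A B E : ℝ} (ht : 0 < t) (ht1 : t ≤ 1 / 50)
    (hw : w = √(1 + t⁻¹ ^ 2)) (hCS : S ^ 2 + C ^ 2 = 1) (hδ : 0 < δ) (hδ1 : δ ≤ 1 / 100)
    (hA : -(1 / 50) ≤ δ * A) (hB : |δ * B| ≤ 1 / 50) (hE : |δ * E| ≤ 1 / 50)
    (hP : -C * (√(1 + t ^ 2) - t) + (E - (1 + t ^ 2) * A) = 0 →
      S / 2 * (1 - t / √(1 + t ^ 2)) + B = 0 → False) :
    0 < 1 / w ^ 3 + δ * (C / (4 * w ^ 3) + t ^ 3 * A) ∧
    (0 + δ * (-(S / (2 * w * (1 + w))) + -(t ^ 2 * B))) ^ 2 <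
      (1 / w ^ 3 + δ * (C / (4 * w ^ 3) + t ^ 3 * A)) *
        (1 / w + δ * (C * (4 / (1 + w) - 3) / (4 * w) + t * E)) ∧
    w * (1 / w + δ * (C * (4 / (1 + w) - 3) / (4 * w) + t * E)) ≤ 2 ∧
    (1 / w + δ * (C * (4 / (1 + w) - 3) / (4 * w) + t * E) ≠
      (1 + t⁻¹ ^ 2) * (1 / w ^ 3 + δ * (C / (4 * w ^ 3) + t ^ 3 * A)) ∨
      0 + δ * (-(S / (2 * w * (1 + w))) + -(t ^ 2 * B)) ≠ 0) := by
  set r : ℝ := √(1 + t ^ 2) with hr
  have hr2 : r ^ 2 = 1 + t ^ 2 := by rw [hr, Real.sq_sqrt (by positivity)]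
  have hr1 : 1 ≤ r := by rw [hr, Real.one_le_sqrt]; linarith [sq_nonneg t]
  have hrt' : r ≤ 1 + t := by
    rw [hr, Real.sqrt_le_left (by linarith)]
    have : (1 + t) ^ 2 = 1 + t ^ 2 + 2 * t := by ring
    linarith
  have hr0 : 0 < r := by linarith
  have hru : r ≤ 51 / 50 := by linarith
  have hwr : w = r / t := by
    rw [hw, hr]
    have h1 : (1 : ℝ) + t⁻¹ ^ 2 = (1 + t ^ 2) / t ^ 2 := by
      field_simp
      ring
    rw [h1, Real.sqrt_div (by positivity), Real.sqrt_sq ht.le]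
  have hw0 : 0 < w := by rw [hwr]; positivity
  have hv : 1 / (1 + w) = t * (r - t) := by
    rw [hwr]
    have h1 : (r - t) * (r + t) = 1 := by
      have h0 : (r - t) * (r + t) = r ^ 2 - t ^ 2 := by ring
      rw [h0, hr2]; ring
    have h2 : r + t ≠ 0 := by positivity
    have h3 : 1 + r / t = (r + t) / t := by field_simp; ring
    rw [h3, one_div_div, div_eq_iff h2]
    calc t = t * ((r - t) * (r + t)) := by rw [h1, mul_one]
      _ = t * (r - t) * (r + t) := by ring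
  have h4v : 4 / (1 + w) = 4 * (t * (r - t)) := by
    rw [← hv]; ring
  have hrt0 : 0 < r - t := by
    have : t < r := by linarith
    linarith
  have hrt1 : r - t ≤ 1 := by linarith
  set v : ℝ := r - t with hvdef
  have hC : |C| ≤ 1 := by
    rw [← sq_le_one_iff_abs_le_one]; linarith [sq_nonneg S]
  have hS : |S| ≤ 1 := by
    rw [← sq_le_one_iff_abs_le_one]; linarith [sq_nonneg C]
  set g : ℝ := 4 * (t * v) - 3 with hg
  have htv : 0 ≤ t * v := by positivity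
  have htv1 : t * v ≤ 1 / 50 * 1 := mul_le_mul ht1 hrt1 hrt0.le (by norm_num)
  have hgabs : |g| ≤ 3 := by rw [abs_le]; constructor <;> linarith
  have hCg : |C * g| ≤ 3 := by
    rw [abs_mul]
    calc |C| * |g| ≤ 1 * 3 := mul_le_mul hC hgabs (abs_nonneg _) zero_le_one
      _ = 3 := by norm_num
  have hδC : |δ * C| ≤ 1 / 100 := by
    rw [abs_mul, abs_of_pos hδ]
    calc δ * |C| ≤ 1 / 100 * 1 := mul_le_mul hδ1 hC (abs_nonneg _) (by norm_num)
      _ = 1 / 100 := by norm_num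
  have hδCg : |δ * (C * g)| ≤ 3 / 100 := by
    rw [abs_mul, abs_of_pos hδ]
    calc δ * |C * g| ≤ 1 / 100 * 3 := mul_le_mul hδ1 hCg (abs_nonneg _) (by norm_num)
      _ = 3 / 100 := by norm_num
  have u1 := abs_le.1 hδC
  have u2 := abs_le.1 hδCg
  have u3 := abs_le.1 hB
  have u4 := abs_le.1 hE
  -- the three entries
  have eα : 1 / w ^ 3 + δ * (C / (4 * w ^ 3) + t ^ 3 * A) =
      t ^ 3 * ((1 + δ * C / 4) / r ^ 3 + δ * A) := by
    rw [hwr]; field_simp; ring
  have eγ : 1 / w + δ * (C * (4 / (1 + w) - 3) / (4 * w) + t * E) =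
      t * ((1 + δ * (C * g) / 4) / r + δ * E) := by
    rw [h4v, ← hg, hwr]; field_simp; ring
  have eβ : 0 + δ * (-(S / (2 * w * (1 + w))) + -(t ^ 2 * B)) =
      -(t ^ 2 * (δ * (S / 2 * (1 - t / r) + B))) := by
    have h1 : S / (2 * w * (1 + w)) = t ^ 2 * (S / 2 * (1 - t / r)) := by
      have h2 : S / (2 * w * (1 + w)) = S / 2 * (1 / w) * (1 / (1 + w)) := by
        have : 1 + w ≠ 0 := by positivity
        field_simp
      rw [h2, hv, hwr]
      field_simp
      rw [hvdef]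
    rw [h1]; ring
  set α' : ℝ := (1 + δ * C / 4) / r ^ 3 + δ * A with hα'
  set γ' : ℝ := (1 + δ * (C * g) / 4) / r + δ * E with hγ'
  set β' : ℝ := δ * (S / 2 * (1 - t / r) + B) with hβ'
  have hr3 : r ^ 3 ≤ 11 / 10 := by
    calc r ^ 3 ≤ (51 / 50) ^ 3 := pow_le_pow_left₀ hr0.le hru 3
      _ ≤ 11 / 10 := by norm_num
  have bα : 1 / 2 ≤ α' := by
    have h1 : 9 / 10 ≤ (1 + δ * C / 4) / r ^ 3 := by
      rw [le_div_iff₀ (by positivity)]
      calc 9 / 10 * r ^ 3 ≤ 9 / 10 * (11 / 10) := mul_le_mul_of_nonneg_left hr3 (by norm_num)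
        _ ≤ 1 + δ * C / 4 := by linarith
    rw [hα']; linarith
  have bγ : 1 / 2 ≤ γ' := by
    have h1 : 9 / 10 ≤ (1 + δ * (C * g) / 4) / r := by
      rw [le_div_iff₀ hr0]
      linarith
    rw [hγ']; linarith
  have bγ2 : r * γ' ≤ 2 := by
    have h1 : r * γ' = (1 + δ * (C * g) / 4) + r * (δ * E) := by
      rw [hγ']; field_simp
    have h2 : r * (δ * E) ≤ r * (1 / 50) := mul_le_mul_of_nonneg_left u4.2 hr0.le
    rw [h1]; linarith
  have bβ : |β'| ≤ 1 / 4 := by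
    have h0 : |1 - t / r| ≤ 1 := by
      have h1 : 0 ≤ t / r := by positivity
      have h2 : t / r ≤ 1 := by rw [div_le_one hr0]; linarith
      rw [abs_le]; constructor <;> linarith
    have h1 : |S / 2 * (1 - t / r)| ≤ 1 / 2 * 1 := by
      rw [abs_mul]
      refine mul_le_mul ?_ h0 (abs_nonneg _) (by norm_num)
      rw [abs_div, abs_of_pos (by norm_num : (0 : ℝ) < 2)]
      linarith
    have h2 : |δ * (S / 2 * (1 - t / r))| ≤ 1 / 100 * (1 / 2 * 1) := by
      rw [abs_mul, abs_of_pos hδ]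
      exact mul_le_mul hδ1 h1 (abs_nonneg _) (by norm_num)
    have h3 := abs_le.1 h2
    have h4 : β' = δ * (S / 2 * (1 - t / r)) + δ * B := by rw [hβ']; ring
    rw [h4, abs_le]; constructor <;> linarith
  refine ⟨?_, ?_, ?_, ?_⟩
  · rw [eα]
    have : 0 < t ^ 3 := by positivity
    exact mul_pos this (by linarith)
  · rw [eα, eβ, eγ]
    have h1 : (-(t ^ 2 * β')) ^ 2 = t ^ 4 * β' ^ 2 := by ring
    have h2 : t ^ 3 * α' * (t * γ') = t ^ 4 * (α' * γ') := by ring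
    rw [h1, h2]
    apply mul_lt_mul_of_pos_left _ (by positivity)
    have h3 : β' ^ 2 ≤ 1 / 16 := by
      have h4 := sq_abs β'
      have h5 : |β'| ^ 2 ≤ (1 / 4) ^ 2 := pow_le_pow_left₀ (abs_nonneg _) bβ 2
      rw [h4] at h5
      linarith
    have h4 : 1 / 4 ≤ α' * γ' := by
      calc (1 : ℝ) / 4 = 1 / 2 * (1 / 2) := by norm_num
        _ ≤ _ := mul_le_mul bα bγ (by norm_num) (by linarith)
    linarith
  · rw [eγ, hwr]
    have : r / t * (t * γ') = r * γ' := by field_simp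
    rw [this]
    exact bγ2
  · by_contra hcon
    push Not at hcon
    obtain ⟨h1, h2⟩ := hcon
    rw [eα, eγ] at h1
    rw [eβ] at h2
    have h3 : S / 2 * (1 - t / r) + B = 0 := by
      have h4 : t ^ 2 * β' = 0 := by linarith
      rcases mul_eq_zero.1 h4 with h | h
      · exfalso
        have : 0 < t ^ 2 := by positivity
        linarith
      · rcases mul_eq_zero.1 h with h | h
        · exact absurd h hδ.ne'
        · exact h
    have h5 : γ' = r ^ 2 * α' := by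
      have h6 : (1 + t⁻¹ ^ 2) * (t ^ 3 * α') = t * (r ^ 2 * α') := by
        rw [hr2]; field_simp; ring
      rw [h6] at h1
      exact mul_left_cancel₀ ht.ne' h1
    refine hP ?_ h3
    have h7 : r * (γ' - r ^ 2 * α') = 0 := by rw [h5]; ring
    have h8 : r * (γ' - r ^ 2 * α') =
        δ * (C * (g - 1) / 4 + r * (E - r ^ 2 * A)) := by
      rw [hγ', hα']; field_simp; ring
    rw [h8] at h7
    rcases mul_eq_zero.1 h7 with h | h
    · exact absurd h hδ.ne'
    · have h9 : g - 1 = -(4 * (r * v)) := by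
        have h0 : r ^ 2 - t ^ 2 = 1 := by rw [hr2]; ring
        rw [hg, hvdef]
        linear_combination 4 * h0
      rw [h9] at h
      have h10 : r * (-C * v + (E - r ^ 2 * A)) = 0 := by linarith
      rcases mul_eq_zero.1 h10 with h' | h'
      · exact absurd h' hr0.ne'
      · rw [← hr2]
        linarith

end Asm

end Pool.Agent.Helper41.MU
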