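import Mathlib
import Pool.Agent.Helper41.MU.Defs

/-!
# Umbilic-free islands (MP_7d7bd6_gt): the base function and the quadrupole term

Module MU-6: the second derivatives of `W p = √(1 + |p|²)` and of
`V p = (p₀² - p₁²) / (4 (1 + W p))`.
-/

set_option autoImplicit false

open Set Filter Topology
open scoped ContDiff

namespace Pool.Agent.Helper41.MU

namespace Base

/-- the second derivative of a smooth function from derivatives along lines -/
theorem fderiv_of_line {F : E2 → ℝ} (hF : Differentiable ℝ F) {F1 : E2 → E2 → ℝ}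
    (h1 : ∀ p v : E2, HasDerivAt (fun x : ℝ => F (p + x • v)) (F1 p v) 0) (p v : E2) :
    fderiv ℝ F p v = F1 p v := by
  have hline : HasDerivAt (fun x : ℝ => p + x • v) v 0 := by
    have := ((hasDerivAt_id (0 : ℝ)).smul_const v).const_add p
    simpa using this
  have hd : HasFDerivAt F (fderiv ℝ F p) (p + (0 : ℝ) • v) := by
    simpa using (hF p).hasFDerivAt
  have h2 := hd.comp_hasDerivAt (0 : ℝ) hline
  exact h2.unique (h1 p v)

theorem H_of_line {F : E2 → ℝ} (hF : ContDiff ℝ ∞ F) {F1 : E2 → E2 → ℝ}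
    (h1 : ∀ p v : E2, HasDerivAt (fun x : ℝ => F (p + x • v)) (F1 p v) 0) (p u v : E2)
    {F2 : ℝ} (h2 : HasDerivAt (fun x : ℝ => F1 (p + x • u) v) F2 0) :
    H F p u v = F2 := by
  have hdiff : Differentiable ℝ F := hF.differentiable (by simp)
  have hd2 : Differentiable ℝ (fderiv ℝ F) :=
    (hF.fderiv_right (m := ∞) (by simp)).differentiable (by simp)
  have e : H F p u v = fderiv ℝ (fun q => fderiv ℝ F q v) p u := by
    unfold H
    have h3 := ((hd2 p).hasFDerivAt.clm_apply (hasFDerivAt_const v p)).fderiv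
    rw [h3]
    simp
  rw [e]
  have e2 : (fun q => fderiv ℝ F q v) = fun q => F1 q v := by
    funext q
    exact fderiv_of_line hdiff h1 q v
  have hd3 : Differentiable ℝ (fun q => fderiv ℝ F q v) := by
    intro q
    exact ((hd2 q).hasFDerivAt.clm_apply (hasFDerivAt_const v q)).differentiableAt
  have hline : HasDerivAt (fun x : ℝ => p + x • u) u 0 := by
    have := ((hasDerivAt_id (0 : ℝ)).smul_const u).const_add p
    simpa using this
  have hd : HasFDerivAt (fun q => fderiv ℝ F q v) (fderiv ℝ (fun q => fderiv ℝ F q v) p)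
      (p + (0 : ℝ) • u) := by
    simpa using (hd3 p).hasFDerivAt
  have h4 := hd.comp_hasDerivAt (0 : ℝ) hline
  have h5 : HasDerivAt (fun x : ℝ => F1 (p + x • u) v)
      (fderiv ℝ (fun q => fderiv ℝ F q v) p u) 0 := by
    have : ((fun q => fderiv ℝ F q v) ∘ fun x : ℝ => p + x • u) =
        fun x : ℝ => F1 (p + x • u) v := by
      funext x
      exact congrFun e2 _
    rw [this] at h4
    exact h4
  exact h5.unique h2

/-- the base function -/
noncomputable def W (p : E2) : ℝ := √(1 + (p 0 ^ 2 + p 1 ^ 2))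

/-- the quadrupole term -/
noncomputable def V (p : E2) : ℝ := (p 0 ^ 2 - p 1 ^ 2) / (4 * (1 + W p))

noncomputable def W1 (p v : E2) : ℝ := (p 0 * v 0 + p 1 * v 1) / W p

noncomputable def W2 (p u v : E2) : ℝ :=
  (u 0 * v 0 + u 1 * v 1) / W p - (p 0 * v 0 + p 1 * v 1) * W1 p u / W p ^ 2

noncomputable def V1 (p v : E2) : ℝ :=
  (2 * (p 0 * v 0 - p 1 * v 1)) / (4 * (1 + W p)) -
    (p 0 ^ 2 - p 1 ^ 2) * W1 p v / (4 * (1 + W p) ^ 2)

noncomputable def V2 (p u v : E2) : ℝ :=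
  (2 * (u 0 * v 0 - u 1 * v 1)) / (4 * (1 + W p)) -
    (2 * (p 0 * v 0 - p 1 * v 1)) * W1 p u / (4 * (1 + W p) ^ 2) -
    (2 * (p 0 * u 0 - p 1 * u 1) * W1 p v + (p 0 ^ 2 - p 1 ^ 2) * W2 p u v) /
      (4 * (1 + W p) ^ 2) +
    2 * ((p 0 ^ 2 - p 1 ^ 2) * W1 p v) * W1 p u / (4 * (1 + W p) ^ 3)

theorem one_le_W (p : E2) : 1 ≤ W p := by
  unfold W
  rw [show (1 : ℝ) = √1 by simp]
  apply Real.sqrt_le_sqrt
  simp only [Real.sqrt_one]
  nlinarith [sq_nonneg (p 0), sq_nonneg (p 1)]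

theorem W_pos (p : E2) : 0 < W p := lt_of_lt_of_le one_pos (one_le_W p)

theorem contDiff_coord (i : Fin 2) : ContDiff ℝ ∞ (fun p : E2 => p i) := by
  exact (EuclideanSpace.proj i : E2 →L[ℝ] ℝ).contDiff

theorem contDiff_W : ContDiff ℝ ∞ W := by
  unfold W
  apply ContDiff.sqrt
  · exact contDiff_const.add (((contDiff_coord 0).pow 2).add ((contDiff_coord 1).pow 2))
  · intro p
    nlinarith [sq_nonneg (p 0), sq_nonneg (p 1)]

theorem contDiff_V : ContDiff ℝ ∞ V := by
  unfold V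
  apply ContDiff.div
  · exact ((contDiff_coord 0).pow 2).sub ((contDiff_coord 1).pow 2)
  · exact contDiff_const.mul (contDiff_const.add contDiff_W)
  · intro p
    have := W_pos p
    positivity

theorem line_coord (p v : E2) (i : Fin 2) :
    HasDerivAt (fun x : ℝ => (p + x • v) i) (v i) 0 := by
  have h : (fun x : ℝ => (p + x • v) i) = fun x : ℝ => p i + x * v i := by
    funext x
    simp
  rw [h]
  simpa using ((hasDerivAt_id (0 : ℝ)).mul_const (v i)).const_add (p i)

theorem line_zero (p v : E2) : p + (0 : ℝ) • v = p := by simp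

theorem line_W (p v : E2) : HasDerivAt (fun x : ℝ => W (p + x • v)) (W1 p v) 0 := by
  have h0 := line_coord p v 0
  have h1 := line_coord p v 1
  have h2 := ((h0.pow 2).add (h1.pow 2)).const_add 1
  have hne : (1 : ℝ) + (((p + (0 : ℝ) • v) 0) ^ 2 + ((p + (0 : ℝ) • v) 1) ^ 2) ≠ 0 := by
    positivity
  have h3 := h2.sqrt hne
  refine h3.congr_deriv ?_
  simp only [line_zero]
  unfold W1 W
  have hpos : 0 < √(1 + (p 0 ^ 2 + p 1 ^ 2)) := W_pos p
  simp
  field_simp

theorem line_V (p v : E2) : HasDerivAt (fun x : ℝ => V (p + x • v)) (V1 p v) 0 := by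
  have h0 := line_coord p v 0
  have h1 := line_coord p v 1
  have hW := line_W p v
  have hn := (h0.pow 2).sub (h1.pow 2)
  have hd := (hW.const_add 1).const_mul 4
  have hne : 4 * (1 + W (p + (0 : ℝ) • v)) ≠ 0 := by
    have := W_pos (p + (0 : ℝ) • v)
    positivity
  have h3 := hn.div hd hne
  refine h3.congr_deriv ?_
  simp only [line_zero]
  unfold V1
  have hpos : 0 < W p := W_pos p
  have hpos2 : 0 < 1 + W p := by positivity
  simp
  field_simp

theorem line_W1 (p u v : E2) : HasDerivAt (fun x : ℝ => W1 (p + x • u) v) (W2 p u v) 0 := by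
  have h0 := line_coord p u 0
  have h1 := line_coord p u 1
  have hW := line_W p u
  have hn := (h0.mul_const (v 0)).add (h1.mul_const (v 1))
  have hne : W (p + (0 : ℝ) • u) ≠ 0 := (W_pos _).ne'
  have h3 := hn.div hW hne
  refine h3.congr_deriv ?_
  simp only [line_zero]
  unfold W2
  have hpos : 0 < W p := W_pos p
  field_simp
  simp
  ring

theorem line_V1 (p u v : E2) : HasDerivAt (fun x : ℝ => V1 (p + x • u) v) (V2 p u v) 0 := by
  have h0 := line_coord p u 0
  have h1 := line_coord p u 1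
  have hW := line_W p u
  have hW1 := line_W1 p u v
  have hn1 := ((h0.mul_const (v 0)).sub (h1.mul_const (v 1))).const_mul 2
  have hd1 := (hW.const_add 1).const_mul 4
  have hne1 : 4 * (1 + W (p + (0 : ℝ) • u)) ≠ 0 := by
    have := W_pos (p + (0 : ℝ) • u)
    positivity
  have hA := (h0.pow 2).sub (h1.pow 2)
  have hn2 := hA.mul hW1
  have hd2 := ((hW.const_add 1).pow 2).const_mul 4
  have hne2 : 4 * (1 + W (p + (0 : ℝ) • u)) ^ 2 ≠ 0 := by
    have := W_pos (p + (0 : ℝ) • u)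
    positivity
  have h3 := (hn1.div hd1 hne1).sub (hn2.div hd2 hne2)
  refine h3.congr_deriv ?_
  simp only [line_zero]
  unfold V2
  have hpos : 0 < W p := W_pos p
  have hpos2 : 0 < 1 + W p := by positivity
  simp
  field_simp
  ring

end Base

open Base in
/-- MU-6 BASE -/
theorem base : ∃ W V : E2 → ℝ, ContDiff ℝ ∞ W ∧ ContDiff ℝ ∞ V ∧
    ∀ θ s ρ : ℝ, 0 ≤ s → ρ = √(1 + s ^ 2) →
      H W (s • cv θ) (cv θ) (cv θ) = 1 / ρ ^ 3 ∧
      H W (s • cv θ) (cv θ) (cw θ) = 0 ∧
      H W (s • cv θ) (cw θ) (cw θ) = 1 / ρ ∧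
      fderiv ℝ W (s • cv θ) (s • cv θ) - W (s • cv θ) = -(1 / ρ) ∧
      H V (s • cv θ) (cv θ) (cv θ) = Real.cos (2 * θ) / (4 * ρ ^ 3) ∧
      H V (s • cv θ) (cv θ) (cw θ) = -(Real.sin (2 * θ) / (2 * ρ * (1 + ρ))) ∧
      H V (s • cv θ) (cw θ) (cw θ) = Real.cos (2 * θ) * (4 / (1 + ρ) - 3) / (4 * ρ) ∧
      fderiv ℝ V (s • cv θ) (s • cv θ) - V (s • cv θ) =
        Real.cos (2 * θ) * (1 - 1 / ρ) / 4 := by
  refine ⟨Base.W, Base.V, contDiff_W, contDiff_V, ?_⟩
  intro θ s ρ hs hρ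
  have hsc := Real.sin_sq_add_cos_sq θ
  have hWρ : Base.W (s • cv θ) = ρ := by
    rw [hρ]
    unfold Base.W
    congr 1
    simp [cv]
    nlinarith [hsc]
  have hρpos : 0 < ρ := by
    rw [← hWρ]
    exact W_pos _
  have hρ2 : ρ ^ 2 = 1 + s ^ 2 := by
    rw [hρ, Real.sq_sqrt (by positivity)]
  have hs2 : s ^ 2 = ρ ^ 2 - 1 := by linarith
  have h1ρ : 0 < 1 + ρ := by linarith
  have hW1c : W1 (s • cv θ) (cv θ) = s / ρ := by
    unfold W1
    rw [hWρ]
    congr 1
    simp [cv]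
    nlinarith [hsc]
  have hW1w : W1 (s • cv θ) (cw θ) = 0 := by
    unfold W1
    rw [hWρ]
    rw [div_eq_zero_iff]
    left
    simp [cv, cw]
    ring
  have hW1s : W1 (s • cv θ) (s • cv θ) = s ^ 2 / ρ := by
    unfold W1
    rw [hWρ]
    congr 1
    simp [cv]
    nlinarith [hsc]
  have e1 : (cv θ) 0 = Real.cos θ := by simp [cv]
  have e2 : (cv θ) 1 = Real.sin θ := by simp [cv]
  have e3 : (cw θ) 0 = -Real.sin θ := by simp [cw]
  have e4 : (cw θ) 1 = Real.cos θ := by simp [cw]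
  have e5 : (s • cv θ) 0 = s * Real.cos θ := by simp [cv]
  have e6 : (s • cv θ) 1 = s * Real.sin θ := by simp [cv]
  have hW2cc : W2 (s • cv θ) (cv θ) (cv θ) = 1 / ρ ^ 3 := by
    unfold W2
    rw [hWρ, hW1c, e1, e2, e5, e6]
    have : Real.cos θ * Real.cos θ + Real.sin θ * Real.sin θ = 1 := by nlinarith [hsc]
    rw [this]
    have h' : s * Real.cos θ * Real.cos θ + s * Real.sin θ * Real.sin θ = s := by
      calc _ = s * (Real.cos θ * Real.cos θ + Real.sin θ * Real.sin θ) := by ring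
        _ = s := by rw [this]; ring
    rw [h']
    field_simp
    nlinarith [hs2]
  have hW2cw : W2 (s • cv θ) (cv θ) (cw θ) = 0 := by
    unfold W2
    rw [hWρ, hW1c, e1, e2, e3, e4, e5, e6]
    have : Real.cos θ * -Real.sin θ + Real.sin θ * Real.cos θ = 0 := by ring
    rw [this]
    have h' : s * Real.cos θ * -Real.sin θ + s * Real.sin θ * Real.cos θ = 0 := by ring
    rw [h']
    simp
  have hW2ww : W2 (s • cv θ) (cw θ) (cw θ) = 1 / ρ := by
    unfold W2
    rw [hWρ, hW1w, e3, e4]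
    have : -Real.sin θ * -Real.sin θ + Real.cos θ * Real.cos θ = 1 := by nlinarith [hsc]
    rw [this]
    simp
  have hc2 : Real.cos (2 * θ) = Real.cos θ ^ 2 - Real.sin θ ^ 2 := by
    rw [Real.cos_two_mul]
    nlinarith [hsc]
  have hs2θ : Real.sin (2 * θ) = 2 * Real.sin θ * Real.cos θ := Real.sin_two_mul θ
  refine ⟨?_, ?_, ?_, ?_, ?_, ?_, ?_, ?_⟩
  · rw [H_of_line contDiff_W line_W _ _ _ (line_W1 _ _ _), hW2cc]
  · rw [H_of_line contDiff_W line_W _ _ _ (line_W1 _ _ _), hW2cw]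
  · rw [H_of_line contDiff_W line_W _ _ _ (line_W1 _ _ _), hW2ww]
  · rw [fderiv_of_line (contDiff_W.differentiable (by simp)) line_W, hWρ, hW1s, hs2]
    field_simp
    ring
  · rw [H_of_line contDiff_V line_V _ _ _ (line_V1 _ _ _)]
    unfold V2
    rw [hWρ, hW1c, hW2cc, e1, e2, e5, e6]
    have f1 : Real.cos θ * Real.cos θ - Real.sin θ * Real.sin θ = Real.cos (2 * θ) := by
      rw [hc2]; ring
    have f2 : s * Real.cos θ * Real.cos θ - s * Real.sin θ * Real.sin θ =
        s * Real.cos (2 * θ) := by rw [hc2]; ring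
    have f3 : (s * Real.cos θ) ^ 2 - (s * Real.sin θ) ^ 2 = s ^ 2 * Real.cos (2 * θ) := by
      rw [hc2]; ring
    rw [f1, f2, f3]
    generalize Real.cos (2 * θ) = C
    have g1 : 2 * (s * C) * (s / ρ) = 2 * C * (s ^ 2 / ρ) := by ring
    have g2 : 2 * (s ^ 2 * C * (s / ρ)) * (s / ρ) = 2 * C * (s ^ 2) ^ 2 / ρ ^ 2 := by
      field_simp
    rw [g1, g2, hs2]
    field_simp
    ring
  · rw [H_of_line contDiff_V line_V _ _ _ (line_V1 _ _ _)]
    unfold V2
    rw [hWρ, hW1c, hW1w, hW2cw, e1, e2, e3, e4, e5, e6]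
    have f1 : Real.cos θ * -Real.sin θ - Real.sin θ * Real.cos θ = -Real.sin (2 * θ) := by
      rw [hs2θ]; ring
    have f2 : s * Real.cos θ * -Real.sin θ - s * Real.sin θ * Real.cos θ =
        -(s * Real.sin (2 * θ)) := by rw [hs2θ]; ring
    rw [f1, f2]
    generalize Real.sin (2 * θ) = C
    have g1 : 2 * -(s * C) * (s / ρ) = -(2 * C * (s ^ 2 / ρ)) := by ring
    rw [g1, hs2]
    simp only [mul_zero, zero_mul, zero_div, add_zero, sub_zero]
    field_simp
    ring
  · rw [H_of_line contDiff_V line_V _ _ _ (line_V1 _ _ _)]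
    unfold V2
    rw [hWρ, hW1w, hW2ww, e3, e4, e5, e6]
    have f1 : -Real.sin θ * -Real.sin θ - Real.cos θ * Real.cos θ = -Real.cos (2 * θ) := by
      rw [hc2]; ring
    have f3 : (s * Real.cos θ) ^ 2 - (s * Real.sin θ) ^ 2 = s ^ 2 * Real.cos (2 * θ) := by
      rw [hc2]; ring
    rw [f1, f3]
    generalize Real.cos (2 * θ) = C
    rw [hs2]
    simp only [mul_zero, zero_div, add_zero, sub_zero, zero_add]
    field_simp
    ring
  · rw [fderiv_of_line (contDiff_V.differentiable (by simp)) line_V]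
    unfold V1 Base.V
    rw [hWρ, hW1s, e5, e6]
    have f2 : s * Real.cos θ * (s * Real.cos θ) - s * Real.sin θ * (s * Real.sin θ) =
        s ^ 2 * Real.cos (2 * θ) := by rw [hc2]; ring
    have f3 : (s * Real.cos θ) ^ 2 - (s * Real.sin θ) ^ 2 = s ^ 2 * Real.cos (2 * θ) := by
      rw [hc2]; ring
    rw [f2, f3]
    generalize Real.cos (2 * θ) = C
    rw [hs2]
    field_simp
    ring

end Pool.Agent.Helper41.MU
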