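import Mathlib
import Pool.Agent.Helper41.MU.Defs

/-!
# Smooth profile functions
-/

set_option autoImplicit false

open Set Filter Topology
open scoped ContDiff

namespace Pool.Agent.Helper41.MU

namespace Prof

/-- primitive vanishing at `c` -/
noncomputable def prim (f : ℝ → ℝ) (c y : ℝ) : ℝ := ∫ x in c..y, f x

theorem hasDerivAt_prim {f : ℝ → ℝ} (hf : Continuous f) (c y : ℝ) :
    HasDerivAt (prim f c) (f y) y :=
  intervalIntegral.integral_hasDerivAt_right (hf.intervalIntegrable _ _)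
    (hf.stronglyMeasurableAtFilter _ _) hf.continuousAt

theorem contDiff_prim {f : ℝ → ℝ} (hf : ContDiff ℝ ∞ f) (c : ℝ) : ContDiff ℝ ∞ (prim f c) := by
  rw [contDiff_infty_iff_deriv]
  refine ⟨fun y => (hasDerivAt_prim hf.continuous c y).differentiableAt, ?_⟩
  have : deriv (prim f c) = f := by
    funext y
    exact (hasDerivAt_prim hf.continuous c y).deriv
  rw [this]
  exact hf

theorem prim_zero {f : ℝ → ℝ} {c : ℝ} (h : ∀ y, c ≤ y → f y = 0) (y : ℝ) (hy : c ≤ y) :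
    prim f c y = 0 := by
  rw [prim]
  have : ∀ x ∈ uIcc c y, f x = (fun _ => (0:ℝ)) x := by
    intro x hx
    rw [uIcc_of_le hy] at hx
    exact h x hx.1
  rw [intervalIntegral.integral_congr this]
  simp

end Prof

/-- profiles -/
theorem exists_profiles : ∃ b q q1 κ bT qT qT1 : ℝ → ℝ,
    ContDiff ℝ ∞ b ∧ ContDiff ℝ ∞ q ∧ ContDiff ℝ ∞ q1 ∧ ContDiff ℝ ∞ κ ∧ ContDiff ℝ ∞ bT ∧
    ContDiff ℝ ∞ qT ∧ ContDiff ℝ ∞ qT1 ∧
    (∀ y, 0 ≤ b y ∧ b y ≤ 1) ∧ (∀ y, |y| ≤ 1 / 8 → b y = 1) ∧ (∀ y, 1 / 4 ≤ |y| → b y = 0) ∧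
    (∀ y, HasDerivAt q (q1 y) y) ∧ (∀ y, HasDerivAt q1 (b y) y) ∧ (∀ y, 1 / 4 ≤ y → q y = 0) ∧
    (∀ y, 1 / 4 ≤ y → q1 y = 0) ∧
    (∀ y, |y| ≤ 1 / 4 → κ y = 1) ∧ (∀ y, 1 / 2 ≤ |y| → κ y = 0) ∧ (∀ y, 0 ≤ κ y ∧ κ y ≤ 1) ∧
    (∀ y, 0 ≤ bT y) ∧ (∀ y, 1 / 8 ≤ |y| → bT y = 0) ∧
    (∀ y, HasDerivAt qT (qT1 y) y) ∧ (∀ y, HasDerivAt qT1 (bT y) y) ∧
    (∀ y, 1 / 8 ≤ y → qT y = 0) ∧ (∀ y, 1 / 8 ≤ y → qT1 y = 0) ∧
    (∀ y, y ≤ -(1 / 8) → qT1 y = -1) ∧ (∀ y, -1 ≤ qT1 y ∧ qT1 y ≤ 0) := by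
  set b : ContDiffBump (0:ℝ) := ⟨1 / 8, 1 / 4, by norm_num, by norm_num⟩ with hb
  set κ : ContDiffBump (0:ℝ) := ⟨1 / 4, 1 / 2, by norm_num, by norm_num⟩ with hκ
  set t : ContDiffBump (0:ℝ) := ⟨1 / 16, 1 / 8, by norm_num, by norm_num⟩ with ht
  set bT : ℝ → ℝ := t.normed MeasureTheory.volume with hbT
  have hbs : ContDiff ℝ ∞ (b : ℝ → ℝ) := b.contDiff
  have hκs : ContDiff ℝ ∞ (κ : ℝ → ℝ) := κ.contDiff
  have hTs : ContDiff ℝ ∞ bT := t.contDiff_normed
  have hb0 : ∀ y, 1 / 4 ≤ |y| → b y = 0 := by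
    intro y hy
    apply b.zero_of_le_dist
    rw [Real.dist_eq, sub_zero]
    exact hy
  have hb0' : ∀ y, 1 / 4 ≤ y → b y = 0 := fun y hy => hb0 y (hy.trans (le_abs_self y))
  have hT0 : ∀ y, 1 / 8 ≤ |y| → bT y = 0 := by
    intro y hy
    rw [hbT, ContDiffBump.normed]
    rw [t.zero_of_le_dist (by rw [Real.dist_eq, sub_zero]; exact hy), zero_div]
  have hT0' : ∀ y, 1 / 8 ≤ y → bT y = 0 := fun y hy => hT0 y (hy.trans (le_abs_self y))
  have hTn : ∀ y, 0 ≤ bT y := fun y => t.nonneg_normed y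
  have hTi : ∫ x, bT x = 1 := t.integral_normed
  have hTint : ∫ x in (-(1 / 8 : ℝ))..(1 / 8), bT x = 1 := by
    refine (intervalIntegral.integral_eq_integral_of_support_subset ?_).trans hTi
    intro x hx
    rw [Function.mem_support] at hx
    have : |x| < 1 / 8 := by
      by_contra hcon
      exact hx (hT0 x (not_lt.mp hcon))
    rw [abs_lt] at this
    exact ⟨this.1, this.2.le⟩
  set q1 := Prof.prim b (1 / 4) with hq1
  set q := Prof.prim q1 (1 / 4) with hq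
  set qT1 := Prof.prim bT (1 / 8) with hqT1
  set qT := Prof.prim qT1 (1 / 8) with hqT
  have hq1s : ContDiff ℝ ∞ q1 := Prof.contDiff_prim hbs _
  have hqT1s : ContDiff ℝ ∞ qT1 := Prof.contDiff_prim hTs _
  have hd : ∀ y, HasDerivAt qT1 (bT y) y := fun y => Prof.hasDerivAt_prim hTs.continuous _ y
  have hmono : Monotone qT1 := by
    apply monotone_of_deriv_nonneg
    · exact fun y => (hd y).differentiableAt
    · intro y
      rw [(hd y).deriv]
      exact hTn y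
  have hlow : ∀ y, y ≤ -(1 / 8) → qT1 y = -1 := by
    intro y hy
    rw [hqT1, Prof.prim, intervalIntegral.integral_symm,
      ← intervalIntegral.integral_add_adjacent_intervals (b := -(1 / 8))
        (hTs.continuous.intervalIntegrable _ _) (hTs.continuous.intervalIntegrable _ _), hTint]
    have : ∀ x ∈ uIcc y (-(1 / 8)), bT x = (fun _ => (0:ℝ)) x := by
      intro x hx
      rw [uIcc_of_le hy] at hx
      apply hT0
      rw [le_abs]
      right
      linarith [hx.2]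
    rw [intervalIntegral.integral_congr this]
    simp
  have hhigh : ∀ y, 1 / 8 ≤ y → qT1 y = 0 := fun y hy => Prof.prim_zero hT0' y hy
  refine ⟨b, q, q1, κ, bT, qT, qT1, hbs, Prof.contDiff_prim hq1s _, hq1s, hκs, hTs,
    Prof.contDiff_prim hqT1s _, hqT1s, fun y => ⟨b.nonneg, b.le_one⟩, ?_, hb0,
    fun y => Prof.hasDerivAt_prim hq1s.continuous _ y,
    fun y => Prof.hasDerivAt_prim hbs.continuous _ y, ?_, ?_, ?_, ?_,
    fun y => ⟨κ.nonneg, κ.le_one⟩, hTn, hT0,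
    fun y => Prof.hasDerivAt_prim hqT1s.continuous _ y, hd, ?_, hhigh, hlow, ?_⟩
  · intro y hy
    apply b.one_of_mem_closedBall
    rw [mem_closedBall_zero_iff, Real.norm_eq_abs]
    exact hy
  · exact fun y hy => Prof.prim_zero (fun z hz => Prof.prim_zero hb0' z hz) y hy
  · exact fun y hy => Prof.prim_zero hb0' y hy
  · intro y hy
    apply κ.one_of_mem_closedBall
    rw [mem_closedBall_zero_iff, Real.norm_eq_abs]
    exact hy
  · intro y hy
    apply κ.zero_of_le_dist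
    rw [Real.dist_eq, sub_zero]
    exact hy
  · exact fun y hy => Prof.prim_zero hhigh y hy
  · intro y
    constructor
    · rcases le_total y (-(1 / 8)) with h | h
      · rw [hlow y h]
      · rw [← hlow (-(1 / 8)) le_rfl]
        exact hmono h
    · rcases le_total (1 / 8) y with h | h
      · rw [hhigh y h]
      · rw [← hhigh (1 / 8) le_rfl]
        exact hmono h

end Pool.Agent.Helper41.MU
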