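import Mathlib
import Pool.Agent.Helper41.MU.Defs
import Pool.Agent.Helper41.MU.Data
import Pool.Agent.Helper41.MU.Prof

/-!
# Existence of the profiles and constants (MP_7d7bd6_gt)
-/

set_option autoImplicit false

open Set Filter Topology
open scoped ContDiff

namespace Pool.Agent.Helper41.MU

namespace ExData

lemma bd_mono {C C' : ℝ} {f : ℝ → ℝ} {x : ℝ} (h : Bd C f x) (hC : C ≤ C') : Bd C' f x :=
  ⟨h.1.trans hC, h.2.1.trans hC, h.2.2.trans hC⟩

lemma contDiff_deriv {f : ℝ → ℝ} (hf : ContDiff ℝ ∞ f) : ContDiff ℝ ∞ (deriv f) :=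
  (contDiff_infty_iff_deriv.1 hf).2

/-- a smooth function and its first two derivatives are bounded on compact intervals -/
lemma exists_bd {f : ℝ → ℝ} (hf : ContDiff ℝ ∞ f) (a b : ℝ) :
    ∃ C, 0 ≤ C ∧ ∀ x ∈ Icc a b, Bd C f x := by
  have h1 := contDiff_deriv hf
  have h2 := contDiff_deriv h1
  obtain ⟨C0, h0⟩ := isCompact_Icc.exists_bound_of_continuousOn
    (s := Icc a b) hf.continuous.continuousOn
  obtain ⟨C1, h1'⟩ := isCompact_Icc.exists_bound_of_continuousOn
    (s := Icc a b) h1.continuous.continuousOn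
  obtain ⟨C2, h2'⟩ := isCompact_Icc.exists_bound_of_continuousOn
    (s := Icc a b) h2.continuous.continuousOn
  refine ⟨max 0 (max C0 (max C1 C2)), le_max_left _ _, fun x hx => ⟨?_, ?_, ?_⟩⟩
  · have := h0 x hx
    rw [Real.norm_eq_abs] at this
    exact this.trans (by simp)
  · have := h1' x hx
    rw [Real.norm_eq_abs] at this
    exact this.trans (by simp)
  · have := h2' x hx
    rw [Real.norm_eq_abs] at this
    exact this.trans (by simp)

lemma periodic_deriv {f : ℝ → ℝ} {T : ℝ} (hf : Function.Periodic f T) :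
    Function.Periodic (deriv f) T := by
  intro x
  have h : (fun y => f (y + T)) = f := funext hf
  have h2 := deriv_comp_add_const f T x
  rw [h] at h2
  exact h2.symm

/-- a smooth periodic function and its first two derivatives are bounded -/
lemma exists_bd_periodic {f : ℝ → ℝ} (hf : ContDiff ℝ ∞ f)
    (hp : Function.Periodic f (2 * Real.pi)) :
    ∃ C, 0 ≤ C ∧ ∀ x, Bd C f x := by
  obtain ⟨C, hC0, hC⟩ := exists_bd hf 0 (2 * Real.pi)
  refine ⟨C, hC0, fun x => ?_⟩
  have hp1 := periodic_deriv hp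
  have hp2 := periodic_deriv hp1
  have hpos : 0 < 2 * Real.pi := by positivity
  obtain ⟨n, hn, -⟩ := existsUnique_sub_zsmul_mem_Ico hpos x 0
  rw [zero_add] at hn
  have := hC _ ⟨hn.1, hn.2.le⟩
  unfold Bd at this
  rwa [hp.sub_zsmul_eq, hp1.sub_zsmul_eq, hp2.sub_zsmul_eq] at this

lemma smoothTransition_add (x : ℝ) :
    Real.smoothTransition x + Real.smoothTransition (1 - x) = 1 := by
  unfold Real.smoothTransition
  have h := Real.smoothTransition.pos_denom x
  rw [sub_sub_cancel, add_comm (expNegInvGlue (1 - x)) (expNegInvGlue x), ← add_div]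
  exact div_self h.ne'

end ExData

open ExData in
/-- MU-4 DATA -/
theorem exists_data : Nonempty Data := by
  obtain ⟨b, q, q1, κ, bT, qT, qT1, sb, sq, sq1, sκ, sbT, sqT, sqT1, hb, hb1, hb0, dq, dq1,
    q0, q10, κ1, κ0, κm, bTn, bT0, dqT, dqT1, qT0, qT10, qT1n, qT1m⟩ := exists_profiles
  -- the bound K
  obtain ⟨K, hK0, hKb⟩ := exists_bd sb (-1) 1
  have hK : ∀ y, |deriv b y| ≤ K := by
    intro y
    by_cases hy : |y| ≤ 1
    · exact (hKb y (abs_le.1 hy)).2.1
    · push Not at hy
      have : b =ᶠ[𝓝 y] fun _ => (0 : ℝ) := by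
        have ho : IsOpen {z : ℝ | 1 < |z|} := isOpen_lt continuous_const continuous_abs
        filter_upwards [ho.mem_nhds hy] with z hz
        have hz' : 1 < |z| := hz
        exact hb0 z (by linarith)
      rw [this.deriv_eq]
      simpa using hK0
  -- the bound M0
  have sY : ContDiff ℝ ∞ (fY κ) := by
    unfold fY
    exact sκ.mul contDiff_id
  have sD : ContDiff ℝ ∞ (fD κ q1) := by
    unfold fD
    exact sκ.mul (sq1.sub contDiff_const)
  obtain ⟨Ca, hCa0, hCa⟩ := exists_bd sκ (-1) 1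
  obtain ⟨Cb, hCb0, hCb⟩ := exists_bd sY (-1) 1
  obtain ⟨Cc, hCc0, hCc⟩ := exists_bd sD (-1) 1
  obtain ⟨Cd, hCd0, hCd⟩ := exists_bd sq (-1) 1
  obtain ⟨Ce, hCe0, hCe⟩ := exists_bd sqT (-1) 1
  set M0 : ℝ := 1 + Ca + Cb + Cc with hM0def
  have hM0 : 1 ≤ M0 := by linarith
  set N : ℝ := 4 + 3 * K with hN
  have hNpos : 0 < N := by positivity
  have hN4 : 4 ≤ N := by linarith
  set X : ℝ := M0 * (22 * N + 20) with hX
  have hXpos : 0 < X := by positivity
  set ε : ℝ := min (1 / 100) (1 / (20 * X)) with hε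
  have hεpos : 0 < ε := lt_min (by norm_num) (by positivity)
  have hε1 : ε ≤ 1 / 100 := min_le_left _ _
  have hε2 : ε ≤ 1 / (20 * X) := min_le_right _ _
  have small0 : ε * X ≤ 1 / 20 := by
    calc ε * X ≤ 1 / (20 * X) * X := mul_le_mul_of_nonneg_right hε2 hXpos.le
      _ = 1 / 20 := by field_simp
  have hεN : ε * N ≤ 1 / 20 := by
    have : N ≤ X := by
      rw [hX]
      nlinarith
    exact (mul_le_mul_of_nonneg_left this hεpos.le).trans small0
  set om : ℝ := ε ^ 2 * N / 10 with hom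
  have hompos : 0 < om := by positivity
  have hom_le : om ≤ 1 / 100 := by
    rw [hom]
    nlinarith
  set χ : ℝ → ℝ := fun m => Real.smoothTransition ((m + 3 * om) / om) with hχ
  set η : ℝ → ℝ := fun n => Real.smoothTransition ((-(4 / 5) - n) / (3 / 20)) with hη
  set ℓ : ℝ → ℝ := fun m => Real.smoothTransition ((m + om) / (2 * om)) with hℓ
  have sχ : ContDiff ℝ ∞ χ :=
    Real.smoothTransition.contDiff.comp ((contDiff_id.add contDiff_const).div_const _)
  have sη : ContDiff ℝ ∞ η :=
    Real.smoothTransition.contDiff.comp ((contDiff_const.sub contDiff_id).div_const _)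
  have sℓ : ContDiff ℝ ∞ ℓ :=
    Real.smoothTransition.contDiff.comp ((contDiff_id.add contDiff_const).div_const _)
  have ssin : ContDiff ℝ ∞ (fun φ : ℝ => Real.sin (2 * φ)) :=
    Real.contDiff_sin.comp (contDiff_const.mul contDiff_id)
  have scos : ContDiff ℝ ∞ (fun φ : ℝ => Real.cos (2 * φ)) :=
    Real.contDiff_cos.comp (contDiff_const.mul contDiff_id)
  have psin : ∀ φ : ℝ, Real.sin (2 * (φ + 2 * Real.pi)) = Real.sin (2 * φ) := by
    intro φ
    have : 2 * (φ + 2 * Real.pi) = 2 * φ + (2 : ℕ) * (2 * Real.pi) := by push_cast; ring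
    rw [this, Real.sin_add_nat_mul_two_pi]
  have pcos : ∀ φ : ℝ, Real.cos (2 * (φ + 2 * Real.pi)) = Real.cos (2 * φ) := by
    intro φ
    have : 2 * (φ + 2 * Real.pi) = 2 * φ + (2 : ℕ) * (2 * Real.pi) := by push_cast; ring
    rw [this, Real.cos_add_nat_mul_two_pi]
  obtain ⟨C1, hC10, hC1⟩ := exists_bd_periodic (f := fS χ) (sχ.comp ssin)
    (fun φ => by simp only [fS, psin])
  obtain ⟨C2, hC20, hC2⟩ := exists_bd_periodic (f := fC η) (sη.comp scos)
    (fun φ => by simp only [fC, pcos])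
  obtain ⟨C3, hC30, hC3⟩ := exists_bd_periodic (f := fCS η χ)
    ((sη.comp scos).mul (sχ.comp ssin))
    (fun φ => by simp only [fCS, psin, pcos])
  obtain ⟨C4, hC40, hC4⟩ := exists_bd_periodic (f := fS ℓ) (sℓ.comp ssin)
    (fun φ => by simp only [fS, psin])
  set M : ℝ := 1 + 4 * N + M0 + Cd + Ce + C1 + C2 + C3 + C4 with hMdef
  have hMpos : 0 < M := by positivity
  have hM3 : 0 < M ^ 3 := by positivity
  have hM2 : 0 < M ^ 2 := by positivity
  refine ⟨{
    b := b, q := q, q1 := q1, κ := κ, bT := bT, qT := qT, qT1 := qT1,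
    χ := χ, η := η, ℓ := ℓ, K := K, M0 := M0, N := N, ε := ε, om := om, M := M,
    Δ := min 1 (ε ^ 2 * N / (80 * M ^ 2)),
    t0 := min (1 / 100) (ε ^ 2 * N / (8000 * M ^ 3)),
    sb := sb, sq := sq, sq1 := sq1, sκ := sκ, sbT := sbT, sqT := sqT, sqT1 := sqT1,
    sχ := sχ, sη := sη, sℓ := sℓ,
    b_nonneg := fun y => (hb y).1, b_le := fun y => (hb y).2, b_one := hb1, b_zero := hb0,
    dq := dq, dq1 := dq1, q_zero := q0, q1_zero := q10, κ_one := κ1, κ_zero := κ0,
    bT_nonneg := bTn, bT_zero := bT0, dqT := dqT, dqT1 := dqT1, qT_zero := qT0,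
    qT1_zero := qT10, qT1_neg := qT1n, qT1_mem := qT1m,
    χ_nonneg := fun m => Real.smoothTransition.nonneg _,
    χ_le := fun m => Real.smoothTransition.le_one _,
    χ_zero := ?_, χ_one := ?_,
    η_nonneg := fun m => Real.smoothTransition.nonneg _,
    η_le := fun m => Real.smoothTransition.le_one _,
    η_zero := ?_, η_one := ?_,
    ℓ_nonneg := fun m => Real.smoothTransition.nonneg _,
    ℓ_zero := ?_, ℓ_symm := ?_, K_nonneg := hK0, hK := hK, hN := hN, hM0 := hM0,
    ε_pos := hεpos, ε_le := hε1, hom := hom, om_le := hom_le,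
    bd0 := ?_, small0 := small0, hM := ?_, bdA := ?_, bdB := ?_,
    Δ_pos := lt_min one_pos (by positivity), Δ_le := min_le_left _ _,
    t0_pos := lt_min (by norm_num) (by positivity), t0_le := min_le_left _ _,
    small := ?_ }⟩
  · intro m hm
    exact Real.smoothTransition.zero_of_nonpos
      (div_nonpos_of_nonpos_of_nonneg (by linarith) hompos.le)
  · intro m hm
    apply Real.smoothTransition.one_of_one_le
    rw [le_div_iff₀ hompos]
    linarith
  · intro n hn
    exact Real.smoothTransition.zero_of_nonpos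
      (div_nonpos_of_nonpos_of_nonneg (by linarith) (by norm_num))
  · intro n hn
    apply Real.smoothTransition.one_of_one_le
    rw [le_div_iff₀ (by norm_num)]
    linarith
  · intro m hm
    exact Real.smoothTransition.zero_of_nonpos
      (div_nonpos_of_nonpos_of_nonneg (by linarith) (by positivity))
  · intro m
    have h1 : (-m + om) / (2 * om) = 1 - (m + om) / (2 * om) := by
      field_simp
      ring
    simp only [hℓ]
    rw [h1]
    exact smoothTransition_add _
  · intro y hy
    have hy' := abs_le.1 hy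
    exact ⟨bd_mono (hCa y hy') (by linarith), bd_mono (hCb y hy') (by linarith),
      bd_mono (hCc y hy') (by linarith)⟩
  · linarith
  · intro φ
    exact ⟨bd_mono (hC1 φ) (by linarith), bd_mono (hC2 φ) (by linarith),
      bd_mono (hC3 φ) (by linarith), bd_mono (hC4 φ) (by linarith)⟩
  · intro y hy
    have hy' := abs_le.1 hy
    exact ⟨bd_mono (hCd y hy') (by linarith), bd_mono (hCa y hy') (by linarith),
      bd_mono (hCb y hy') (by linarith), bd_mono (hCc y hy') (by linarith),
      ((hCe y hy').1).trans (by linarith)⟩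
  · have h1 : min (1 / 100) (ε ^ 2 * N / (8000 * M ^ 3)) ≤ ε ^ 2 * N / (8000 * M ^ 3) :=
      min_le_right _ _
    have h2 : min 1 (ε ^ 2 * N / (80 * M ^ 2)) ≤ ε ^ 2 * N / (80 * M ^ 2) := min_le_right _ _
    calc 200 * M ^ 3 * min (1 / 100) (ε ^ 2 * N / (8000 * M ^ 3)) +
          2 * M ^ 2 * min 1 (ε ^ 2 * N / (80 * M ^ 2))
        ≤ 200 * M ^ 3 * (ε ^ 2 * N / (8000 * M ^ 3)) + 2 * M ^ 2 * (ε ^ 2 * N / (80 * M ^ 2)) :=
          add_le_add (mul_le_mul_of_nonneg_left h1 (by positivity))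
            (mul_le_mul_of_nonneg_left h2 (by positivity))
      _ = ε ^ 2 * N / 20 := by
          field_simp
          ring

end Pool.Agent.Helper41.MU
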