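import Mathlib
import Pool.Agent.Helper41.MU.AsmA
import Pool.Agent.Helper41.MU.AsmB
import Pool.Agent.Helper41.MU.Base
import Pool.Agent.Helper41.MU.ExData

/-!
# Assembly (MP_7d7bd6_gt), part C: the convex function
-/

set_option autoImplicit false

open Set Filter Topology
open scoped ContDiff

namespace Pool.Agent.Helper41.MU

namespace Asm

theorem norm_cv (θ : ℝ) : ‖cv θ‖ = 1 := by
  rw [EuclideanSpace.norm_eq]
  simp [cv, Fin.sum_univ_two]

theorem exists_polar (p : E2) : ∃ θ : ℝ, p = ‖p‖ • cv θ := by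
  have hz : ‖(⟨p 0, p 1⟩ : ℂ)‖ = ‖p‖ := by
    rw [EuclideanSpace.norm_eq, Complex.norm_def, Complex.normSq_mk]
    congr 1
    simp [Fin.sum_univ_two, sq]
  refine ⟨Complex.arg ⟨p 0, p 1⟩, ?_⟩
  have h1 := Complex.norm_mul_cos_arg (⟨p 0, p 1⟩ : ℂ)
  have h2 := Complex.norm_mul_sin_arg (⟨p 0, p 1⟩ : ℂ)
  rw [hz] at h1 h2
  ext i
  fin_cases i
  · simpa [cv] using h1.symm
  · simpa [cv] using h2.symm

/-- the index of the active island -/
theorem exists_index (D : Data) {t : ℝ} (ht : 0 < t) (ht0 : t ≤ 3 / 2 * D.t0) :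
    ∃ k : ℕ, t < 8 / 5 * D.tk k ∧ 8 / 5 * D.tk (k + 1) ≤ t := by
  have h1 : Tendsto (fun k => 8 / 5 * D.tk k) atTop (𝓝 (8 / 5 * 0)) :=
    (tk_tendsto D).const_mul _
  rw [mul_zero] at h1
  have h2 : ∃ n, 8 / 5 * D.tk n ≤ t := (h1.eventually_le_const ht).exists
  classical
  have h3 := Nat.find_spec h2
  have h4 : Nat.find h2 ≠ 0 := by
    intro h
    rw [h, tk_zero] at h3
    linarith [D.t0_pos]
  obtain ⟨k, hk⟩ := Nat.exists_eq_succ_of_ne_zero h4
  refine ⟨k, ?_, ?_⟩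
  · have := Nat.find_min h2 (m := k) (by omega)
    exact not_le.1 this
  · rw [← Nat.succ_eq_add_one, ← hk]
    exact h3

theorem cos_sg (k : ℕ) (θ : ℝ) : Real.cos (2 * (sg k * θ)) = Real.cos (2 * θ) := by
  rcases sg_or k with h | h
  · rw [h, one_mul]
  · rw [h, neg_one_mul, mul_neg, Real.cos_neg]

theorem sin_sg (k : ℕ) (θ : ℝ) : Real.sin (2 * (sg k * θ)) = sg k * Real.sin (2 * θ) := by
  rcases sg_or k with h | h
  · rw [h, one_mul, one_mul]
  · rw [h, neg_one_mul, mul_neg, Real.sin_neg, neg_one_mul]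

theorem sg_sq (k : ℕ) : sg k * sg k = 1 := by
  rcases sg_or k with h | h <;> rw [h] <;> norm_num

/-- sums of errors of the passed islands -/
theorem sum_err (D : Data) (x : ℕ → ℝ) (k : ℕ) {P : ℝ} (hP : 0 ≤ P)
    (h : ∀ j < k, |x j| ≤ 3 * P * D.tk j) :
    |∑ j ∈ Finset.range k, x j| ≤ 4 * P * D.t0 := by
  have h1 : |∑ j ∈ Finset.range k, x j| ≤ ∑ j ∈ Finset.range k, 3 * P * D.tk j :=
    (Finset.abs_sum_le_sum_abs _ _).trans
      (Finset.sum_le_sum fun j hj => h j (Finset.mem_range.1 hj))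
  rw [← Finset.mul_sum] at h1
  have h2 := sum_tk D k
  have h3 := tk_pos D k
  have h4 : 3 * P * ∑ j ∈ Finset.range k, D.tk j = P * (4 * (D.t0 - D.tk k)) := by
    rw [← h2]; ring
  rw [h4] at h1
  have h5 : P * (4 * (D.t0 - D.tk k)) ≤ P * (4 * D.t0) :=
    mul_le_mul_of_nonneg_left (by linarith) hP
  linarith

theorem exists_F : ∃ F : E2 → ℝ, ContDiff ℝ ∞ F ∧
    (∀ p : E2, ∃ θ ρ : ℝ, 0 ≤ ρ ∧ p = ρ • cv θ ∧ 0 < H F p (cv θ) (cv θ) ∧
      H F p (cv θ) (cw θ) ^ 2 < H F p (cv θ) (cv θ) * H F p (cw θ) (cw θ) ∧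
      √(1 + ρ ^ 2) * H F p (cw θ) (cw θ) ≤ 2 ∧
      (H F p (cw θ) (cw θ) ≠ (1 + ρ ^ 2) * H F p (cv θ) (cv θ) ∨
        H F p (cv θ) (cw θ) ≠ 0)) ∧
    (∀ M : ℝ, ∃ R : ℝ, ∀ p : E2, R ≤ ‖p‖ → M ≤ fderiv ℝ F p p - F p) := by
  obtain ⟨D⟩ := exists_data
  obtain ⟨W, V, hW, hV, hbase⟩ := base
  choose G a b c d hG hGz hGf hz hp ha hn using piece D
  have hM := IslC.M_ge D
  have hM3 : 0 < D.M ^ 3 := by positivity
  have hM31 : 1 ≤ D.M ^ 3 := one_le_pow₀ (by linarith)
  have ht0 := D.t0_pos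
  have ht01 := D.t0_le
  have hΔ := D.Δ_pos
  have hΔ1 := D.Δ_le
  obtain ⟨δ, hδdef⟩ : ∃ δ : ℝ, δ = 1 / (10000 * D.M ^ 3) := ⟨_, rfl⟩
  have hδ : 0 < δ := by rw [hδdef]; positivity
  have hδM : δ * D.M ^ 3 = 1 / 10000 := by rw [hδdef]; field_simp
  have hδ1 : δ ≤ 1 / 100 := by
    have : δ * 1 ≤ δ * D.M ^ 3 := mul_le_mul_of_nonneg_left hM31 hδ.le
    linarith
  -- the functions
  let FK : ℕ → E2 → ℝ := fun K x => W x + δ * (V x + ∑ j ∈ Finset.range K, G j x)
  let F : E2 → ℝ := fun x => W x + δ * (V x + ∑' j, G j x)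
  have hFK : ∀ K, ContDiff ℝ ∞ (FK K) := fun K =>
    hW.add (contDiff_const.mul (hV.add (smooth_sum hG K)))
  have hloc : ∀ (K : ℕ) (p : E2), 3 / 2 * D.tk K * ‖p‖ < 1 → F =ᶠ[𝓝 p] FK K := by
    intro K p hpK
    have hcont : Continuous fun q : E2 => 3 / 2 * D.tk K * ‖q‖ := by fun_prop
    filter_upwards [hcont.continuousAt.eventually (gt_mem_nhds hpK)] with q hq
    show W q + δ * (V q + ∑' j, G j q) = W q + δ * (V q + ∑ j ∈ Finset.range K, G j q)
    rw [tsum_eq_sum (s := Finset.range K)]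
    intro j hj
    apply hGz j q
    have h1 : D.tk j ≤ D.tk K := tk_anti D (not_lt.1 fun h => hj (Finset.mem_range.2 h))
    have h2 : 3 / 2 * D.tk j * ‖q‖ ≤ 3 / 2 * D.tk K * ‖q‖ :=
      mul_le_mul_of_nonneg_right (by linarith) (norm_nonneg q)
    linarith
  have hHF : ∀ (K : ℕ) (p : E2), 3 / 2 * D.tk K * ‖p‖ < 1 → ∀ u v : E2,
      H F p u v = H W p u v + δ * (H V p u v + ∑ j ∈ Finset.range K, H (G j) p u v) := by
    intro K p hpK u v
    rw [H_congr (hloc K p hpK) u v]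
    show H (fun x => W x + δ * (V x + ∑ j ∈ Finset.range K, G j x)) p u v = _
    rw [H_add hW (contDiff_const.mul (hV.add (smooth_sum hG K))),
      H_mul δ (hV.add (smooth_sum hG K)), H_add hV (smooth_sum hG K), H_sum hG K]
  have hQF : ∀ (K : ℕ) (p : E2), 3 / 2 * D.tk K * ‖p‖ < 1 →
      Qf F p = Qf W p + δ * (Qf V p + ∑ j ∈ Finset.range K, Qf (G j) p) := by
    intro K p hpK
    rw [Q_congr (hloc K p hpK)]
    show Qf (fun x => W x + δ * (V x + ∑ j ∈ Finset.range K, G j x)) p = _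
    rw [Q_add hW (contDiff_const.mul (hV.add (smooth_sum hG K))),
      Q_mul δ (hV.add (smooth_sum hG K)), Q_add hV (smooth_sum hG K), Q_sum hG K]
  have hFsmooth : ContDiff ℝ ∞ F := by
    rw [contDiff_iff_contDiffAt]
    intro p
    have h1 : Tendsto (fun K => 3 / 2 * D.tk K * ‖p‖) atTop (𝓝 (3 / 2 * 0 * ‖p‖)) :=
      ((tk_tendsto D).const_mul _).mul_const _
    rw [mul_zero, zero_mul] at h1
    obtain ⟨K, hK⟩ := (h1.eventually_lt_const (show (0 : ℝ) < 1 by norm_num)).exists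
    exact (hFK K).contDiffAt.congr_of_eventuallyEq (hloc K p hK)
  -- the near region
  have near : ∀ (θ t : ℝ), 0 < t → t ≤ 3 / 2 * D.t0 → ∃ k : ℕ, t < 8 / 5 * D.tk k ∧
      8 / 5 * D.tk (k + 1) ≤ t ∧ 3 / 2 * D.tk (k + 1) * ‖(t⁻¹ • cv θ : E2)‖ < 1 ∧
      ∀ j < k, t < 2 / 5 * D.tk j := by
    intro θ t ht htle
    obtain ⟨k, hk1, hk2⟩ := exists_index D ht htle
    refine ⟨k, hk1, hk2, ?_, ?_⟩
    · rw [norm_smul, norm_cv, mul_one, Real.norm_of_nonneg (by positivity)]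
      have h1 : 3 / 2 * D.tk (k + 1) ≤ 15 / 16 * t := by linarith
      calc 3 / 2 * D.tk (k + 1) * t⁻¹ ≤ 15 / 16 * t * t⁻¹ :=
            mul_le_mul_of_nonneg_right h1 (by positivity)
        _ = 15 / 16 := by field_simp
        _ < 1 := by norm_num
    · intro j hj
      have h1 : D.tk k ≤ D.tk (j + 1) := tk_anti D hj
      rw [tk_succ] at h1
      linarith
  refine ⟨F, hFsmooth, ?_, ?_⟩
  · intro p
    obtain ⟨θ, hθ⟩ := exists_polar p
    refine ⟨θ, ‖p‖, norm_nonneg p, hθ, ?_⟩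
    obtain ⟨w, hw⟩ : ∃ w : ℝ, w = √(1 + ‖p‖ ^ 2) := ⟨_, rfl⟩
    have hCS : Real.sin (2 * θ) ^ 2 + Real.cos (2 * θ) ^ 2 = 1 := Real.sin_sq_add_cos_sq _
    obtain ⟨b1, b2, b3, -, b5, b6, b7, -⟩ := hbase θ ‖p‖ w (norm_nonneg p) hw
    rw [← hθ] at b1 b2 b3 b5 b6 b7
    rcases lt_or_ge (3 / 2 * D.t0 * ‖p‖) 1 with hfar | hnear
    · -- far from the islands
      have h0 : 3 / 2 * D.tk 0 * ‖p‖ < 1 := by rw [tk_zero]; exact hfar
      have key := far_conds (ρ := ‖p‖) hw hCS hδ hδ1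
      rw [hHF 0 p h0, hHF 0 p h0, hHF 0 p h0, Finset.sum_range_zero, Finset.sum_range_zero,
        Finset.sum_range_zero, add_zero, add_zero, add_zero, b1, b2, b3, b5, b6, b7, ← hw]
      exact key
    · -- in the island region
      have hppos : 0 < ‖p‖ := by
        by_contra hcon
        have : ‖p‖ = 0 := le_antisymm (not_lt.1 hcon) (norm_nonneg p)
        rw [this, mul_zero] at hnear
        linarith
      obtain ⟨t, htdef⟩ : ∃ t : ℝ, t = ‖p‖⁻¹ := ⟨_, rfl⟩
      have ht : 0 < t := by rw [htdef]; positivity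
      have htinv : t⁻¹ = ‖p‖ := by rw [htdef, inv_inv]
      have htle : t ≤ 3 / 2 * D.t0 := by
        rw [htdef, inv_le_iff_one_le_mul₀ hppos]
        linarith
      have hpt : p = t⁻¹ • cv θ := by rw [htinv]; exact hθ
      obtain ⟨k, hk1, hk2, hk3, hk4⟩ := near θ t ht htle
      rw [← hpt] at hk3
      have f1 : ∀ j, H (G j) p (cv θ) (cv θ) = t ^ 3 * a j (sg j * θ) t := fun j => by
        rw [hpt]; exact (hGf j θ t ht).1
      have f2 : ∀ j, H (G j) p (cv θ) (cw θ) = -(t ^ 2 * (sg j * b j (sg j * θ) t)) :=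
        fun j => by rw [hpt]; exact (hGf j θ t ht).2.1
      have f3 : ∀ j, H (G j) p (cw θ) (cw θ) = t * c j (sg j * θ) t := fun j => by
        rw [hpt]; exact (hGf j θ t ht).2.2.1
      obtain ⟨A, hA⟩ : ∃ A : ℝ, A = ∑ j ∈ Finset.range (k + 1), a j (sg j * θ) t := ⟨_, rfl⟩
      obtain ⟨B, hB⟩ : ∃ B : ℝ, B = ∑ j ∈ Finset.range (k + 1), sg j * b j (sg j * θ) t :=
        ⟨_, rfl⟩
      obtain ⟨E, hE⟩ : ∃ E : ℝ, E = ∑ j ∈ Finset.range (k + 1), c j (sg j * θ) t := ⟨_, rfl⟩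
      have s1 : ∑ j ∈ Finset.range (k + 1), H (G j) p (cv θ) (cv θ) = t ^ 3 * A := by
        rw [hA, Finset.mul_sum]
        exact Finset.sum_congr rfl fun j _ => f1 j
      have s2 : ∑ j ∈ Finset.range (k + 1), H (G j) p (cv θ) (cw θ) = -(t ^ 2 * B) := by
        rw [hB, Finset.mul_sum, ← Finset.sum_neg_distrib]
        exact Finset.sum_congr rfl fun j _ => f2 j
      have s3 : ∑ j ∈ Finset.range (k + 1), H (G j) p (cw θ) (cw θ) = t * E := by
        rw [hE, Finset.mul_sum]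
        exact Finset.sum_congr rfl fun j _ => f3 j
      -- values and bounds
      obtain ⟨v1, v2, v3, -⟩ := ha k (sg k * θ) t ht hk1
      have hAe : A = a k (sg k * θ) t := by
        rw [hA, Finset.sum_range_succ, Finset.sum_eq_zero, zero_add]
        intro j hj
        exact (hp j (sg j * θ) t ht (hk4 j (Finset.mem_range.1 hj))).1
      obtain ⟨Bp, hBp⟩ : ∃ Bp : ℝ, Bp = ∑ j ∈ Finset.range k, sg j * b j (sg j * θ) t :=
        ⟨_, rfl⟩
      obtain ⟨Ep, hEp⟩ : ∃ Ep : ℝ, Ep = ∑ j ∈ Finset.range k, c j (sg j * θ) t := ⟨_, rfl⟩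
      have hBe : B = Bp + sg k * b k (sg k * θ) t := by
        rw [hB, hBp, Finset.sum_range_succ]
      have hEe : E = Ep + c k (sg k * θ) t := by
        rw [hE, hEp, Finset.sum_range_succ]
      have hEpb : |Ep| ≤ 60 * D.M ^ 3 * D.t0 := by
        have h1 := sum_err D (fun j => c j (sg j * θ) t) k (P := 40 / 3 * D.M ^ 3)
          (by positivity) (fun j hj => by
            have := (hp j (sg j * θ) t ht (hk4 j hj)).2.2.1
            have e : 3 * (40 / 3 * D.M ^ 3) * D.tk j = 40 * D.M ^ 3 * D.tk j := by ring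
            rw [e]; exact this)
        rw [← hEp] at h1
        have h2 : 4 * (40 / 3 * D.M ^ 3) * D.t0 ≤ 60 * D.M ^ 3 * D.t0 :=
          mul_le_mul_of_nonneg_right (by linarith) ht0.le
        exact h1.trans h2
      have hBpb : |Bp| ≤ 5 * D.M ^ 2 * D.t0 + D.M * D.Δ := by
        have h1 := sum_err D
          (fun j => sg j * (b j (sg j * θ) t + D.Δ * deriv (fS D.ℓ) (sg j * θ))) k
          (P := D.M ^ 2) (by positivity) (fun j hj => by
            have := (hp j (sg j * θ) t ht (hk4 j hj)).2.1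
            rw [abs_mul]
            have hs : |sg j| = 1 := by
              rcases sg_or j with h | h <;> rw [h] <;> norm_num
            rw [hs, one_mul]
            exact this)
        have h2 : Bp = ∑ j ∈ Finset.range k,
            sg j * (b j (sg j * θ) t + D.Δ * deriv (fS D.ℓ) (sg j * θ)) -
            D.Δ * deriv (fS D.ℓ) θ * ∑ j ∈ Finset.range k, sg j := by
          rw [hBp, Finset.mul_sum, ← Finset.sum_sub_distrib]
          apply Finset.sum_congr rfl
          intro j _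
          rw [dL_sg]
          ring
        have h3 : |D.Δ * deriv (fS D.ℓ) θ * ∑ j ∈ Finset.range k, sg j| ≤ D.M * D.Δ := by
          rw [abs_mul, abs_mul, abs_of_pos hΔ]
          have h4 : |deriv (fS D.ℓ) θ| ≤ D.M := (D.bdA θ).2.2.2.2.1
          calc D.Δ * |deriv (fS D.ℓ) θ| * |∑ j ∈ Finset.range k, sg j| ≤ D.Δ * D.M * 1 :=
                mul_le_mul (mul_le_mul_of_nonneg_left h4 hΔ.le) (sum_sg k) (abs_nonneg _)
                  (by positivity)
            _ = D.M * D.Δ := by ring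
        have h5 := abs_le.1 h1
        have h6 := abs_le.1 h3
        have h7 : 0 ≤ D.M ^ 2 * D.t0 := by positivity
        rw [h2, abs_le]
        constructor <;> linarith
      have hMt : D.M ^ 3 * D.t0 ≤ D.M ^ 3 * (1 / 100) := mul_le_mul_of_nonneg_left ht01 hM3.le
      have hMt2 : D.M ^ 2 * D.t0 ≤ D.M ^ 3 * (1 / 100) :=
        mul_le_mul (Island.M2_le D) ht01 ht0.le hM3.le
      have hMΔ : D.M * D.Δ ≤ D.M ^ 3 := by
        have h1 : D.M * D.Δ ≤ D.M * 1 := mul_le_mul_of_nonneg_left hΔ1 (by linarith)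
        linarith [Island.M1_le D, Island.M2_le D]
      have key : ∀ {x : ℝ}, |x| ≤ 200 * D.M ^ 3 → |δ * x| ≤ 1 / 50 := by
        intro x hx
        rw [abs_mul, abs_of_pos hδ]
        calc δ * |x| ≤ δ * (200 * D.M ^ 3) := mul_le_mul_of_nonneg_left hx hδ.le
          _ = 200 * (δ * D.M ^ 3) := by ring
          _ = 1 / 50 := by rw [hδM]; norm_num
      have bA : -(1 / 50) ≤ δ * A := by
        rw [hAe]
        have h1 : δ * -(100 * D.M ^ 3) ≤ δ * a k (sg k * θ) t :=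
          mul_le_mul_of_nonneg_left v1 hδ.le
        have h2 : δ * -(100 * D.M ^ 3) = -(100 * (δ * D.M ^ 3)) := by ring
        rw [h2, hδM] at h1
        linarith
      have bB : |δ * B| ≤ 1 / 50 := by
        apply key
        have h1 := abs_le.1 hBpb
        have h2 : |sg k * b k (sg k * θ) t| ≤ 100 * D.M ^ 3 := by
          rw [abs_mul]
          have hs : |sg k| = 1 := by
            rcases sg_or k with h | h <;> rw [h] <;> norm_num
          rw [hs, one_mul]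
          exact v2
        have h3 := abs_le.1 h2
        rw [hBe, abs_le]
        constructor <;> linarith
      have bE : |δ * E| ≤ 1 / 50 := by
        apply key
        have h1 := abs_le.1 hEpb
        have h3 := abs_le.1 v3
        rw [hEe, abs_le]
        constructor <;> linarith
      have hw' : w = √(1 + t⁻¹ ^ 2) := by rw [htinv]; exact hw
      have ht50 : t ≤ 1 / 50 := by linarith
      have fin := near_conds (t := t) (w := w) (C := Real.cos (2 * θ)) (S := Real.sin (2 * θ))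
        (δ := δ) (A := A) (B := B) (E := E) ht ht50 hw' hCS hδ hδ1 bA bB bE (by
          intro P1 P2
          refine hn k (sg k * θ) t ht hk1 Ep (sg k * Bp) hEpb ?_ ?_ ?_
          · rw [abs_mul]
            have hs : |sg k| = 1 := by
              rcases sg_or k with h | h <;> rw [h] <;> norm_num
            rw [hs, one_mul]
            exact hBpb
          · rw [cos_sg, ← hAe]
            rw [hEe] at P1
            linarith
          · rw [sin_sg]
            rw [hBe] at P2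
            have h1 : sg k * (Real.sin (2 * θ) / 2 * (1 - t / √(1 + t ^ 2)) +
              (Bp + sg k * b k (sg k * θ) t)) = 0 := by rw [P2, mul_zero]
            have h2 : sg k * (Real.sin (2 * θ) / 2 * (1 - t / √(1 + t ^ 2)) +
              (Bp + sg k * b k (sg k * θ) t)) = sg k * Real.sin (2 * θ) / 2 *
              (1 - t / √(1 + t ^ 2)) + (sg k * sg k) * b k (sg k * θ) t + sg k * Bp := by
              ring
            rw [h2, sg_sq, one_mul] at h1
            exact h1)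
      rw [hHF (k + 1) p hk3, hHF (k + 1) p hk3, hHF (k + 1) p hk3, s1, s2, s3, b1, b2, b3, b5,
        b6, b7, ← hw]
      rw [htinv] at fin
      exact fin
  · intro M'
    obtain ⟨n, hn'⟩ := exists_nat_gt (2 * (M' + 4) / (δ * D.Δ) + 1)
    refine ⟨(D.tk n)⁻¹, ?_⟩
    intro p hpR
    have htn := tk_pos D n
    have hppos : 0 < ‖p‖ := lt_of_lt_of_le (by positivity) hpR
    obtain ⟨θ, hθ⟩ := exists_polar p
    obtain ⟨w, hw⟩ : ∃ w : ℝ, w = √(1 + ‖p‖ ^ 2) := ⟨_, rfl⟩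
    obtain ⟨-, -, -, b4, -, -, -, b8⟩ := hbase θ ‖p‖ w (norm_nonneg p) hw
    rw [← hθ] at b4 b8
    obtain ⟨t, htdef⟩ : ∃ t : ℝ, t = ‖p‖⁻¹ := ⟨_, rfl⟩
    have ht : 0 < t := by rw [htdef]; positivity
    have htinv : t⁻¹ = ‖p‖ := by rw [htdef, inv_inv]
    have htn' : t ≤ D.tk n := by
      rw [htdef]
      exact inv_le_of_inv_le₀ htn hpR
    have htle : t ≤ 3 / 2 * D.t0 := by linarith [tk_le D n]
    have hpt : p = t⁻¹ • cv θ := by rw [htinv]; exact hθ
    obtain ⟨k, hk1, hk2, hk3, hk4⟩ := near θ t ht htle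
    rw [← hpt] at hk3
    have hkn : n ≤ k := by
      by_contra hcon
      have h1 : D.tk n ≤ D.tk (k + 1) := tk_anti D (by omega)
      linarith
    have f4 : ∀ j, Qf (G j) p = -d j (sg j * θ) t := fun j => by
      rw [hpt]; exact (hGf j θ t ht).2.2.2
    have hQ := hQF (k + 1) p hk3
    have s4 : ∑ j ∈ Finset.range (k + 1), Qf (G j) p =
        -(∑ j ∈ Finset.range k, d j (sg j * θ) t) - d k (sg k * θ) t := by
      rw [Finset.sum_congr rfl fun j _ => f4 j, Finset.sum_neg_distrib, Finset.sum_range_succ]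
      ring
    have h1 := sum_err D (fun j => d j (sg j * θ) t + D.Δ * fS D.ℓ (sg j * θ)) k
      (P := D.M ^ 2) (by positivity) (fun j hj =>
        (hp j (sg j * θ) t ht (hk4 j hj)).2.2.2)
    rw [Finset.sum_add_distrib, ← Finset.mul_sum] at h1
    have h2 := sum_L D k θ
    have h3 := (ha k (sg k * θ) t ht hk1).2.2.2
    have hkr : (n : ℝ) ≤ k := by exact_mod_cast hkn
    have h4 : D.Δ * (((n : ℝ) - 1) / 2) ≤
        D.Δ * ∑ j ∈ Finset.range k, fS D.ℓ (sg j * θ) :=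
      mul_le_mul_of_nonneg_left (by linarith) hΔ.le
    have h5 := abs_le.1 h1
    have hMt2 : D.M ^ 2 * D.t0 ≤ D.M ^ 3 * (1 / 100) :=
      mul_le_mul (Island.M2_le D) ht01 ht0.le hM3.le
    have h6 : D.Δ * (((n : ℝ) - 1) / 2) - 101 * D.M ^ 3 ≤
        ∑ j ∈ Finset.range (k + 1), Qf (G j) p := by
      rw [s4]; linarith
    have hw1 : 1 ≤ w := by
      rw [hw, Real.one_le_sqrt]; linarith [sq_nonneg ‖p‖]
    have hw2 : 1 / w ≤ 1 := by
      rw [div_le_one (by linarith)]; exact hw1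
    have hw3 : 0 < 1 / w := by positivity
    have hC : |Real.cos (2 * θ) * (1 - 1 / w) / 4| ≤ 1 := by
      rw [abs_div, abs_mul, abs_of_pos (by norm_num : (0 : ℝ) < 4)]
      have e1 : |1 - 1 / w| ≤ 1 := by rw [abs_le]; constructor <;> linarith
      have e2 : |Real.cos (2 * θ)| * |1 - 1 / w| ≤ 1 * 1 :=
        mul_le_mul (Real.abs_cos_le_one _) e1 (abs_nonneg _) zero_le_one
      linarith
    have hC' := abs_le.1 hC
    have h7 : D.Δ * (((n : ℝ) - 1) / 2) - 102 * D.M ^ 3 ≤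
        Qf V p + ∑ j ∈ Finset.range (k + 1), Qf (G j) p := by
      have e : Qf V p = Real.cos (2 * θ) * (1 - 1 / w) / 4 := b8
      rw [e]; linarith
    have h8 := mul_le_mul_of_nonneg_left h7 hδ.le
    have h9 : δ * (D.Δ * (((n : ℝ) - 1) / 2) - 102 * D.M ^ 3) =
        δ * D.Δ * (((n : ℝ) - 1) / 2) - 102 * (δ * D.M ^ 3) := by ring
    rw [h9, hδM] at h8
    have hδΔ : 0 < δ * D.Δ := by positivity
    have h10 : M' + 4 ≤ δ * D.Δ * (((n : ℝ) - 1) / 2) := by
      have e1 : 2 * (M' + 4) / (δ * D.Δ) ≤ (n : ℝ) - 1 := by linarith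
      rw [div_le_iff₀ hδΔ] at e1
      linarith
    show M' ≤ Qf F p
    rw [hQ]
    have e : Qf W p = -(1 / w) := b4
    rw [e]
    linarith

end Asm

/-- **Disproof of Milnor's conjecture (convex case).** -/
theorem milnor : ∃ f : E2 → E3, IsImmersion f ∧ IsCompleteSurface f ∧
    (∀ p, ∃ ν, IsUnitNormal f p ν) ∧
    (∀ p ν, IsUnitNormal f p ν → ∃ k₁ k₂, ArePrincipal f p ν k₁ k₂) ∧
    ∀ p ν k₁ k₂, IsUnitNormal f p ν → ArePrincipal f p ν k₁ k₂ →
      k₁ ≠ k₂ ∧ 1 / 4 ≤ k₁ ^ 2 + k₂ ^ 2 ∧ 0 < k₁ * k₂ := by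
  obtain ⟨F, h1, h2, h3⟩ := Asm.exists_F
  exact geo F h1 h2 h3

end Pool.Agent.Helper41.MU
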